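import Mathlib
import Pool.Agent.H91.W.Moment

set_option autoImplicit false
open Finset

/-! # Route W, W-D, D3: blocking circuits across a chord of fair plates (assembly)

`E1`, `E2` : bits of the two sides of the chord, `E3` : bits of the plates. `Au i`, `Al j` (left side),
`Bu i`, `Bl j` (right side) : the upper plate `i`, the lower plate `j` is touched from far away;
`F`, `G` : half rings etc. Output: with probability bounded below there are an upper plate `i` and a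
lower plate `j` which are joined on both sides, and the lower plate is white. -/

namespace Pool.Agent.H51.W

open Pool.Agent.H75.Perc Pool.Agent.H75.TwoArm Pool.Agent.H69.NC Pool.Agent.H69.NC.Osss84
open Pool.Agent.H91.W

lemma inc_inter {α : Type*} [DecidableEq α] {A : Finset α → Prop} (h : Inc A) (E : Finset α) :
    Inc (fun ω => A (ω ∩ E)) := fun _ _ hs h1 => h _ _ (inter_subset_inter_right hs) h1

/-- hypotheses of one side: touching events with one point lower bound and two point upper bound -/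
structure Touch {α : Type*} [DecidableEq α] (q : α → ℝ) (E : Finset α) (a M : ℝ) (n : ℕ)
    (A : ℕ → Finset α → Prop) : Prop where
  inc : ∀ i, Inc (A i)
  low : ∀ i, i < n → a * (n : ℝ) ^ (-(1 / 3) : ℝ) ≤ PQ q E (A i)
  two : ∀ i j, i < n → j < n → PQ q E (fun ω => A i ω ∧ A j ω) ≤
    M * ((Nat.dist i j : ℝ) + 1) ^ (-(1 / 3) : ℝ) * (n : ℝ) ^ (-(1 / 3) : ℝ)

/-- the constant -/
noncomputable def bc (a M c0 p0 : ℝ) : ℝ :=
  ((a ^ 2) ^ 2 / (6 * M ^ 2) * ((p0 * a ^ 2) ^ 2 / (6 * M ^ 2))) * (c0 * c0)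

lemma bc_pos {a M c0 p0 : ℝ} (ha : 0 < a) (hM : 0 < M) (hc : 0 < c0) (hp : 0 < p0) :
    0 < bc a M c0 p0 := by unfold bc; positivity

/-- **blocking circuit across a chord of fair plates** -/
theorem block_prob {α : Type*} [DecidableEq α] {q : α → ℝ} (hq : Wt q)
    {E E1 E2 E3 : Finset α} (h1 : E1 ⊆ E) (h2 : E2 ⊆ E) (h3 : E3 ⊆ E)
    (h12 : Disjoint E1 E2) (h13 : Disjoint E1 E3) (h23 : Disjoint E2 E3)
    {a M c0 p0 : ℝ} (ha : 0 ≤ a) (hM : 0 < M) (hp : 0 ≤ p0) (hc : 0 ≤ c0)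
    {n : ℕ} (hn : 1 ≤ n) {Au Al Bu Bl C : ℕ → Finset α → Prop} {F G : Finset α → Prop}
    {U V : ℕ → ℕ → Finset α → Prop}
    (hAu : Touch q E1 a M n Au) (hAl : Touch q E1 a M n Al)
    (hBu : Touch q E2 a M n Bu) (hBl : Touch q E2 a M n Bl)
    (hCi : ∀ j, Inc (C j)) (hC : ∀ j, j < n → p0 ≤ PQ q E3 (C j))
    (hFi : Inc F) (hF : c0 ≤ PQ q E1 F) (hGi : Inc G) (hG : c0 ≤ PQ q E2 G)
    (hU : ∀ i j, i < n → j < n → ∀ ω, ω ⊆ E1 → Au i ω → Al j ω → F ω → U i j ω)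
    (hV : ∀ i j, i < n → j < n → ∀ ω, ω ⊆ E2 → Bu i ω → Bl j ω → G ω → V i j ω) :
    bc a M c0 p0 ≤ PQ q E (fun ω => ∃ i, i < n ∧ ∃ j, j < n ∧ U i j (ω ∩ E1) ∧
      V i j (ω ∩ E2) ∧ C j (ω ∩ E3)) := by
  have m1 := moment_touch hq h1 h2 h3 h12 h13 h23 (s := 1 / 3) (by norm_num) (by norm_num) ha hM
    (p0 := 1) (by norm_num) hn Au Bu (fun _ _ => True) hAu.low hBu.low
    (fun i _ => by rw [PQ_true]) hAu.two hBu.two
  have m2 := moment_touch hq h1 h2 h3 h12 h13 h23 (s := 1 / 3) (by norm_num) (by norm_num) ha hM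
    hp hn Al Bl C hAl.low hBl.low hC hAl.two hBl.two
  have e1 : (1 * a ^ 2) ^ 2 * (1 - 2 * (1 / 3)) / (2 * M ^ 2) = (a ^ 2) ^ 2 / (6 * M ^ 2) := by
    field_simp; ring
  have e2 : (p0 * a ^ 2) ^ 2 * (1 - 2 * (1 / 3)) / (2 * M ^ 2) =
      (p0 * a ^ 2) ^ 2 / (6 * M ^ 2) := by
    field_simp; ring
  rw [e1] at m1
  rw [e2] at m2
  set X : Finset α → Prop := fun ω => ∃ i, i < n ∧ Au i (ω ∩ E1) ∧ Bu i (ω ∩ E2) ∧ True with hX
  set Y : Finset α → Prop := fun ω => ∃ j, j < n ∧ Al j (ω ∩ E1) ∧ Bl j (ω ∩ E2) ∧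
    C j (ω ∩ E3) with hY
  have iX : Inc X := by
    rintro ω ω' h ⟨i, hi, g1, g2, -⟩
    exact ⟨i, hi, hAu.inc i _ _ (inter_subset_inter_right h) g1,
      hBu.inc i _ _ (inter_subset_inter_right h) g2, trivial⟩
  have iY : Inc Y := by
    rintro ω ω' h ⟨j, hj, g1, g2, g3⟩
    exact ⟨j, hj, hAl.inc j _ _ (inter_subset_inter_right h) g1,
      hBl.inc j _ _ (inter_subset_inter_right h) g2, hCi j _ _ (inter_subset_inter_right h) g3⟩
  have iF : Inc (fun ω => F (ω ∩ E1)) := inc_inter hFi E1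
  have iG : Inc (fun ω => G (ω ∩ E2)) := inc_inter hGi E2
  have pF : c0 ≤ PQ q E (fun ω => F (ω ∩ E1)) := by rw [PQ_restrict h1]; exact hF
  have pG : c0 ≤ PQ q E (fun ω => G (ω ∩ E2)) := by rw [PQ_restrict h2]; exact hG
  have k1 := PQ_harris hq E iX iY
  have k2 := PQ_harris hq E iF iG
  have iXY : Inc (fun ω => X ω ∧ Y ω) := fun ω ω' h hh => ⟨iX _ _ h hh.1, iY _ _ h hh.2⟩
  have iFG : Inc (fun ω => F (ω ∩ E1) ∧ G (ω ∩ E2)) := fun ω ω' h hh =>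
    ⟨iF _ _ h hh.1, iG _ _ h hh.2⟩
  have k3 := PQ_harris hq E iXY iFG
  have hP : ∀ A : Finset α → Prop, 0 ≤ PQ q E A := fun A => PQ_nonneg hq E A
  have hx : (0 : ℝ) ≤ (a ^ 2) ^ 2 / (6 * M ^ 2) := by positivity
  have hy : (0 : ℝ) ≤ (p0 * a ^ 2) ^ 2 / (6 * M ^ 2) := by positivity
  calc bc a M c0 p0 ≤ (PQ q E X * PQ q E Y) * (PQ q E (fun ω => F (ω ∩ E1)) *
        PQ q E (fun ω => G (ω ∩ E2))) := by
        unfold bc
        have t1 := mul_le_mul m1 m2 hy (hP _)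
        have t2 := mul_le_mul pF pG hc (hP _)
        exact mul_le_mul t1 t2 (mul_nonneg hc hc) (mul_nonneg (hP _) (hP _))
    _ ≤ PQ q E (fun ω => X ω ∧ Y ω) * PQ q E (fun ω => F (ω ∩ E1) ∧ G (ω ∩ E2)) :=
        mul_le_mul k1 k2 (mul_nonneg (hP _) (hP _)) (hP _)
    _ ≤ PQ q E (fun ω => (X ω ∧ Y ω) ∧ (F (ω ∩ E1) ∧ G (ω ∩ E2))) := k3
    _ ≤ _ := by
        refine PQ_mono hq fun ω _ h => ?_
        obtain ⟨⟨⟨i, hi, g1, g2, -⟩, ⟨j, hj, g3, g4, g5⟩⟩, g6, g7⟩ := h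
        exact ⟨i, hi, j, hj, hU i j hi hj _ inter_subset_right g1 g3 g6,
          hV i j hi hj _ inter_subset_right g2 g4 g7, g5⟩

end Pool.Agent.H51.W
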