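import Mathlib
import Pool.Agent.Q1.M6e.OneArm

set_option autoImplicit false
open Finset

/-! # Route W, W-D, D3: touching events of boxes at a wall, one and two points

`Tch E z ρ R` : the box of radius `ρ` round the wall vertex `z` is connected, by labels of `E`, to
distance `R`. `E` is any set of labels above the flat wall through `z` (`κ = 1` diagonal).
* `tch_le` : `P(Tch) ≤ C (ρ/R)^(1/3)`
* `tch_two` : `P(Tch z and Tch z') ≤ C (ρ/D)^(1/3) (ρ/R)^(1/3)`, `D = |z - z'|`, `ρ ≤ D ≤ R`. -/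

namespace Pool.Agent.H51.W

open Pool.Agent.H75.Perc Pool.Agent.H75.TwoArm Pool.Agent.H75.Four Pool.Agent.H49.Perc
open Pool.Agent.H99.NC Pool.Agent.H60.Q1 Pool.Agent.H20.Q1 Pool.Agent.H59.Q1 Pool.Agent.Q1.M6e

variable {κ : ℤ} {x y z : ℤ × ℤ} {n ρ R D s t M : ℤ} {E ω : Finset (ℤ × ℤ)}

/-- labels (odd) above the flat wall through `z` -/
def Abv (κ : ℤ) (z : ℤ × ℤ) (E : Finset (ℤ × ℤ)) : Prop :=
  ∀ l ∈ E, (l.1 + l.2) % 2 = 1 ∧ 2 * ht κ z ≤ ht κ l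

/-- the box of radius `ρ` round `z` is connected to distance `R` by labels of `E` -/
def Tch (E : Finset (ℤ × ℤ)) (z : ℤ × ℤ) (ρ R : ℤ) (ω : Finset (ℤ × ℤ)) : Prop :=
  ∃ u v, Near z ρ u ∧ Far z R v ∧ Co (ω ∩ E) u v

lemma Tch_inc : Inc (Tch E z ρ R) := by
  rintro ω ω' h ⟨u, v, h1, h2, h3⟩
  exact ⟨u, v, h1, h2, h3.mono (inter_subset_inter_right h)⟩

lemma ht_wp' : ht κ (wp κ z D) = ht κ z := by
  unfold ht wp; ring

lemma Abv.wp (h : Abv κ z E) : Abv κ (wp κ z D) E := fun l hl => by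
  rw [ht_wp']; exact h l hl

/-- a touching event gives a crossing of the half annulus -/
lemma Tch.cr (hE : Abv κ z E) (h0 : 0 ≤ ρ) (hρ : ρ < R) (h : Tch E z ρ R ω) :
    Cr κ z ρ R (ω ∩ E) := by
  obtain ⟨u, v, hu, hv, h1⟩ := h
  obtain ⟨u', hu', h2⟩ := last_exit (w := z) (c := ρ) h1 (near_inR.1 hu) (far_not_inR hρ hv)
  have hu'' : Near z ρ u' := near_inR.2 hu'
  obtain ⟨v', hv', h3⟩ := open_exit (o := z) (M := R) h2 (by
    unfold Near at hu''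
    omega) (by
    unfold Far at hv
    omega)
  refine ⟨u', v', hu'', hv', h3.mono ?_⟩
  intro l hl
  obtain ⟨g1, g2⟩ := mem_inter.1 hl
  obtain ⟨g3, g4⟩ := mem_sdiff.1 g1
  refine mem_inter.2 ⟨g3, ?_⟩
  have g5 := hE l (mem_inter.1 g3).2
  unfold BR at g4
  rw [mem_Bx] at g2 g4
  rw [mem_AL]
  unfold ht at g5
  omega

/-- monotonicity in the outer radius -/
lemma Tch.mono_R (h : Tch E z ρ R ω) (ht : t ≤ R) : Tch E z ρ t ω := by
  obtain ⟨u, v, hu, hv, h1⟩ := h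
  refine ⟨u, v, hu, ?_, h1⟩
  unfold Far at hv ⊢
  omega

lemma Pr_inter_le {A : Finset (ℤ × ℤ) → Prop} {F : Finset (ℤ × ℤ)} (hA : Inc A) :
    Pr F (fun ω => A (ω ∩ E)) ≤ Pr F A := Pr_mono fun _ _ h => hA _ _ inter_subset_left h

/-- **one point** -/
theorem tch_le : ∃ C : ℝ, 1 ≤ C ∧ ∀ κ : ℤ, (κ = 0 ∨ κ = 1) → ∀ (z : ℤ × ℤ) (ρ R : ℤ), 1 ≤ ρ →
    1 ≤ R → ∀ E : Finset (ℤ × ℤ), Abv κ z E →
    Pr E (Tch E z ρ R) ≤ C * ((ρ : ℝ) / R) ^ (1 / 3 : ℝ) := by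
  obtain ⟨C, hC, h⟩ := Cr_le
  refine ⟨C, hC, fun κ hκ z ρ R hρ hR E hE => ?_⟩
  have hρ' : (1 : ℝ) ≤ ρ := by exact_mod_cast hρ
  have hR' : (1 : ℝ) ≤ R := by exact_mod_cast hR
  rcases le_or_gt R ρ with h6 | h6
  · have h7 : (R : ℝ) ≤ ρ := by exact_mod_cast h6
    have h8 : (1 : ℝ) ≤ ((ρ : ℝ) / R) ^ (1 / 3 : ℝ) :=
      Real.one_le_rpow (by rw [le_div_iff₀ (by linarith)]; linarith) (by norm_num)
    have := Pr_le_one E (Tch E z ρ R)
    nlinarith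
  · have e1 : Pr E (Tch E z ρ R) ≤ Pr (E ∪ AL κ z ρ R) (Cr κ z ρ R) := by
      refine le_trans (Pr_mono fun ω hω h1 => ?_) (Pr_inc subset_union_left Cr_inc)
      have := h1.cr hE (by omega) h6
      rwa [inter_eq_left.2 hω] at this
    exact e1.trans (h κ hκ z ρ R hρ hR _ subset_union_right)

/-- **two points** -/
theorem tch_two : ∃ C : ℝ, 1 ≤ C ∧ ∀ κ : ℤ, (κ = 0 ∨ κ = 1) → ∀ (z : ℤ × ℤ) (ρ R D : ℤ), 1 ≤ ρ →
    ρ ≤ D → D ≤ R → ∀ E : Finset (ℤ × ℤ), Abv κ z E →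
    Pr E (fun ω => Tch E z ρ R ω ∧ Tch E (wp κ z D) ρ R ω) ≤
      C * (((ρ : ℝ) / D) ^ (1 / 3 : ℝ) * ((ρ : ℝ) / R) ^ (1 / 3 : ℝ)) := by
  obtain ⟨C, hC, h⟩ := tch_le
  obtain ⟨C2, hC2, hcr⟩ := Cr_le
  have p3 : (1 : ℝ) ≤ C2 ^ 3 := one_le_pow₀ hC2
  refine ⟨8 * C * C2 ^ 3, by nlinarith, fun κ hκ z ρ R D hρ hρD hDR E hE => ?_⟩
  have hρ' : (1 : ℝ) ≤ ρ := by exact_mod_cast hρ
  have hD' : (ρ : ℝ) ≤ D := by exact_mod_cast hρD
  have hR' : (D : ℝ) ≤ R := by exact_mod_cast hDR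
  have hD0 : (0 : ℝ) < D := by linarith
  have hR0 : (0 : ℝ) < R := by linarith
  have hX0 : 0 < ((ρ : ℝ) / D) ^ (1 / 3 : ℝ) := by positivity
  have hY0 : 0 < ((ρ : ℝ) / R) ^ (1 / 3 : ℝ) := by positivity
  set y := wp κ z D with hy
  rcases le_or_gt D (8 * ρ) with h8 | h8
  · -- close points
    have h1 : Pr E (fun ω => Tch E z ρ R ω ∧ Tch E y ρ R ω) ≤
        C * ((ρ : ℝ) / R) ^ (1 / 3 : ℝ) :=
      le_trans (Pr_mono fun ω _ h => h.1) (h κ hκ z ρ R hρ (by omega) E hE)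
    have h2 : (1 / 2 : ℝ) ≤ ((ρ : ℝ) / D) ^ (1 / 3 : ℝ) := by
      have e1 : (1 / 8 : ℝ) ≤ (ρ : ℝ) / D := by
        rw [le_div_iff₀ hD0]
        have : (D : ℝ) ≤ 8 * ρ := by exact_mod_cast h8
        linarith
      have e2 : (1 / 8 : ℝ) ^ (1 / 3 : ℝ) ≤ ((ρ : ℝ) / D) ^ (1 / 3 : ℝ) :=
        Real.rpow_le_rpow (by norm_num) e1 (by norm_num)
      have e3 : (1 / 8 : ℝ) ^ (1 / 3 : ℝ) = 1 / 2 := by
        rw [show (1 / 8 : ℝ) = (1 / 2) ^ (3 : ℝ) by norm_num, ← Real.rpow_mul (by norm_num)]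
        norm_num
      linarith
    refine h1.trans ?_
    have e4 : C * ((ρ : ℝ) / R) ^ (1 / 3 : ℝ) ≤
        C * (2 * ((ρ : ℝ) / D) ^ (1 / 3 : ℝ) * ((ρ : ℝ) / R) ^ (1 / 3 : ℝ)) := by
      refine mul_le_mul_of_nonneg_left ?_ (by linarith)
      nlinarith
    refine e4.trans ?_
    have e5 : (0 : ℝ) ≤ C * (((ρ : ℝ) / D) ^ (1 / 3 : ℝ) * ((ρ : ℝ) / R) ^ (1 / 3 : ℝ)) := by
      positivity
    nlinarith
  · -- far points
    set t : ℤ := (D - 1) / 2 with ht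
    have ht1 : 1 ≤ t := by omega
    have ht2 : 2 * t < D := by omega
    have ht3 : ρ < t := by omega
    have ht4 : D ≤ 4 * t := by omega
    have ht0 : (0 : ℝ) < t := by exact_mod_cast (by omega : (0 : ℤ) < t)
    have ht5 : (D : ℝ) / 4 ≤ t := by
      have : (D : ℝ) ≤ 4 * t := by exact_mod_cast ht4
      linarith
    have hyE : Abv κ y E := hE.wp
    set F : Finset (ℤ × ℤ) := E ∪ (HL κ z t ∪ HL κ y t) ∪ AL κ z (2 * D) R with hF
    have sE : E ⊆ F := subset_union_left.trans subset_union_left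
    have sx : AL κ z ρ t ⊆ HL κ z t := AL_sub_HL
    have sy : AL κ y ρ t ⊆ HL κ y t := AL_sub_HL
    have sH : HL κ z t ∪ HL κ y t ⊆ F := (subset_union_right.trans subset_union_left)
    have sA : AL κ z (2 * D) R ⊆ F := subset_union_right
    have hd1 : Disjoint (HL κ z t) (HL κ y t) := HL_disj ht2
    have e1 : Pr (HL κ z t ∪ HL κ y t) (fun ω => Cr κ z ρ t (ω ∩ HL κ z t) ∧
        Cr κ y ρ t (ω ∩ HL κ y t)) = Pr (HL κ z t) (Cr κ z ρ t) * Pr (HL κ y t) (Cr κ y ρ t) :=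
      Pr_indep subset_union_left subset_union_right hd1 _ _
    have a1 := hcr κ hκ z ρ t hρ ht1 _ sx
    have a2 := hcr κ hκ y ρ t hρ ht1 _ sy
    have P0 : ∀ (G : Finset (ℤ × ℤ)) (A : Finset (ℤ × ℤ) → Prop), 0 ≤ Pr G A :=
      fun G A => Pr_nonneg G A
    have locx : ∀ ω : Finset (ℤ × ℤ), Cr κ z ρ t ω → Cr κ z ρ t (ω ∩ HL κ z t) := fun ω h9 => by
      rw [Cr_local] at h9 ⊢
      rwa [inter_assoc, inter_eq_right.2 sx]
    have locy : ∀ ω : Finset (ℤ × ℤ), Cr κ y ρ t ω → Cr κ y ρ t (ω ∩ HL κ y t) := fun ω h9 => by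
      rw [Cr_local] at h9 ⊢
      rwa [inter_assoc, inter_eq_right.2 sy]
    set T : ℝ := ((ρ : ℝ) / t) ^ (1 / 3 : ℝ) with hT
    have hT0 : 0 ≤ T := by positivity
    have key : Pr E (fun ω => Tch E z ρ R ω ∧ Tch E y ρ R ω) ≤
        (C2 * T) * (C2 * T) * (C2 * (2 * ((D : ℝ) / R) ^ (1 / 3 : ℝ))) := by
      rcases lt_or_ge (2 * D) R with h6 | h6
      · have hd2 : Disjoint (HL κ z t ∪ HL κ y t) (AL κ z (2 * D) R) :=
          HL_AL_disj hκ (by omega) (by omega)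
        have hi := Pr_indep sH sA hd2 (fun ω => Cr κ z ρ t (ω ∩ HL κ z t) ∧
          Cr κ y ρ t (ω ∩ HL κ y t)) (Cr κ z (2 * D) R)
        rw [e1] at hi
        have a3 := hcr κ hκ z (2 * D) R (by omega) (by omega) _ (subset_refl (AL κ z (2 * D) R))
        have b3 : ((2 * D : ℤ) : ℝ) / R = 2 * ((D : ℝ) / R) := by push_cast; ring
        have c3 : ((2 * D : ℤ) / (R : ℝ)) ^ (1 / 3 : ℝ) ≤ 2 * ((D : ℝ) / R) ^ (1 / 3 : ℝ) := by
          rw [b3, Real.mul_rpow (by norm_num) (by positivity)]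
          refine mul_le_mul_of_nonneg_right ?_ (by positivity)
          calc (2 : ℝ) ^ (1 / 3 : ℝ) ≤ 2 ^ (1 : ℝ) :=
                Real.rpow_le_rpow_of_exponent_le (by norm_num) (by norm_num)
            _ = 2 := Real.rpow_one 2
        have d3 : Pr (AL κ z (2 * D) R) (Cr κ z (2 * D) R) ≤
            C2 * (2 * ((D : ℝ) / R) ^ (1 / 3 : ℝ)) :=
          a3.trans (mul_le_mul_of_nonneg_left c3 (by linarith))
        have inc1 : Inc (fun ω => ((Cr κ z ρ t (ω ∩ (HL κ z t ∪ HL κ y t) ∩ HL κ z t)) ∧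
            Cr κ y ρ t (ω ∩ (HL κ z t ∪ HL κ y t) ∩ HL κ y t)) ∧
            Cr κ z (2 * D) R (ω ∩ AL κ z (2 * D) R)) := by
          rintro ω ω' hs ⟨⟨g1, g2⟩, g3⟩
          exact ⟨⟨Cr_inc _ _ (inter_subset_inter_right (inter_subset_inter_right hs)) g1,
            Cr_inc _ _ (inter_subset_inter_right (inter_subset_inter_right hs)) g2⟩,
            Cr_inc _ _ (inter_subset_inter_right hs) g3⟩
        calc Pr E (fun ω => Tch E z ρ R ω ∧ Tch E y ρ R ω)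
            ≤ Pr E (fun ω => ((Cr κ z ρ t (ω ∩ (HL κ z t ∪ HL κ y t) ∩ HL κ z t)) ∧
              Cr κ y ρ t (ω ∩ (HL κ z t ∪ HL κ y t) ∩ HL κ y t)) ∧
              Cr κ z (2 * D) R (ω ∩ AL κ z (2 * D) R)) := by
              refine Pr_mono fun ω hω hh => ?_
              have g1 := (hh.1.mono_R (t := t) (by omega)).cr hE (by omega) ht3
              have g2 := (hh.2.mono_R (t := t) (by omega)).cr hyE (by omega) ht3
              have g3 : Cr κ z (2 * D) R (ω ∩ E) := by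
                refine Tch.cr (E := E) hE (by omega) h6 ?_
                obtain ⟨u, v, hu, hv, h9⟩ := hh.1
                refine ⟨u, v, ?_, hv, h9⟩
                unfold Near at hu ⊢
                omega
              rw [inter_eq_left.2 hω] at g1 g2 g3
              refine ⟨⟨?_, ?_⟩, Cr_local.1 g3⟩
              · rw [inter_assoc, inter_eq_right.2 (subset_union_left (s₂ := HL κ y t))]
                exact locx ω g1
              · rw [inter_assoc, inter_eq_right.2 (subset_union_right (s₁ := HL κ z t))]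
                exact locy ω g2
          _ ≤ Pr F (fun ω => ((Cr κ z ρ t (ω ∩ (HL κ z t ∪ HL κ y t) ∩ HL κ z t)) ∧
              Cr κ y ρ t (ω ∩ (HL κ z t ∪ HL κ y t) ∩ HL κ y t)) ∧
              Cr κ z (2 * D) R (ω ∩ AL κ z (2 * D) R)) := Pr_inc sE inc1
          _ = _ := hi
          _ ≤ _ := mul_le_mul (mul_le_mul a1 a2 (P0 _ _) (by positivity)) d3 (P0 _ _)
              (by positivity)
      · have h7 : (1 : ℝ) ≤ C2 * (2 * ((D : ℝ) / R) ^ (1 / 3 : ℝ)) := by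
          have e2 : (1 / 2 : ℝ) ≤ (D : ℝ) / R := by
            rw [le_div_iff₀ hR0]
            have : (R : ℝ) ≤ 2 * D := by exact_mod_cast h6
            linarith
          have e3 : (1 / 2 : ℝ) ≤ ((D : ℝ) / R) ^ (1 / 3 : ℝ) := by
            have e4 : (1 / 2 : ℝ) ^ (1 / 3 : ℝ) ≤ ((D : ℝ) / R) ^ (1 / 3 : ℝ) :=
              Real.rpow_le_rpow (by norm_num) e2 (by norm_num)
            have e5 : (1 / 2 : ℝ) ^ (1 : ℝ) ≤ (1 / 2 : ℝ) ^ (1 / 3 : ℝ) :=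
              Real.rpow_le_rpow_of_exponent_ge (by norm_num) (by norm_num) (by norm_num)
            rw [Real.rpow_one] at e5
            linarith
          nlinarith
        have inc1 : Inc (fun ω => (Cr κ z ρ t (ω ∩ (HL κ z t ∪ HL κ y t) ∩ HL κ z t)) ∧
            Cr κ y ρ t (ω ∩ (HL κ z t ∪ HL κ y t) ∩ HL κ y t)) := by
          rintro ω ω' hs ⟨g1, g2⟩
          exact ⟨Cr_inc _ _ (inter_subset_inter_right (inter_subset_inter_right hs)) g1,
            Cr_inc _ _ (inter_subset_inter_right (inter_subset_inter_right hs)) g2⟩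
        calc Pr E (fun ω => Tch E z ρ R ω ∧ Tch E y ρ R ω)
            ≤ Pr E (fun ω => (Cr κ z ρ t (ω ∩ (HL κ z t ∪ HL κ y t) ∩ HL κ z t)) ∧
              Cr κ y ρ t (ω ∩ (HL κ z t ∪ HL κ y t) ∩ HL κ y t)) := by
              refine Pr_mono fun ω hω hh => ?_
              have g1 := (hh.1.mono_R (t := t) (by omega)).cr hE (by omega) ht3
              have g2 := (hh.2.mono_R (t := t) (by omega)).cr hyE (by omega) ht3
              rw [inter_eq_left.2 hω] at g1 g2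
              refine ⟨?_, ?_⟩
              · rw [inter_assoc, inter_eq_right.2 (subset_union_left (s₂ := HL κ y t))]
                exact locx ω g1
              · rw [inter_assoc, inter_eq_right.2 (subset_union_right (s₁ := HL κ z t))]
                exact locy ω g2
          _ ≤ Pr F (fun ω => (Cr κ z ρ t (ω ∩ (HL κ z t ∪ HL κ y t) ∩ HL κ z t)) ∧
              Cr κ y ρ t (ω ∩ (HL κ z t ∪ HL κ y t) ∩ HL κ y t)) := Pr_inc sE inc1
          _ = Pr (HL κ z t ∪ HL κ y t) (fun ω => Cr κ z ρ t (ω ∩ HL κ z t) ∧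
              Cr κ y ρ t (ω ∩ HL κ y t)) := Pr_restrict sH (fun ω => Cr κ z ρ t (ω ∩ HL κ z t) ∧
              Cr κ y ρ t (ω ∩ HL κ y t))
          _ = Pr (HL κ z t) (Cr κ z ρ t) * Pr (HL κ y t) (Cr κ y ρ t) := e1
          _ ≤ (C2 * T) * (C2 * T) := mul_le_mul a1 a2 (P0 _ _) (by positivity)
          _ ≤ _ := by
              have : 0 ≤ (C2 * T) * (C2 * T) := by positivity
              nlinarith
    refine key.trans ?_
    -- T ≤ 4^(1/3) (ρ/D)^(1/3), T² (D/R)^(1/3) ≤ ...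
    have hTD : T ≤ ((4 : ℝ) * (ρ / D)) ^ (1 / 3 : ℝ) := by
      rw [hT]
      refine Real.rpow_le_rpow (by positivity) ?_ (by norm_num)
      rw [← mul_div_assoc, div_le_div_iff₀ ht0 hD0]
      nlinarith
    have hTD2 : T ^ 2 ≤ 4 * (((ρ : ℝ) / D) ^ (1 / 3 : ℝ) * ((ρ : ℝ) / D) ^ (1 / 3 : ℝ)) := by
      have e1 : ((4 : ℝ) * (ρ / D)) ^ (1 / 3 : ℝ) =
          4 ^ (1 / 3 : ℝ) * ((ρ : ℝ) / D) ^ (1 / 3 : ℝ) :=
        Real.mul_rpow (by norm_num) (by positivity)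
      rw [e1] at hTD
      have e2 : (4 : ℝ) ^ (1 / 3 : ℝ) ≤ 2 := by
        calc (4 : ℝ) ^ (1 / 3 : ℝ) ≤ 4 ^ (1 / 2 : ℝ) :=
              Real.rpow_le_rpow_of_exponent_le (by norm_num) (by norm_num)
          _ = 2 := by
              rw [show (4 : ℝ) = 2 ^ (2 : ℝ) by norm_num, ← Real.rpow_mul (by norm_num)]
              norm_num
      have e3 : T ≤ 2 * ((ρ : ℝ) / D) ^ (1 / 3 : ℝ) :=
        hTD.trans (mul_le_mul_of_nonneg_right e2 hX0.le)
      nlinarith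
    have hsplit : ((ρ : ℝ) / D) ^ (1 / 3 : ℝ) * ((D : ℝ) / R) ^ (1 / 3 : ℝ) =
        ((ρ : ℝ) / R) ^ (1 / 3 : ℝ) := by
      rw [← Real.mul_rpow (by positivity) (by positivity)]
      congr 1
      field_simp
    set X : ℝ := ((ρ : ℝ) / D) ^ (1 / 3 : ℝ) with hX
    set Z : ℝ := ((D : ℝ) / R) ^ (1 / 3 : ℝ) with hZ
    have hZ0 : 0 ≤ Z := by positivity
    rw [← hsplit]
    calc (C2 * T) * (C2 * T) * (C2 * (2 * Z)) = 2 * C2 ^ 3 * (T ^ 2 * Z) := by ring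
      _ ≤ 2 * C2 ^ 3 * (4 * (X * X) * Z) := by gcongr
      _ = 1 * (8 * C2 ^ 3 * (X * (X * Z))) := by ring
      _ ≤ C * (8 * C2 ^ 3 * (X * (X * Z))) := mul_le_mul_of_nonneg_right hC (by positivity)
      _ = _ := by ring

end Pool.Agent.H51.W
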