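import Mathlib
import Pool.Agent.H51.W.Blk
import Pool.Agent.H51.W.Two

set_option autoImplicit false
open Finset

/-! # Route W, W-D, D3: the two point hypothesis of `Touch` for plates along a wall

Plates with centres `wp κ z0 (i N)`, `i < n`, `n N ≤ R`; every touching event `A i` implies
`Tch E (wp κ z0 (i N)) (4 N) R`. `touch_mk` gives `Touch` from the one point lower bound.
`Touch.map` : transport to a bigger space of bits. -/

namespace Pool.Agent.H51.W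

open Pool.Agent.H75.Perc Pool.Agent.H75.TwoArm Pool.Agent.H75.Four Pool.Agent.H49.Perc
open Pool.Agent.H69.NC Pool.Agent.H99.NC Pool.Agent.H60.Q1 Pool.Agent.H20.Q1 Pool.Agent.H59.Q1
open Pool.Agent.Q1.M6e

variable {κ : ℤ} {x y z : ℤ × ℤ} {ρ R D s t : ℤ} {E ω : Finset (ℤ × ℤ)}

lemma Tch.mono_rho (h : Tch E z ρ R ω) (ht : ρ ≤ t) : Tch E z t R ω := by
  obtain ⟨u, v, hu, hv, h1⟩ := h
  refine ⟨u, v, ?_, hv, h1⟩
  unfold Near at hu ⊢
  omega

lemma rpow_third_le {a b : ℝ} (ha : 0 < a) (h : a ≤ 8 * b) :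
    b ^ (-(1 / 3) : ℝ) ≤ 2 * a ^ (-(1 / 3) : ℝ) := by
  have hb : 0 < b := by linarith
  have h1 : (8 * b) ^ (-(1 / 3) : ℝ) ≤ a ^ (-(1 / 3) : ℝ) :=
    Real.rpow_le_rpow_of_nonpos ha h (by norm_num)
  have h2 : (8 * b) ^ (-(1 / 3) : ℝ) = 1 / 2 * b ^ (-(1 / 3) : ℝ) := by
    rw [Real.mul_rpow (by norm_num) hb.le]
    congr 1
    rw [show (8 : ℝ) = 2 ^ (3 : ℝ) by norm_num, ← Real.rpow_mul (by norm_num)]
    rw [show (3 : ℝ) * -(1 / 3) = -1 by norm_num, Real.rpow_neg_one]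
    norm_num
  rw [h2] at h1
  linarith

lemma div_rpow_third {a b : ℝ} (ha : 0 < a) (hb : 0 < b) :
    (a / b) ^ (1 / 3 : ℝ) = (b / a) ^ (-(1 / 3) : ℝ) := by
  rw [Real.rpow_neg (by positivity), ← Real.inv_rpow (by positivity), inv_div]

/-- **two plates** -/
theorem touch_two : ∃ M : ℝ, 1 ≤ M ∧ ∀ κ : ℤ, (κ = 0 ∨ κ = 1) → ∀ (z0 : ℤ × ℤ) (N R : ℤ) (n : ℕ),
    1 ≤ N → (n : ℤ) * N ≤ R → ∀ E : Finset (ℤ × ℤ), Abv κ z0 E → ∀ i j : ℕ, i < n → j < n →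
    Pr E (fun ω => Tch E (wp κ z0 (i * N)) (4 * N) R ω ∧ Tch E (wp κ z0 (j * N)) (4 * N) R ω) ≤
      M * ((Nat.dist i j : ℝ) + 1) ^ (-(1 / 3) : ℝ) * (n : ℝ) ^ (-(1 / 3) : ℝ) := by
  obtain ⟨C1, hC1, h1⟩ := tch_le
  obtain ⟨C2, hC2, h2⟩ := tch_two
  refine ⟨8 * (C1 + C2), by linarith, ?_⟩
  intro κ hκ z0 N R n hN hnR E hE
  have key : ∀ i j : ℕ, i ≤ j → j < n → Pr E (fun ω => Tch E (wp κ z0 (i * N)) (4 * N) R ω ∧
      Tch E (wp κ z0 (j * N)) (4 * N) R ω) ≤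
      8 * (C1 + C2) * ((Nat.dist i j : ℝ) + 1) ^ (-(1 / 3) : ℝ) * (n : ℝ) ^ (-(1 / 3) : ℝ) := by
    intro i j hij hj
    have hn : 1 ≤ n := by omega
    have hn0 : (0 : ℝ) < n := by exact_mod_cast hn
    have hN0 : (1 : ℝ) ≤ N := by exact_mod_cast hN
    have hR1 : 1 ≤ R := by
      have : (1 : ℤ) ≤ n := by exact_mod_cast hn
      nlinarith
    have hR0 : (0 : ℝ) < R := by exact_mod_cast (by omega : (0 : ℤ) < R)
    have hnR' : (n : ℝ) * N ≤ R := by exact_mod_cast hnR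
    have hEi : Abv κ (wp κ z0 (i * N)) E := hE.wp
    have hX : (0 : ℝ) < (n : ℝ) ^ (-(1 / 3) : ℝ) := by positivity
    have hone : (((4 * N : ℤ) : ℝ) / R) ^ (1 / 3 : ℝ) ≤ 2 * (n : ℝ) ^ (-(1 / 3) : ℝ) := by
      rw [div_rpow_third (by push_cast; linarith) hR0]
      refine rpow_third_le hn0 ?_
      push_cast
      rw [← mul_div_assoc, le_div_iff₀ (by linarith)]
      nlinarith
    rw [Nat.dist_eq_sub_of_le hij]
    obtain ⟨d, rfl⟩ := Nat.exists_eq_add_of_le hij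
    rw [Nat.add_sub_cancel_left]
    have hY : (0 : ℝ) < ((d : ℝ) + 1) ^ (-(1 / 3) : ℝ) := by positivity
    rcases lt_or_ge d 4 with h4 | h4
    · have e1 : Pr E (fun ω => Tch E (wp κ z0 (i * N)) (4 * N) R ω ∧
          Tch E (wp κ z0 ((i + d : ℕ) * N)) (4 * N) R ω) ≤ C1 * (2 * (n : ℝ) ^ (-(1 / 3) : ℝ)) := by
        refine le_trans (Pr_mono fun ω _ h => h.1) ?_
        exact (h1 κ hκ _ (4 * N) R (by omega) hR1 E hEi).trans
          (mul_le_mul_of_nonneg_left hone (by linarith))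
      have e2 : (1 : ℝ) ≤ 2 * ((d : ℝ) + 1) ^ (-(1 / 3) : ℝ) := by
        have h5 := rpow_third_le (a := (d : ℝ) + 1) (b := 1) (by positivity) (by
          have : (d : ℝ) < 4 := by exact_mod_cast h4
          linarith)
        rwa [Real.one_rpow] at h5
      calc _ ≤ C1 * (2 * (n : ℝ) ^ (-(1 / 3) : ℝ)) := e1
        _ ≤ C1 * (2 * (n : ℝ) ^ (-(1 / 3) : ℝ)) * (2 * ((d : ℝ) + 1) ^ (-(1 / 3) : ℝ)) :=
            le_mul_of_one_le_right (by positivity) e2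
        _ = 4 * C1 * (((d : ℝ) + 1) ^ (-(1 / 3) : ℝ) * (n : ℝ) ^ (-(1 / 3) : ℝ)) := by ring
        _ ≤ 8 * (C1 + C2) * (((d : ℝ) + 1) ^ (-(1 / 3) : ℝ) * (n : ℝ) ^ (-(1 / 3) : ℝ)) :=
            mul_le_mul_of_nonneg_right (by linarith) (by positivity)
        _ = _ := by ring
    · have hd0 : (0 : ℝ) < d := by exact_mod_cast (by omega : 0 < d)
      have hw : wp κ z0 ((i + d : ℕ) * N) = wp κ (wp κ z0 (i * N)) (d * N) := by
        unfold wp
        ext <;> · push_cast; ring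
      rw [hw]
      have hdn : (d : ℤ) < n := by exact_mod_cast (by omega : d < n)
      have g1 : 4 * N ≤ d * N := by
        have : (4 : ℤ) ≤ d := by exact_mod_cast h4
        nlinarith
      have g2 : d * N ≤ R := by nlinarith
      have e1 := h2 κ hκ (wp κ z0 (i * N)) (4 * N) R (d * N) (by omega) g1 g2 E hEi
      have e2 : (((4 * N : ℤ) : ℝ) / ((d * N : ℤ) : ℝ)) ^ (1 / 3 : ℝ) ≤
          4 * ((d : ℝ) + 1) ^ (-(1 / 3) : ℝ) := by
        rw [div_rpow_third (by push_cast; linarith) (by push_cast; positivity)]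
        have e3 := rpow_third_le (a := (d : ℝ)) (b := ((d * N : ℤ) : ℝ) / ((4 * N : ℤ) : ℝ)) hd0 (by
          push_cast
          rw [← mul_div_assoc, le_div_iff₀ (by linarith)]
          nlinarith)
        have e4 := rpow_third_le (a := (d : ℝ) + 1) (b := (d : ℝ)) (by positivity) (by
          have : (4 : ℝ) ≤ d := by exact_mod_cast h4
          linarith)
        linarith
      calc _ ≤ C2 * ((((4 * N : ℤ) : ℝ) / ((d * N : ℤ) : ℝ)) ^ (1 / 3 : ℝ) *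
            (((4 * N : ℤ) : ℝ) / R) ^ (1 / 3 : ℝ)) := e1
        _ ≤ C2 * ((4 * ((d : ℝ) + 1) ^ (-(1 / 3) : ℝ)) * (2 * (n : ℝ) ^ (-(1 / 3) : ℝ))) := by
            refine mul_le_mul_of_nonneg_left ?_ (by linarith)
            exact mul_le_mul e2 hone (by positivity) (by positivity)
        _ = 8 * C2 * (((d : ℝ) + 1) ^ (-(1 / 3) : ℝ) * (n : ℝ) ^ (-(1 / 3) : ℝ)) := by ring
        _ ≤ 8 * (C1 + C2) * (((d : ℝ) + 1) ^ (-(1 / 3) : ℝ) * (n : ℝ) ^ (-(1 / 3) : ℝ)) :=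
            mul_le_mul_of_nonneg_right (by linarith) (by positivity)
        _ = _ := by ring
  intro i j hi hj
  rcases le_total i j with h | h
  · exact key i j h hj
  · have := key j i h hi
    rw [Nat.dist_comm]
    refine le_trans (Pr_mono fun ω _ hh => ⟨hh.2, hh.1⟩) this

/-- **`Touch` from the one point lower bound** -/
theorem touch_mk : ∃ M : ℝ, 1 ≤ M ∧ ∀ κ : ℤ, (κ = 0 ∨ κ = 1) → ∀ (z0 : ℤ × ℤ) (N R : ℤ) (n : ℕ),
    1 ≤ N → (n : ℤ) * N ≤ R → ∀ E : Finset (ℤ × ℤ), Abv κ z0 E → ∀ q : ℤ × ℤ → ℝ,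
    (∀ e ∈ E, q e = 1 / 2) → ∀ (a : ℝ) (A : ℕ → Finset (ℤ × ℤ) → Prop), (∀ i, Inc (A i)) →
    (∀ i, i < n → a * (n : ℝ) ^ (-(1 / 3) : ℝ) ≤ Pr E (A i)) →
    (∀ i, i < n → ∀ ω, ω ⊆ E → A i ω → Tch E (wp κ z0 (i * N)) (4 * N) R ω) →
    Touch q E a M n A := by
  obtain ⟨M, hM, h⟩ := touch_two
  refine ⟨M, hM, fun κ hκ z0 N R n hN hnR E hE q hq a A hinc hlow hT => ⟨hinc, fun i hi => ?_,
    fun i j hi hj => ?_⟩⟩
  · rw [PQ_half hq]; exact hlow i hi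
  · rw [PQ_half hq]
    refine le_trans (Pr_mono (B := fun ω => Tch E (wp κ z0 (i * N)) (4 * N) R ω ∧
      Tch E (wp κ z0 (j * N)) (4 * N) R ω)
      fun ω hω hh => ⟨hT i hi ω hω hh.1, hT j hj ω hω hh.2⟩) ?_
    exact h κ hκ z0 N R n hN hnR E hE i j hi hj

/-- transport along an embedding of the bits -/
theorem Touch.map {α β : Type*} [DecidableEq α] [DecidableEq β] {q : β → ℝ} (f : α ↪ β)
    {E : Finset α} {a M : ℝ} {n : ℕ} {A : ℕ → Finset α → Prop} {B : ℕ → Finset β → Prop}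
    (h : Touch (fun x => q (f x)) E a M n A) (hB : ∀ i, Inc (B i))
    (hAB : ∀ i, i < n → ∀ ω, ω ⊆ E → (B i (ω.map f) ↔ A i ω)) : Touch q (E.map f) a M n B := by
  refine ⟨hB, fun i hi => ?_, fun i j hi hj => ?_⟩
  · rw [PQ_map]
    refine (h.low i hi).trans (le_of_eq ?_)
    exact PQ_congr fun ω hω => (hAB i hi ω hω).symm
  · rw [PQ_map]
    refine (le_of_eq ?_).trans (h.two i j hi hj)
    exact PQ_congr fun ω hω => and_congr (hAB i hi ω hω) (hAB j hj ω hω)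

end Pool.Agent.H51.W
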