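import Mathlib
import Pool.Agent.H51.W.TouchMk

set_option autoImplicit false
open Finset

/-! # Route W, W-D, D3: the one point lower bound for the bank of a plate

`Cr_ge` : `P(Cr κ z ρ R) ≥ c (ρ/R)^(1/3)`.
`Bnk E z L R` : a vertex of the wall segment of half length `L` round `z` is connected to distance `R`
of `z` by labels of `E`. `bnk_ge` : if `E` contains the half box of radius `L` above the segment and
everything above the level `ht z + τ`, `16 τ ≤ L`, then `P(Bnk) ≥ c (L/R)^(1/3)`. -/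

namespace Pool.Agent.H51.W

open Pool.Agent.H75.Perc Pool.Agent.H75.TwoArm Pool.Agent.H75.Four Pool.Agent.H49.Perc
open Pool.Agent.H69.NC Pool.Agent.H99.NC Pool.Agent.H60.Q1 Pool.Agent.H20.Q1 Pool.Agent.H59.Q1
open Pool.Agent.Q1.M6e

variable {κ : ℤ} {x y z z' : ℤ × ℤ} {ρ R D s t L τ : ℤ} {E ω : Finset (ℤ × ℤ)}

/-- **crossings of half annuli, lower bound** -/
theorem Cr_ge : ∃ c : ℝ, 0 < c ∧ c ≤ 1 ∧ ∀ κ : ℤ, (κ = 0 ∨ κ = 1) → ∀ (z : ℤ × ℤ) (ρ R : ℤ), 1 ≤ ρ →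
    ρ ≤ R → ∀ E : Finset (ℤ × ℤ), AL κ z ρ R ⊆ E →
    c * ((ρ : ℝ) / R) ^ (1 / 3 : ℝ) ≤ Pr E (Cr κ z ρ R) := by
  obtain ⟨c1, C1, hc1, hc11, hC1, ha⟩ := a1_bd
  refine ⟨c1 / C1, by positivity, by rw [div_le_one (by linarith)]; linarith,
    fun κ hκ z ρ R hρ hρR E hE => ?_⟩
  have hρ' : (1 : ℝ) ≤ ρ := by exact_mod_cast hρ
  have hR' : (ρ : ℝ) ≤ R := by exact_mod_cast hρR
  have hR0 : (0 : ℝ) < R := by linarith
  have hloc : ∀ F : Finset (ℤ × ℤ), AL κ z ρ R ⊆ F → Pr F (Cr κ z ρ R) =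
      Pr (AL κ z ρ R) (Cr κ z ρ R) := fun F hF => by
    rw [← Pr_restrict hF (Cr κ z ρ R)]
    exact Pr_congr fun ω _ => Cr_local
  rcases hρR.lt_or_eq with h6 | h6
  swap
  · have h1 : Pr E (Cr κ z ρ R) = 1 := by
      rw [← Pr_true E]
      refine Pr_congr fun ω _ => ⟨fun _ => trivial, fun _ => ?_⟩
      refine ⟨(z.1 + R, z.2), (z.1 + R, z.2), ?_, ?_, Co.refl _ _⟩
      · unfold Near
        rw [h6, add_sub_cancel_left, sub_self, abs_zero, abs_of_nonneg (by omega)]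
        omega
      · unfold Far
        rw [add_sub_cancel_left, abs_of_nonneg (by omega)]
        omega
    rw [h1]
    have h2 : ((ρ : ℝ) / R) ^ (1 / 3 : ℝ) = 1 := by
      rw [h6, div_self hR0.ne', Real.one_rpow]
    rw [h2, mul_one, div_le_one (by linarith)]
    linarith
  rw [hloc E hE]
  set F := HL κ z R with hFd
  have h3 : Pr F (W1 κ z R) = a1 κ R := Pr_W1 (subset_refl _)
  have sH : HL κ z ρ ⊆ F := HL_mono (by omega)
  have sA : AL κ z ρ R ⊆ F := AL_sub_HL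
  have hd : Disjoint (HL κ z ρ) (AL κ z ρ R) := by
    rw [disjoint_left]
    intro l h1 h2
    exact (mem_AL.1 h2).2 (mem_HL.1 h1).1
  have h4 := Pr_indep sH sA hd (W1 κ z ρ) (Cr κ z ρ R)
  have h5 : Pr F (W1 κ z R) ≤ Pr F (fun ω => W1 κ z ρ (ω ∩ HL κ z ρ) ∧
      Cr κ z ρ R (ω ∩ AL κ z ρ R)) := by
    refine Pr_mono fun ω _ h => ?_
    obtain ⟨u, v, g1, g2, g3, -⟩ := arm_split (ρ := ρ) (by omega) h6 h
    exact ⟨W1_local.1 (W1_mono hρ (by omega) h), Cr_local.1 ⟨u, v, g1, g2, g3⟩⟩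
  rw [h4, h3, Pr_W1 (subset_refl _)] at h5
  have g1 := (ha κ hκ ρ hρ).2
  have g2 := (ha κ hκ R (by omega)).1
  set X := Pr (AL κ z ρ R) (Cr κ z ρ R) with hX
  have hX0 : 0 ≤ X := Pr_nonneg _ _
  have hA : 0 < (ρ : ℝ) ^ (-(1 / 3) : ℝ) := by positivity
  have hB : 0 < (R : ℝ) ^ (-(1 / 3) : ℝ) := by positivity
  have e1 : ((ρ : ℝ) / R) ^ (1 / 3 : ℝ) =
      (R : ℝ) ^ (-(1 / 3) : ℝ) / (ρ : ℝ) ^ (-(1 / 3) : ℝ) := by
    rw [Real.rpow_neg (by positivity), Real.rpow_neg (by positivity), Real.div_rpow (by positivity)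
      (by positivity)]
    field_simp
  rw [e1, div_mul_div_comm, div_le_iff₀ (by positivity)]
  have g3 : c1 * (R : ℝ) ^ (-(1 / 3) : ℝ) ≤ C1 * (ρ : ℝ) ^ (-(1 / 3) : ℝ) * X :=
    g2.trans (h5.trans (mul_le_mul_of_nonneg_right g1 hX0))
  linarith

/-- a vertex of the wall segment of half length `L` round `z` is connected to distance `R` -/
def Bnk (κ : ℤ) (E : Finset (ℤ × ℤ)) (z : ℤ × ℤ) (L R : ℤ) (ω : Finset (ℤ × ℤ)) : Prop :=
  ∃ u v, (ht κ u = ht κ z ∧ |u.1 - z.1| ≤ L) ∧ Far z R v ∧ Co (ω ∩ E) u v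

lemma Bnk_inc : Inc (Bnk κ E z L R) := by
  rintro ω ω' h ⟨u, v, h1, h2, h3⟩
  exact ⟨u, v, h1, h2, h3.mono (inter_subset_inter_right h)⟩

lemma bnk_near (hκ : κ = 0 ∨ κ = 1) {u : ℤ × ℤ} (h : ht κ u = ht κ z ∧ |u.1 - z.1| ≤ L) :
    Near z L u := by
  unfold ht at h
  unfold Near
  rw [abs_le] at h
  rw [abs_le, abs_le]
  rcases hκ with rfl | rfl
  · simp only [zero_mul, add_zero] at h; omega
  · simp only [one_mul] at h; omega

/-- gluing: a half ring with both ends on the bank and a crossing -/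
lemma bnk_glue (hκ : κ = 0 ∨ κ = 1) (hρ : 1 ≤ ρ) (hρL : ρ < t) (hLR : t ≤ R)
    (h1 : RO κ z ρ t L ω) (h2 : AL κ z ρ t ⊆ E)
    {u v : ℤ × ℤ} (hu : Near z ρ u) (hv : Far z R v) {F : Finset (ℤ × ℤ)}
    (hF : ∀ l ∈ F, (l.1 + l.2) % 2 = 1 ∧ 2 * ht κ z ≤ ht κ l) (hFE : F ⊆ E)
    (h3 : Co (ω ∩ F) u v) : Bnk κ E z L R ω := by
  obtain ⟨p, p', hp, hp', hpL, hpL', h6⟩ := h1
  obtain ⟨u', hu', h4⟩ := last_exit (w := z) (c := ρ) h3 (near_inR.1 hu)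
    (far_not_inR (by omega) hv)
  have hu'' : Near z ρ u' := near_inR.2 hu'
  obtain ⟨v', hv', h5⟩ := open_exit (o := z) (M := t) h4 (by
    unfold Near at hu''
    omega) (by
    unfold Far at hv
    omega)
  have h7 : Co (ω ∩ AL κ z ρ t) u' v' := by
    refine h5.mono ?_
    intro l hl
    obtain ⟨g1, g2⟩ := mem_inter.1 hl
    obtain ⟨g3, g4⟩ := mem_sdiff.1 g1
    obtain ⟨g6, g7⟩ := mem_inter.1 g3
    refine mem_inter.2 ⟨g6, ?_⟩
    have g5 := hF l g7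
    unfold BR at g4
    rw [mem_Bx] at g2 g4
    rw [mem_AL]
    unfold ht at g5
    omega
  have h8 := ring_meet hκ hρ hρL hp hp' h6 hu'' hv' h7
  refine ⟨p, v, ⟨hp.1, hpL⟩, hv, ?_⟩
  have s1 : ω ∩ AL κ z ρ t ⊆ ω ∩ E := inter_subset_inter_left h2
  have s2 : (ω ∩ F) \ BR z ρ ⊆ ω ∩ E := sdiff_subset.trans (inter_subset_inter_left hFE)
  exact (h8.mono s1).symm.trans (h4.mono s2)

/-- **the one point lower bound for the bank of a plate** -/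
theorem bnk_ge : ∃ c : ℝ, 0 < c ∧ ∀ κ : ℤ, (κ = 0 ∨ κ = 1) → ∀ (z : ℤ × ℤ) (L R τ : ℤ), 32 ≤ L →
    0 ≤ τ → 16 * τ ≤ L → L ≤ R → ∀ E : Finset (ℤ × ℤ), (∀ l ∈ E, (l.1 + l.2) % 2 = 1) →
    HL κ z L ⊆ E → HL κ (z.1, z.2 + τ) (R + τ) ⊆ E →
    c * ((L : ℝ) / R) ^ (1 / 3 : ℝ) ≤ Pr E (Bnk κ E z L R) := by
  obtain ⟨c1, hc1, hc11, hcr⟩ := Cr_ge
  obtain ⟨c, hc, hring⟩ := RO_prob
  refine ⟨c * (c1 / 4), by positivity, fun κ hκ z L R τ hL hτ hτL hLR E hodd hE1 hE2 => ?_⟩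
  set z' : ℤ × ℤ := (z.1, z.2 + τ) with hz'
  set ρ : ℤ := L / 8 with hρd
  set ρ' : ℤ := L / 16 with hρd'
  have hρ1 : 4 ≤ ρ := by omega
  have hρ2 : 2 ≤ ρ' := by omega
  have hL' : (32 : ℝ) ≤ L := by exact_mod_cast hL
  have hR' : (L : ℝ) ≤ R := by exact_mod_cast hLR
  have hR0 : (0 : ℝ) < R := by linarith
  have sA : AL κ z ρ L ⊆ E := AL_sub_HL.trans hE1
  have sB : AL κ z' ρ' (R + τ) ⊆ E := AL_sub_HL.trans hE2
  have h1 : c ≤ Pr E (RO κ z ρ L (3 * (ρ + 1))) := by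
    rw [← hf_Pr]
    exact hring hf hf_Qh κ hκ z ρ L (ρ + 1) E (by omega) (by omega) (by omega) sA
  have h2 : c1 * (((ρ' : ℤ) : ℝ) / ((R + τ : ℤ) : ℝ)) ^ (1 / 3 : ℝ) ≤
      Pr E (Cr κ z' ρ' (R + τ)) := hcr κ hκ z' ρ' (R + τ) (by omega) (by omega) E sB
  have h3 : 1 / 4 * ((L : ℝ) / R) ^ (1 / 3 : ℝ) ≤
      (((ρ' : ℤ) : ℝ) / ((R + τ : ℤ) : ℝ)) ^ (1 / 3 : ℝ) := by
    have e1 : (1 / 4 : ℝ) = (1 / 64) ^ (1 / 3 : ℝ) := by
      rw [show (1 / 64 : ℝ) = (1 / 4) ^ (3 : ℝ) by norm_num, ← Real.rpow_mul (by norm_num)]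
      norm_num
    rw [e1, ← Real.mul_rpow (by norm_num) (by positivity)]
    refine Real.rpow_le_rpow (by positivity) ?_ (by norm_num)
    have e2 : (L : ℝ) / 32 ≤ ρ' := by
      have : L ≤ 32 * ρ' := by omega
      have : (L : ℝ) ≤ 32 * ρ' := by exact_mod_cast this
      linarith
    have e3 : ((R + τ : ℤ) : ℝ) ≤ 2 * R := by
      have : R + τ ≤ 2 * R := by omega
      exact_mod_cast this
    have e4 : (0 : ℝ) < ((R + τ : ℤ) : ℝ) := by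
      have : 0 < R + τ := by omega
      exact_mod_cast this
    rw [le_div_iff₀ e4]
    calc 1 / 64 * ((L : ℝ) / R) * ((R + τ : ℤ) : ℝ) ≤ 1 / 64 * ((L : ℝ) / R) * (2 * R) :=
          mul_le_mul_of_nonneg_left e3 (by positivity)
      _ = L / 32 := by field_simp; ring
      _ ≤ _ := e2
  have h4 := Pr_harris E (RO_inc (κ := κ) (z := z) (ρ := ρ) (R := L) (M := 3 * (ρ + 1)))
    (Cr_inc (κ := κ) (z := z') (ρ := ρ') (R := R + τ))
  have h5 : Pr E (fun ω => RO κ z ρ L (3 * (ρ + 1)) ω ∧ Cr κ z' ρ' (R + τ) ω) ≤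
      Pr E (Bnk κ E z L R) := by
    refine Pr_mono fun ω hω hh => ?_
    obtain ⟨⟨p, p', g1, g2, g3, g4, g5⟩, ⟨u, v, g6, g7, g8⟩⟩ := hh
    refine bnk_glue (F := E ∩ AL κ z' ρ' (R + τ)) hκ (ρ := ρ) (t := L) (by omega) (by omega) hLR
      ⟨p, p', g1, g2, by omega, by omega, g5⟩ sA (u := u) (v := v) ?_ ?_ ?_ inter_subset_left
      (g8.mono ?_)
    · unfold Near at g6 ⊢
      rw [abs_le, abs_le] at g6 ⊢
      simp only [hz'] at g6
      omega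
    · unfold Far at g7 ⊢
      rw [le_abs, le_abs] at g7 ⊢
      simp only [hz'] at g7
      omega
    · intro l hl
      obtain ⟨k1, k2⟩ := mem_inter.1 hl
      refine ⟨hodd l k1, ?_⟩
      rw [mem_AL] at k2
      have k3 := k2.1.2
      simp only [hz'] at k3
      unfold ht
      rcases hκ with rfl | rfl
      · simp only [zero_mul, add_zero] at k3 ⊢; omega
      · simp only [one_mul] at k3 ⊢; omega
    · intro l hl
      obtain ⟨k1, k2⟩ := mem_inter.1 hl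
      exact mem_inter.2 ⟨k1, mem_inter.2 ⟨hω k1, k2⟩⟩
  calc c * (c1 / 4) * ((L : ℝ) / R) ^ (1 / 3 : ℝ)
      = c * (c1 * (1 / 4 * ((L : ℝ) / R) ^ (1 / 3 : ℝ))) := by ring
    _ ≤ Pr E (RO κ z ρ L (3 * (ρ + 1))) * Pr E (Cr κ z' ρ' (R + τ)) := by
        refine mul_le_mul h1 ?_ (by positivity) (Pr_nonneg _ _)
        exact (mul_le_mul_of_nonneg_left h3 hc1.le).trans h2
    _ ≤ _ := h4
    _ ≤ _ := h5

end Pool.Agent.H51.W
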