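import Mathlib
import Pool.Agent.H51.W.Low

set_option autoImplicit false
open Finset

/-! # Route W, W-D, D3: the touching events of plates along a staircase bank

`Arm E v r` : the vertex `v` is connected to distance `r` inside its box of radius `r`, by labels of `E`.
`PlT κ E z L r` : some vertex of the bank (wall segment of half length `L` round `z`) has `Arm`.
`plate_touch` : `Touch` for a row of plates. -/

namespace Pool.Agent.H51.W

open Pool.Agent.H75.Perc Pool.Agent.H75.TwoArm Pool.Agent.H75.Four Pool.Agent.H49.Perc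
open Pool.Agent.H69.NC Pool.Agent.H99.NC Pool.Agent.H60.Q1 Pool.Agent.H20.Q1 Pool.Agent.H59.Q1
open Pool.Agent.Q1.M6e

variable {κ : ℤ} {x y z z' : ℤ × ℤ} {ρ R D s t L τ r N : ℤ} {E ω : Finset (ℤ × ℤ)}

/-- the vertex `v` is connected to distance `r` inside its box of radius `r`, by labels of `E` -/
def Arm (E : Finset (ℤ × ℤ)) (v : ℤ × ℤ) (r : ℤ) (ω : Finset (ℤ × ℤ)) : Prop :=
  ∃ w, Far v r w ∧ Co (ω ∩ E ∩ Bx (v.1 - r) (v.1 + r) (v.2 - r) (v.2 + r)) v w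

lemma Arm_inc {v : ℤ × ℤ} : Inc (Arm E v r) := by
  rintro ω ω' h ⟨w, h1, h2⟩
  exact ⟨w, h1, h2.mono (inter_subset_inter_right (inter_subset_inter_right h))⟩

/-- a vertex of the bank of half length `L` round `z` has an arm of length `r` -/
def PlT (κ : ℤ) (E : Finset (ℤ × ℤ)) (z : ℤ × ℤ) (L r : ℤ) (ω : Finset (ℤ × ℤ)) : Prop :=
  ∃ v, (ht κ v = ht κ z ∧ |v.1 - z.1| ≤ L) ∧ Arm E v r ω

lemma PlT_inc : Inc (PlT κ E z L r) := by
  rintro ω ω' h ⟨v, h1, h2⟩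
  exact ⟨v, h1, Arm_inc _ _ h h2⟩

lemma Bnk.plT (hκ : κ = 0 ∨ κ = 1) (hr : 1 ≤ r) (h : Bnk κ E z L (r + L) ω) :
    PlT κ E z L r ω := by
  obtain ⟨u, v, h1, h2, h3⟩ := h
  have h4 := bnk_near hκ h1
  refine ⟨u, h1, ?_⟩
  have h5 : Far u r v := by
    unfold Far at h2 ⊢
    unfold Near at h4
    rw [le_abs, le_abs] at h2
    rw [abs_le, abs_le] at h4
    rw [le_abs, le_abs]
    omega
  obtain ⟨w, h6, h7⟩ := open_exit (o := u) (M := r) h3
    (by rw [sub_self, sub_self, abs_zero]; omega) (by unfold Far at h5; omega)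
  exact ⟨w, h6, h7⟩

lemma PlT.tch (hκ : κ = 0 ∨ κ = 1) (h : PlT κ E z L r ω) (hz : Near z' N z) (hL : L ≤ N) :
    Tch E z' (4 * N) (r - 2 * N) ω := by
  obtain ⟨v, h1, w, h2, h3⟩ := h
  have h4 := bnk_near hκ h1
  refine ⟨v, w, ?_, ?_, h3.mono inter_subset_left⟩
  · unfold Near at h4 hz ⊢
    rw [abs_le, abs_le] at h4 hz ⊢
    omega
  · unfold Near at h4 hz
    unfold Far at h2 ⊢
    rw [abs_le, abs_le] at h4 hz
    rw [le_abs, le_abs] at h2
    rw [le_abs, le_abs]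
    omega

/-- **`Touch` for a row of plates** with centres `zc i`, `|zc i - wp κ z0 (i N)| ≤ N`, banks of half
length `L`, `32 ≤ L ≤ N ≤ 4 L`, everything above the level `ht (zc i) + τ` is natural, `16 τ ≤ L`. -/
theorem plate_touch : ∃ a : ℝ, 0 < a ∧ ∃ M : ℝ, 1 ≤ M ∧ ∀ κ : ℤ, (κ = 0 ∨ κ = 1) →
    ∀ (z0 : ℤ × ℤ) (N L τ r : ℤ) (n : ℕ), 32 ≤ L → L ≤ N → N ≤ 4 * L → 0 ≤ τ → 16 * τ ≤ L →
    1 ≤ n → ((n : ℤ) + 2) * N ≤ r → r ≤ 512 * (n * N) →
    ∀ E : Finset (ℤ × ℤ), Abv κ z0 E → ∀ q : ℤ × ℤ → ℝ, (∀ e ∈ E, q e = 1 / 2) →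
    ∀ zc : ℕ → ℤ × ℤ, (∀ i, i < n → Near (wp κ z0 (i * N)) N (zc i)) →
    (∀ i, i < n → HL κ (zc i) L ⊆ E) →
    (∀ i, i < n → HL κ ((zc i).1, (zc i).2 + τ) (r + L + τ) ⊆ E) →
    Touch q E a M n (fun i => PlT κ E (zc i) L r) := by
  obtain ⟨c, hc, hb⟩ := bnk_ge
  obtain ⟨M, hM, hm⟩ := touch_mk
  refine ⟨c / 16, by positivity, M, hM, ?_⟩
  intro κ hκ z0 N L τ r n hL hLN hNL hτ hτL hn hnr hrn E hE q hq zc hz hE1 hE2
  have hn0 : (0 : ℝ) < n := by exact_mod_cast hn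
  have hn1 : (1 : ℤ) ≤ n := by exact_mod_cast hn
  have hodd : ∀ l ∈ E, (l.1 + l.2) % 2 = 1 := fun l hl => (hE l hl).1
  have hr1 : N ≤ r := by nlinarith
  refine hm κ hκ z0 N (r - 2 * N) n (by omega) (by nlinarith) E hE q hq (c / 16)
    (fun i => PlT κ E (zc i) L r) (fun i => PlT_inc) (fun i hi => ?_) (fun i hi ω _ h => ?_)
  · have h1 := hb κ hκ (zc i) L (r + L) τ hL hτ hτL (by omega) E hodd (hE1 i hi) (hE2 i hi)
    refine le_trans ?_ (h1.trans (Pr_mono fun ω _ h => Bnk.plT hκ (by omega) h))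
    have hL0 : (0 : ℝ) < L := by
      have : (0 : ℤ) < L := by omega
      exact_mod_cast this
    have hR0 : (0 : ℝ) < ((r + L : ℤ) : ℝ) := by
      have : (0 : ℤ) < r + L := by omega
      exact_mod_cast this
    have e1 : (n : ℝ) ^ (-(1 / 3) : ℝ) ≤ 16 * ((L : ℝ) / ((r + L : ℤ) : ℝ)) ^ (1 / 3 : ℝ) := by
      rw [div_rpow_third hL0 hR0]
      set X : ℝ := ((r + L : ℤ) : ℝ) / L with hX
      have hX0 : 0 < X := by positivity
      have hX1 : X ≤ 4096 * n := by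
        rw [hX, div_le_iff₀ hL0]
        have g1 : r + L ≤ 4096 * n * L := by
          have : (1 : ℤ) * L ≤ n * L := by nlinarith
          nlinarith
        exact_mod_cast g1
      have h3 : (4096 * (n : ℝ)) ^ (-(1 / 3) : ℝ) ≤ X ^ (-(1 / 3) : ℝ) :=
        Real.rpow_le_rpow_of_nonpos hX0 hX1 (by norm_num)
      have h4 : (4096 * (n : ℝ)) ^ (-(1 / 3) : ℝ) = 1 / 16 * (n : ℝ) ^ (-(1 / 3) : ℝ) := by
        rw [Real.mul_rpow (by norm_num) hn0.le]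
        congr 1
        rw [show (4096 : ℝ) = 16 ^ (3 : ℝ) by norm_num, ← Real.rpow_mul (by norm_num)]
        rw [show (3 : ℝ) * -(1 / 3) = -1 by norm_num, Real.rpow_neg_one]
        norm_num
      rw [h4] at h3
      linarith
    calc c / 16 * (n : ℝ) ^ (-(1 / 3) : ℝ)
        ≤ c / 16 * (16 * ((L : ℝ) / ((r + L : ℤ) : ℝ)) ^ (1 / 3 : ℝ)) :=
          mul_le_mul_of_nonneg_left e1 (by positivity)
      _ = _ := by ring
  · exact PlT.tch hκ h (hz i hi) hLN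

end Pool.Agent.H51.W
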