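import Mathlib
import Pool.Agent.H51.W.Plate
import Pool.Agent.H91.W.Bank
import Pool.Agent.H58.W.Coin

set_option autoImplicit false
open Finset

/-! # Route W, W-D, D3: blocking circuit across a chord, canonical form

Each side of the chord is given in its own canonical coordinates (`κ = 1`, room above the diagonal wall
through `z`, staircase `Stair (z.1 + z.2) τ Q E`). `SideD` : data of one side, upper plates with bank
centres `bU i` near `z + (-16 u, 16 u)`, lower plates with centres `bL j` near `z + (16 u, -16 u)`,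
banks = wall segments of half length `L`. `UPt` : a bank vertex of one plate is joined to a bank vertex
of the other plate inside the annulus. `block_canon` : the two sides are read from disjoint sets of bits
by maps `f1`, `f2`, the colour of the lower plate `j` is the bit `g j`. -/

namespace Pool.Agent.H51.W

open Pool.Agent.H75.Perc Pool.Agent.H75.TwoArm Pool.Agent.H75.Four Pool.Agent.H49.Perc
open Pool.Agent.H69.NC Pool.Agent.H99.NC Pool.Agent.H60.Q1 Pool.Agent.H20.Q1 Pool.Agent.H59.Q1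
open Pool.Agent.Q1.M6e Pool.Agent.H91.W
open Pool.Agent.H58.W (up mem_up up_subset up_mono PB PB_inj)

/-- the numbers: plate period `N`, bank half length `L`, thickness `τ`, unit `u`, `n` plates -/
structure Nums (u N L τ : ℤ) (n : ℕ) : Prop where
  hL : 32 ≤ L
  hLN : L ≤ N
  hNL : N ≤ 4 * L
  hτ : 0 ≤ τ
  hτL : 16 * τ ≤ L
  hNu : 8 * N ≤ u
  hn : 1 ≤ n
  hn1 : u ≤ n * N
  hn2 : (n : ℤ) * N ≤ 2 * u

/-- **data of one side** -/
structure SideD (z : ℤ × ℤ) (u N L τ sU sL : ℤ) (n : ℕ) (Q E : Finset (ℤ × ℤ))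
    (bU bL : ℕ → ℤ × ℤ) : Prop where
  st : Stair (z.1 + z.2) τ Q E
  EQ : E ⊆ Q
  odd : ∀ l ∈ E, (l.1 + l.2) % 2 = 1
  hQ : BR z (30 * u) ⊆ Q
  sU1 : -(17 * u) ≤ sU
  sU2 : sU + n * N ≤ -(15 * u)
  sL1 : 15 * u ≤ sL
  sL2 : sL + n * N ≤ 17 * u
  nU : ∀ i, i < n → Near (wp 1 z (sU + i * N)) N (bU i)
  nL : ∀ i, i < n → Near (wp 1 z (sL + i * N)) N (bL i)
  hU : ∀ i, i < n → z.1 + z.2 ≤ (bU i).1 + (bU i).2
  hL : ∀ i, i < n → z.1 + z.2 ≤ (bL i).1 + (bL i).2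
  eU : ∀ i, i < n → HL 1 (bU i) L ⊆ E
  eL : ∀ i, i < n → HL 1 (bL i) L ⊆ E

/-- bank vertices: the wall segment of half length `L` round `p` -/
def Seg (p : ℤ × ℤ) (L : ℤ) (v : ℤ × ℤ) : Prop := ht 1 v = ht 1 p ∧ |v.1 - p.1| ≤ L

/-- the banks of two plates are joined inside the annulus -/
def UPt (z : ℤ × ℤ) (u L : ℤ) (E : Finset (ℤ × ℤ)) (p p' : ℤ × ℤ) (ω : Finset (ℤ × ℤ)) : Prop :=
  ∃ v v', Seg p L v ∧ Seg p' L v' ∧ Co (ω ∩ E ∩ Rg z (10 * u - 1) (22 * u)) v v'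

lemma UPt_inc {z : ℤ × ℤ} {u L : ℤ} {E : Finset (ℤ × ℤ)} {p p' : ℤ × ℤ} : Inc (UPt z u L E p p') := by
  rintro ω ω' h ⟨v, v', h1, h2, h3⟩
  exact ⟨v, v', h1, h2, h3.mono (inter_subset_inter_right (inter_subset_inter_right h))⟩

variable {z : ℤ × ℤ} {u N L τ sU sL : ℤ} {n : ℕ} {Q E : Finset (ℤ × ℤ)} {bU bL : ℕ → ℤ × ℤ}

lemma SideD.abv (h : SideD z u N L τ sU sL n Q E bU bL) {s : ℤ} : Abv 1 (wp 1 z s) E := by
  intro l hl
  refine ⟨h.odd l hl, ?_⟩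
  have h1 := h.st.lo l hl (h.EQ hl)
  rw [ht_wp']
  unfold ht
  simp only [one_mul]
  omega

/-- the flat half box above the level `ht p + τ` is in `E` -/
lemma SideD.big (h : SideD z u N L τ sU sL n Q E bU bL) (H : Nums u N L τ n) {p : ℤ × ℤ} {s : ℤ}
    (hs1 : -(17 * u) ≤ s) (hs2 : s ≤ 17 * u) (hp : Near (wp 1 z s) N p)
    (hpk : z.1 + z.2 ≤ p.1 + p.2) : HL 1 (p.1, p.2 + τ) (9 * u + L + τ) ⊆ E := by
  have g1 := H.hL
  have g2 := H.hLN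
  have g3 := H.hτ
  have g4 := H.hτL
  have g5 := H.hNu
  intro l hl
  rw [mem_HL] at hl
  unfold Near wp at hp
  rw [abs_le, abs_le] at hp
  simp only [one_mul] at hl hp
  refine h.st.up l (h.hQ ?_) ?_
  · rw [Pool.Agent.H91.W.mem_BR]
    omega
  · omega

/-- **the touching events of the upper plates** -/
theorem side_touch : ∃ a : ℝ, 0 < a ∧ ∃ M : ℝ, 1 ≤ M ∧ ∀ (z : ℤ × ℤ) (u N L τ sU sL : ℤ) (n : ℕ)
    (Q E : Finset (ℤ × ℤ)) (bU bL : ℕ → ℤ × ℤ), Nums u N L τ n →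
    SideD z u N L τ sU sL n Q E bU bL → ∀ q : ℤ × ℤ → ℝ, (∀ e ∈ E, q e = 1 / 2) →
    Touch q E a M n (fun i => PlT 1 E (bU i) L (9 * u)) ∧
    Touch q E a M n (fun i => PlT 1 E (bL i) L (9 * u)) := by
  obtain ⟨a, ha, M, hM, h⟩ := plate_touch
  refine ⟨a, ha, M, hM, ?_⟩
  intro z u N L τ sU sL n Q E bU bL H S q hq
  have g1 := H.hL
  have g2 := H.hLN
  have g5 := H.hNu
  have g6 := H.hn1
  have g7 := H.hn2
  have w : ∀ s : ℤ, ∀ i : ℕ, wp 1 (wp 1 z s) (i * N) = wp 1 z (s + i * N) := by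
    intro s i
    unfold wp
    ext <;> · simp only; ring
  have hiN : ∀ i : ℕ, i < n → 0 ≤ (i : ℤ) * N ∧ (i : ℤ) * N ≤ n * N := by
    intro i hi
    have : (i : ℤ) ≤ n := by exact_mod_cast hi.le
    constructor
    · have : (0 : ℤ) ≤ i := by positivity
      nlinarith
    · nlinarith
  have hsu1 := S.sU1
  have hsu2 := S.sU2
  have hsl1 := S.sL1
  have hsl2 := S.sL2
  constructor
  · refine h 1 (Or.inr rfl) (wp 1 z sU) N L τ (9 * u) n H.hL H.hLN H.hNL H.hτ H.hτL H.hn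
      (by linarith) (by linarith) E S.abv q hq bU
      (fun i hi => by rw [w]; exact S.nU i hi) (fun i hi => S.eU i hi) (fun i hi => ?_)
    have := hiN i hi
    exact S.big H (s := sU + i * N) (by omega) (by omega) (S.nU i hi) (S.hU i hi)
  · refine h 1 (Or.inr rfl) (wp 1 z sL) N L τ (9 * u) n H.hL H.hLN H.hNL H.hτ H.hτL H.hn
      (by linarith) (by linarith) E S.abv q hq bL
      (fun i hi => by rw [w]; exact S.nL i hi) (fun i hi => S.eL i hi) (fun i hi => ?_)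
    have := hiN i hi
    exact S.big H (s := sL + i * N) (by omega) (by omega) (S.nL i hi) (S.hL i hi)

lemma Arm.armE {v : ℤ × ℤ} {ω : Finset (ℤ × ℤ)} (h : Arm E v (9 * u) ω) : ArmE E u v ω := by
  obtain ⟨w, h1, h2⟩ := h
  exact ⟨w, h1, h2.mono inter_subset_left⟩

/-- **gluing on one side** -/
theorem side_glue (H : Nums u N L τ n) (S : SideD z u N L τ sU sL n Q E bU bL) {i j : ℕ}
    (hi : i < n) (hj : j < n) {ω : Finset (ℤ × ℤ)} (h1 : PlT 1 E (bU i) L (9 * u) ω)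
    (h2 : PlT 1 E (bL j) L (9 * u) ω) (h3 : FF Q E τ z u ω) : UPt z u L E (bU i) (bL j) ω := by
  have g1 := H.hL
  have g2 := H.hLN
  have g3 := H.hτ
  have g4 := H.hτL
  have g5 := H.hNu
  have g6 := H.hn1
  have g7 := H.hn2
  have hiN : ∀ i : ℕ, i < n → 0 ≤ (i : ℤ) * N ∧ (i : ℤ) * N ≤ n * N := by
    intro i hi
    have : (i : ℤ) ≤ n := by exact_mod_cast hi.le
    constructor
    · have : (0 : ℤ) ≤ i := by positivity
      nlinarith
    · nlinarith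
  have hsu1 := S.sU1
  have hsu2 := S.sU2
  have hsl1 := S.sL1
  have hsl2 := S.sL2
  obtain ⟨v, hv, ha⟩ := h1
  obtain ⟨v', hv', ha'⟩ := h2
  refine ⟨v, v', hv, hv', ?_⟩
  refine u_path S.st rfl g3 (by omega) (by omega) ((Pool.Agent.H91.W.BR_mono (by omega)).trans S.hQ) h3
    ?_ ?_ ha.armE ha'.armE
  · have k1 := bnk_near (Or.inr rfl) hv
    have k2 := S.nU i hi
    have k3 := hiN i hi
    unfold Near wp at k2
    unfold Near at k1
    unfold Near zU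
    rw [abs_le, abs_le] at k1 k2 ⊢
    simp only [one_mul] at k2 ⊢
    omega
  · have k1 := bnk_near (Or.inr rfl) hv'
    have k2 := S.nL j hj
    have k3 := hiN j hj
    unfold Near wp at k2
    unfold Near at k1
    unfold Near zL
    rw [abs_le, abs_le] at k1 k2 ⊢
    simp only [one_mul] at k2 ⊢
    omega

/-- reading a side from bits -/
theorem Touch.of_inj {α : Type*} [DecidableEq α] {F : Finset (ℤ × ℤ)} {f : ℤ × ℤ → α} {a M : ℝ}
    {A : ℕ → Finset (ℤ × ℤ) → Prop} (h : Touch (fun _ => 1 / 2) F a M n A)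
    (hf : ∀ l ∈ F, ∀ l' ∈ F, f l = f l' → l = l') :
    Touch (fun _ : α => 1 / 2) (F.image f) a M n (fun i ω => A i (up F f ω)) := by
  have e1 : ∀ B : Finset (ℤ × ℤ) → Prop, PQ (fun _ : α => 1 / 2) (F.image f) (fun ω => B (up F f ω)) =
      PQ (fun _ => 1 / 2) F B := by
    intro B
    rw [PQ_half (fun _ _ => rfl), PQ_half (fun _ _ => rfl)]
    exact PB_inj hf B
  refine ⟨fun i ω ω' hs h1 => h.inc i _ _ (up_mono hs) h1, fun i hi => ?_, fun i j hi hj => ?_⟩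
  · rw [e1 (A i)]; exact h.low i hi
  · rw [e1 (fun ω => A i ω ∧ A j ω)]; exact h.two i j hi hj

lemma Pr_mem {α : Type*} [DecidableEq α] {F : Finset α} {e : α} (he : e ∈ F) :
    Pr F (fun ω => e ∈ ω) = 1 / 2 := by
  have h1 : Pr F (fun ω => e ∈ ω ∩ {e}) = Pr {e} (fun ω => e ∈ ω) :=
    Pr_restrict (singleton_subset_iff.2 he) (fun ω => e ∈ ω)
  have h2 : Pr F (fun ω => e ∈ ω) = Pr F (fun ω => e ∈ ω ∩ {e}) :=
    Pr_congr fun ω _ => by rw [mem_inter, mem_singleton]; tauto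
  rw [h2, h1, Pr_eq]
  have h3 : ((({e} : Finset α).powerset.filter (fun ω => e ∈ ω)).card) = 1 := by
    rw [card_eq_one]
    refine ⟨{e}, ?_⟩
    ext ω
    rw [mem_filter, mem_powerset, mem_singleton, subset_singleton_iff]
    constructor
    · rintro ⟨h | h, h'⟩
      · rw [h] at h'; exact absurd h' (notMem_empty e)
      · exact h
    · rintro rfl
      exact ⟨Or.inr rfl, mem_singleton_self e⟩
  rw [h3, card_singleton]
  norm_num

lemma up_inter_image {α : Type*} [DecidableEq α] {F : Finset (ℤ × ℤ)} {f : ℤ × ℤ → α}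
    {ω : Finset α} : up F f (ω ∩ F.image f) = up F f ω := by
  ext l
  rw [mem_up, mem_up, mem_inter]
  constructor
  · rintro ⟨h1, h2, -⟩; exact ⟨h1, h2⟩
  · rintro ⟨h1, h2⟩; exact ⟨h1, h2, mem_image_of_mem f h1⟩

/-- the blocking event, read from bits -/
def BlkE {α : Type*} [DecidableEq α] (n : ℕ) (u L : ℤ) (z1 z2 : ℤ × ℤ) (E1 E2 : Finset (ℤ × ℤ))
    (bU1 bL1 bU2 bL2 : ℕ → ℤ × ℤ) (f1 f2 : ℤ × ℤ → α) (g : ℕ → α) (ω : Finset α) : Prop :=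
  ∃ i, i < n ∧ ∃ j, j < n ∧ UPt z1 u L E1 (bU1 i) (bL1 j) (up E1 f1 ω) ∧
    UPt z2 u L E2 (bU2 i) (bL2 j) (up E2 f2 ω) ∧ g j ∈ ω

section
variable {α : Type*} [DecidableEq α] {z1 z2 : ℤ × ℤ} {E1 E2 : Finset (ℤ × ℤ)}
  {bU1 bL1 bU2 bL2 : ℕ → ℤ × ℤ} {f1 f2 f : ℤ × ℤ → α} {g : ℕ → α} {ω ω' : Finset α}

lemma BlkE_inc : Inc (BlkE n u L z1 z2 E1 E2 bU1 bL1 bU2 bL2 f1 f2 g) := by
  rintro ω ω' h ⟨i, hi, j, hj, h1, h2, h3⟩
  exact ⟨i, hi, j, hj, UPt_inc _ _ (up_mono h) h1, UPt_inc _ _ (up_mono h) h2, h h3⟩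

lemma UPt_of_agree {p p' : ℤ × ℤ} (h : ∀ l ∈ E, l ∈ Rg z (10 * u - 1) (22 * u) → f l ∈ ω →
    f l ∈ ω') (h1 : UPt z u L E p p' (up E f ω)) : UPt z u L E p p' (up E f ω') := by
  obtain ⟨v, v', g1, g2, g3⟩ := h1
  refine ⟨v, v', g1, g2, g3.mono ?_⟩
  intro l hl
  obtain ⟨k1, k2⟩ := mem_inter.1 hl
  obtain ⟨k3, k4⟩ := mem_inter.1 k1
  rw [mem_up] at k3
  exact mem_inter.2 ⟨mem_inter.2 ⟨mem_up.2 ⟨k3.1, h l k4 k2 k3.2⟩, k4⟩, k2⟩

/-- bits which decide the blocking event -/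
noncomputable def blkS (n : ℕ) (u : ℤ) (z1 z2 : ℤ × ℤ) (E1 E2 : Finset (ℤ × ℤ))
    (f1 f2 : ℤ × ℤ → α) (g : ℕ → α) : Finset α :=
  (E1 ∩ Rg z1 (10 * u - 1) (22 * u)).image f1 ∪ (E2 ∩ Rg z2 (10 * u - 1) (22 * u)).image f2 ∪
    (range n).image g

/-- the blocking event is decided by the bits `blkS` -/
theorem BlkE_local : BlkE n u L z1 z2 E1 E2 bU1 bL1 bU2 bL2 f1 f2 g ω ↔
    BlkE n u L z1 z2 E1 E2 bU1 bL1 bU2 bL2 f1 f2 g (ω ∩ blkS n u z1 z2 E1 E2 f1 f2 g) := by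
  constructor
  · rintro ⟨i, hi, j, hj, h1, h2, h3⟩
    refine ⟨i, hi, j, hj, UPt_of_agree (fun l hl hl' h => ?_) h1,
      UPt_of_agree (fun l hl hl' h => ?_) h2, ?_⟩
    · exact mem_inter.2 ⟨h, mem_union_left _ (mem_union_left _
        (mem_image_of_mem f1 (mem_inter.2 ⟨hl, hl'⟩)))⟩
    · exact mem_inter.2 ⟨h, mem_union_left _ (mem_union_right _
        (mem_image_of_mem f2 (mem_inter.2 ⟨hl, hl'⟩)))⟩
    · exact mem_inter.2 ⟨h3, mem_union_right _ (mem_image_of_mem g (mem_range.2 hj))⟩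
  · exact fun h => BlkE_inc _ _ inter_subset_left h

end

/-- **blocking circuit across a chord of fair plates, canonical form** -/
theorem block_canon : ∃ c : ℝ, 0 < c ∧ ∀ {α : Type*} [DecidableEq α] (Ω : Finset α)
    (u N L τ : ℤ) (n : ℕ), Nums u N L τ n →
    ∀ (z1 z2 : ℤ × ℤ) (sU1 sL1 sU2 sL2 : ℤ) (Q1 E1 Q2 E2 : Finset (ℤ × ℤ))
      (bU1 bL1 bU2 bL2 : ℕ → ℤ × ℤ), SideD z1 u N L τ sU1 sL1 n Q1 E1 bU1 bL1 →
    SideD z2 u N L τ sU2 sL2 n Q2 E2 bU2 bL2 →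
    ∀ (f1 f2 : ℤ × ℤ → α) (g : ℕ → α), (∀ l ∈ E1, ∀ l' ∈ E1, f1 l = f1 l' → l = l') →
    (∀ l ∈ E2, ∀ l' ∈ E2, f2 l = f2 l' → l = l') → (∀ l ∈ E1, f1 l ∈ Ω) → (∀ l ∈ E2, f2 l ∈ Ω) →
    (∀ j, j < n → g j ∈ Ω) → (∀ l ∈ E1, ∀ l' ∈ E2, f1 l ≠ f2 l') →
    (∀ l ∈ E1, ∀ j, j < n → f1 l ≠ g j) → (∀ l ∈ E2, ∀ j, j < n → f2 l ≠ g j) →
    c ≤ Pr Ω (BlkE n u L z1 z2 E1 E2 bU1 bL1 bU2 bL2 f1 f2 g) := by
  obtain ⟨a, ha, M, hM, ht⟩ := side_touch
  obtain ⟨c0, hc0, hF⟩ := FF_prob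
  refine ⟨bc a M c0 (1 / 2), bc_pos ha (by linarith) hc0 (by norm_num), ?_⟩
  intro α _ Ω u N L τ n H z1 z2 sU1 sL1 sU2 sL2 Q1 E1 Q2 E2 bU1 bL1 bU2 bL2 S1 S2 f1 f2 g
    i1 i2 m1 m2 m3 d12 d13 d23
  have T1 := ht z1 u N L τ sU1 sL1 n Q1 E1 bU1 bL1 H S1 (fun _ => 1 / 2) (fun _ _ => rfl)
  have T2 := ht z2 u N L τ sU2 sL2 n Q2 E2 bU2 bL2 H S2 (fun _ => 1 / 2) (fun _ _ => rfl)
  have hq : Wt (fun _ : α => (1 / 2 : ℝ)) := fun _ => ⟨by norm_num, by norm_num⟩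
  have s1 : E1.image f1 ⊆ Ω := by
    intro x hx; obtain ⟨l, hl, rfl⟩ := mem_image.1 hx; exact m1 l hl
  have s2 : E2.image f2 ⊆ Ω := by
    intro x hx; obtain ⟨l, hl, rfl⟩ := mem_image.1 hx; exact m2 l hl
  have s3 : (range n).image g ⊆ Ω := by
    intro x hx; obtain ⟨l, hl, rfl⟩ := mem_image.1 hx; exact m3 l (mem_range.1 hl)
  have D12 : Disjoint (E1.image f1) (E2.image f2) := by
    rw [disjoint_left]
    rintro x h1 h2
    obtain ⟨l, hl, rfl⟩ := mem_image.1 h1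
    obtain ⟨l', hl', h⟩ := mem_image.1 h2
    exact d12 l hl l' hl' h.symm
  have D13 : Disjoint (E1.image f1) ((range n).image g) := by
    rw [disjoint_left]
    rintro x h1 h2
    obtain ⟨l, hl, rfl⟩ := mem_image.1 h1
    obtain ⟨l', hl', h⟩ := mem_image.1 h2
    exact d13 l hl l' (mem_range.1 hl') h.symm
  have D23 : Disjoint (E2.image f2) ((range n).image g) := by
    rw [disjoint_left]
    rintro x h1 h2
    obtain ⟨l, hl, rfl⟩ := mem_image.1 h1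
    obtain ⟨l', hl', h⟩ := mem_image.1 h2
    exact d23 l hl l' (mem_range.1 hl') h.symm
  have pF : ∀ (z : ℤ × ℤ) (sU sL : ℤ) (Q E : Finset (ℤ × ℤ)) (bU bL : ℕ → ℤ × ℤ)
      (f : ℤ × ℤ → α), SideD z u N L τ sU sL n Q E bU bL →
      (∀ l ∈ E, ∀ l' ∈ E, f l = f l' → l = l') →
      c0 ≤ PQ (fun _ : α => 1 / 2) (E.image f) (fun ω => FF Q E τ z u (up E f ω)) := by
    intro z sU sL Q E bU bL f S hi
    rw [PQ_half (fun _ _ => rfl)]
    have e1 : Pr (E.image f) (fun ω => FF Q E τ z u (up E f ω)) = Pr E (FF Q E τ z u) :=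
      PB_inj hi (FF Q E τ z u)
    rw [e1, ← hf_Pr]
    have g1 := H.hL
    have g2 := H.hLN
    have g3 := H.hτ
    have g4 := H.hτL
    have g5 := H.hNu
    exact hF hf hf_Qh (z.1 + z.2) τ Q E S.st z u rfl g3 (by omega) (by omega)
      ((Pool.Agent.H91.W.BR_mono (by omega)).trans S.hQ)
  have key := block_prob hq s1 s2 s3 D12 D13 D23 (a := a) (M := M) (c0 := c0) (p0 := 1 / 2)
    ha.le (by linarith) (by norm_num) hc0.le H.hn
    (Au := fun i ω => PlT 1 E1 (bU1 i) L (9 * u) (up E1 f1 ω))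
    (Al := fun i ω => PlT 1 E1 (bL1 i) L (9 * u) (up E1 f1 ω))
    (Bu := fun i ω => PlT 1 E2 (bU2 i) L (9 * u) (up E2 f2 ω))
    (Bl := fun i ω => PlT 1 E2 (bL2 i) L (9 * u) (up E2 f2 ω))
    (C := fun j ω => g j ∈ ω)
    (F := fun ω => FF Q1 E1 τ z1 u (up E1 f1 ω)) (G := fun ω => FF Q2 E2 τ z2 u (up E2 f2 ω))
    (U := fun i j ω => UPt z1 u L E1 (bU1 i) (bL1 j) (up E1 f1 ω))
    (V := fun i j ω => UPt z2 u L E2 (bU2 i) (bL2 j) (up E2 f2 ω))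
    (T1.1.of_inj i1) (T1.2.of_inj i1) (T2.1.of_inj i2) (T2.2.of_inj i2)
    (fun j ω ω' hs h => hs h)
    (fun j hj => by
      rw [PQ_half (fun _ _ => rfl), Pr_mem (mem_image_of_mem g (mem_range.2 hj))])
    (fun ω ω' hs h => FF_inc _ _ (up_mono hs) h) (pF z1 sU1 sL1 Q1 E1 bU1 bL1 f1 S1 i1)
    (fun ω ω' hs h => FF_inc _ _ (up_mono hs) h) (pF z2 sU2 sL2 Q2 E2 bU2 bL2 f2 S2 i2)
    (fun i j hi hj ω _ h1 h2 h3 => side_glue H S1 hi hj h1 h2 h3)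
    (fun i j hi hj ω _ h1 h2 h3 => side_glue H S2 hi hj h1 h2 h3)
  rw [PQ_half (fun _ _ => rfl)] at key
  refine key.trans (Pr_mono fun ω _ h => ?_)
  obtain ⟨i, hi, j, hj, h1, h2, h3⟩ := h
  rw [up_inter_image] at h1 h2
  exact ⟨i, hi, j, hj, h1, h2, (mem_inter.1 h3).1⟩

end Pool.Agent.H51.W
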