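import Mathlib
import Pool.Agent.H51.W.Canon

set_option autoImplicit false
open Finset

/-! # Route W: blocking circuit across a chord, both plates of the circuit white

`block_prob2`, `block_canon2` : as `block_prob`, `block_canon`, with coins for the upper plates too. -/

namespace Pool.Agent.H51.W

open Pool.Agent.H75.Perc Pool.Agent.H75.TwoArm Pool.Agent.H75.Four Pool.Agent.H49.Perc
open Pool.Agent.H69.NC Pool.Agent.H99.NC Pool.Agent.H60.Q1 Pool.Agent.H20.Q1 Pool.Agent.H59.Q1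
open Pool.Agent.H69.NC.Osss84
open Pool.Agent.Q1.M6e Pool.Agent.H91.W
open Pool.Agent.H58.W (up mem_up up_subset up_mono PB PB_inj)

/-- the constant -/
noncomputable def bc2 (a M c0 p0 : ℝ) : ℝ :=
  (((p0 * a ^ 2) ^ 2 / (6 * M ^ 2)) * ((p0 * a ^ 2) ^ 2 / (6 * M ^ 2))) * (c0 * c0)

lemma bc2_pos {a M c0 p0 : ℝ} (ha : 0 < a) (hM : 0 < M) (hc : 0 < c0) (hp : 0 < p0) :
    0 < bc2 a M c0 p0 := by unfold bc2; positivity

/-- **blocking circuit across a chord of fair plates**, coins for the upper plates too -/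
theorem block_prob2 {α : Type*} [DecidableEq α] {q : α → ℝ} (hq : Wt q)
    {E E1 E2 E3 : Finset α} (h1 : E1 ⊆ E) (h2 : E2 ⊆ E) (h3 : E3 ⊆ E)
    (h12 : Disjoint E1 E2) (h13 : Disjoint E1 E3) (h23 : Disjoint E2 E3)
    {a M c0 p0 : ℝ} (ha : 0 ≤ a) (hM : 0 < M) (hp : 0 ≤ p0) (hc : 0 ≤ c0)
    {n : ℕ} (hn : 1 ≤ n) {Au Al Bu Bl C D : ℕ → Finset α → Prop} {F G : Finset α → Prop}
    {U V : ℕ → ℕ → Finset α → Prop}
    (hAu : Touch q E1 a M n Au) (hAl : Touch q E1 a M n Al)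
    (hBu : Touch q E2 a M n Bu) (hBl : Touch q E2 a M n Bl)
    (hCi : ∀ j, Inc (C j)) (hC : ∀ j, j < n → p0 ≤ PQ q E3 (C j))
    (hDi : ∀ j, Inc (D j)) (hD : ∀ j, j < n → p0 ≤ PQ q E3 (D j))
    (hFi : Inc F) (hF : c0 ≤ PQ q E1 F) (hGi : Inc G) (hG : c0 ≤ PQ q E2 G)
    (hU : ∀ i j, i < n → j < n → ∀ ω, ω ⊆ E1 → Au i ω → Al j ω → F ω → U i j ω)
    (hV : ∀ i j, i < n → j < n → ∀ ω, ω ⊆ E2 → Bu i ω → Bl j ω → G ω → V i j ω) :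
    bc2 a M c0 p0 ≤ PQ q E (fun ω => ∃ i, i < n ∧ ∃ j, j < n ∧ U i j (ω ∩ E1) ∧
      V i j (ω ∩ E2) ∧ D i (ω ∩ E3) ∧ C j (ω ∩ E3)) := by
  have m1 := moment_touch hq h1 h2 h3 h12 h13 h23 (s := 1 / 3) (by norm_num) (by norm_num) ha hM
    hp hn Au Bu D hAu.low hBu.low hD hAu.two hBu.two
  have m2 := moment_touch hq h1 h2 h3 h12 h13 h23 (s := 1 / 3) (by norm_num) (by norm_num) ha hM
    hp hn Al Bl C hAl.low hBl.low hC hAl.two hBl.two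
  have e2 : (p0 * a ^ 2) ^ 2 * (1 - 2 * (1 / 3)) / (2 * M ^ 2) =
      (p0 * a ^ 2) ^ 2 / (6 * M ^ 2) := by
    field_simp; ring
  rw [e2] at m1
  rw [e2] at m2
  set X : Finset α → Prop := fun ω => ∃ i, i < n ∧ Au i (ω ∩ E1) ∧ Bu i (ω ∩ E2) ∧
    D i (ω ∩ E3) with hX
  set Y : Finset α → Prop := fun ω => ∃ j, j < n ∧ Al j (ω ∩ E1) ∧ Bl j (ω ∩ E2) ∧
    C j (ω ∩ E3) with hY
  have iX : Inc X := by
    rintro ω ω' h ⟨i, hi, g1, g2, g3⟩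
    exact ⟨i, hi, hAu.inc i _ _ (inter_subset_inter_right h) g1,
      hBu.inc i _ _ (inter_subset_inter_right h) g2, hDi i _ _ (inter_subset_inter_right h) g3⟩
  have iY : Inc Y := by
    rintro ω ω' h ⟨j, hj, g1, g2, g3⟩
    exact ⟨j, hj, hAl.inc j _ _ (inter_subset_inter_right h) g1,
      hBl.inc j _ _ (inter_subset_inter_right h) g2, hCi j _ _ (inter_subset_inter_right h) g3⟩
  have iF : Inc (fun ω => F (ω ∩ E1)) := inc_inter hFi E1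
  have iG : Inc (fun ω => G (ω ∩ E2)) := inc_inter hGi E2
  have pF : c0 ≤ PQ q E (fun ω => F (ω ∩ E1)) := by rw [PQ_restrict h1]; exact hF
  have pG : c0 ≤ PQ q E (fun ω => G (ω ∩ E2)) := by rw [PQ_restrict h2]; exact hG
  have k1 := PQ_harris hq E iX iY
  have k2 := PQ_harris hq E iF iG
  have iXY : Inc (fun ω => X ω ∧ Y ω) := fun ω ω' h hh => ⟨iX _ _ h hh.1, iY _ _ h hh.2⟩
  have iFG : Inc (fun ω => F (ω ∩ E1) ∧ G (ω ∩ E2)) := fun ω ω' h hh =>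
    ⟨iF _ _ h hh.1, iG _ _ h hh.2⟩
  have k3 := PQ_harris hq E iXY iFG
  have hP : ∀ A : Finset α → Prop, 0 ≤ PQ q E A := fun A => PQ_nonneg hq E A
  have hy : (0 : ℝ) ≤ (p0 * a ^ 2) ^ 2 / (6 * M ^ 2) := by positivity
  calc bc2 a M c0 p0 ≤ (PQ q E X * PQ q E Y) * (PQ q E (fun ω => F (ω ∩ E1)) *
        PQ q E (fun ω => G (ω ∩ E2))) := by
        unfold bc2
        have t1 := mul_le_mul m1 m2 hy (hP _)
        have t2 := mul_le_mul pF pG hc (hP _)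
        exact mul_le_mul t1 t2 (mul_nonneg hc hc) (mul_nonneg (hP _) (hP _))
    _ ≤ PQ q E (fun ω => X ω ∧ Y ω) * PQ q E (fun ω => F (ω ∩ E1) ∧ G (ω ∩ E2)) :=
        mul_le_mul k1 k2 (mul_nonneg (hP _) (hP _)) (hP _)
    _ ≤ PQ q E (fun ω => (X ω ∧ Y ω) ∧ (F (ω ∩ E1) ∧ G (ω ∩ E2))) := k3
    _ ≤ _ := by
        refine PQ_mono hq fun ω _ h => ?_
        obtain ⟨⟨⟨i, hi, g1, g2, g8⟩, ⟨j, hj, g3, g4, g5⟩⟩, g6, g7⟩ := h
        exact ⟨i, hi, j, hj, hU i j hi hj _ inter_subset_right g1 g3 g6,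
          hV i j hi hj _ inter_subset_right g2 g4 g7, g8, g5⟩

variable {z : ℤ × ℤ} {u N L τ sU sL : ℤ} {n : ℕ} {Q E : Finset (ℤ × ℤ)} {bU bL : ℕ → ℤ × ℤ}

/-- the blocking event, read from bits, both plates white -/
def BlkF {α : Type*} [DecidableEq α] (n : ℕ) (u L : ℤ) (z1 z2 : ℤ × ℤ) (E1 E2 : Finset (ℤ × ℤ))
    (bU1 bL1 bU2 bL2 : ℕ → ℤ × ℤ) (f1 f2 : ℤ × ℤ → α) (gU gL : ℕ → α) (ω : Finset α) : Prop :=
  ∃ i, i < n ∧ ∃ j, j < n ∧ UPt z1 u L E1 (bU1 i) (bL1 j) (up E1 f1 ω) ∧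
    UPt z2 u L E2 (bU2 i) (bL2 j) (up E2 f2 ω) ∧ gU i ∈ ω ∧ gL j ∈ ω

section
variable {α : Type*} [DecidableEq α] {z1 z2 : ℤ × ℤ} {E1 E2 : Finset (ℤ × ℤ)}
  {bU1 bL1 bU2 bL2 : ℕ → ℤ × ℤ} {f1 f2 f : ℤ × ℤ → α} {gU gL : ℕ → α} {ω ω' : Finset α}

lemma BlkF_inc : Inc (BlkF n u L z1 z2 E1 E2 bU1 bL1 bU2 bL2 f1 f2 gU gL) := by
  rintro ω ω' h ⟨i, hi, j, hj, h1, h2, h3, h4⟩
  exact ⟨i, hi, j, hj, UPt_inc _ _ (up_mono h) h1, UPt_inc _ _ (up_mono h) h2, h h3, h h4⟩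

/-- bits which decide the blocking event -/
noncomputable def blkF (n : ℕ) (u : ℤ) (z1 z2 : ℤ × ℤ) (E1 E2 : Finset (ℤ × ℤ))
    (f1 f2 : ℤ × ℤ → α) (gU gL : ℕ → α) : Finset α :=
  (E1 ∩ Rg z1 (10 * u - 1) (22 * u)).image f1 ∪ (E2 ∩ Rg z2 (10 * u - 1) (22 * u)).image f2 ∪
    ((range n).image gU ∪ (range n).image gL)

/-- the blocking event is decided by the bits `blkF` -/
theorem BlkF_local : BlkF n u L z1 z2 E1 E2 bU1 bL1 bU2 bL2 f1 f2 gU gL ω ↔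
    BlkF n u L z1 z2 E1 E2 bU1 bL1 bU2 bL2 f1 f2 gU gL
      (ω ∩ blkF n u z1 z2 E1 E2 f1 f2 gU gL) := by
  constructor
  · rintro ⟨i, hi, j, hj, h1, h2, h3, h4⟩
    refine ⟨i, hi, j, hj, UPt_of_agree (fun l hl hl' h => ?_) h1,
      UPt_of_agree (fun l hl hl' h => ?_) h2, ?_, ?_⟩
    · exact mem_inter.2 ⟨h, mem_union_left _ (mem_union_left _
        (mem_image_of_mem f1 (mem_inter.2 ⟨hl, hl'⟩)))⟩
    · exact mem_inter.2 ⟨h, mem_union_left _ (mem_union_right _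
        (mem_image_of_mem f2 (mem_inter.2 ⟨hl, hl'⟩)))⟩
    · exact mem_inter.2 ⟨h3, mem_union_right _
        (mem_union_left _ (mem_image_of_mem gU (mem_range.2 hi)))⟩
    · exact mem_inter.2 ⟨h4, mem_union_right _
        (mem_union_right _ (mem_image_of_mem gL (mem_range.2 hj)))⟩
  · exact fun h => BlkF_inc _ _ inter_subset_left h

end

/-- **blocking circuit across a chord of fair plates, canonical form**, both plates white -/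
theorem block_canon2 : ∃ c : ℝ, 0 < c ∧ ∀ {α : Type*} [DecidableEq α] (Ω : Finset α)
    (u N L τ : ℤ) (n : ℕ), Nums u N L τ n →
    ∀ (z1 z2 : ℤ × ℤ) (sU1 sL1 sU2 sL2 : ℤ) (Q1 E1 Q2 E2 : Finset (ℤ × ℤ))
      (bU1 bL1 bU2 bL2 : ℕ → ℤ × ℤ), SideD z1 u N L τ sU1 sL1 n Q1 E1 bU1 bL1 →
    SideD z2 u N L τ sU2 sL2 n Q2 E2 bU2 bL2 →
    ∀ (f1 f2 : ℤ × ℤ → α) (gU gL : ℕ → α), (∀ l ∈ E1, ∀ l' ∈ E1, f1 l = f1 l' → l = l') →
    (∀ l ∈ E2, ∀ l' ∈ E2, f2 l = f2 l' → l = l') → (∀ l ∈ E1, f1 l ∈ Ω) → (∀ l ∈ E2, f2 l ∈ Ω) →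
    (∀ j, j < n → gU j ∈ Ω) → (∀ j, j < n → gL j ∈ Ω) → (∀ l ∈ E1, ∀ l' ∈ E2, f1 l ≠ f2 l') →
    (∀ l ∈ E1, ∀ j, j < n → f1 l ≠ gU j) → (∀ l ∈ E2, ∀ j, j < n → f2 l ≠ gU j) →
    (∀ l ∈ E1, ∀ j, j < n → f1 l ≠ gL j) → (∀ l ∈ E2, ∀ j, j < n → f2 l ≠ gL j) →
    c ≤ Pr Ω (BlkF n u L z1 z2 E1 E2 bU1 bL1 bU2 bL2 f1 f2 gU gL) := by
  obtain ⟨a, ha, M, hM, ht⟩ := side_touch
  obtain ⟨c0, hc0, hF⟩ := FF_prob
  refine ⟨bc2 a M c0 (1 / 2), bc2_pos ha (by linarith) hc0 (by norm_num), ?_⟩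
  intro α _ Ω u N L τ n H z1 z2 sU1 sL1 sU2 sL2 Q1 E1 Q2 E2 bU1 bL1 bU2 bL2 S1 S2 f1 f2 gU gL
    i1 i2 m1 m2 m3 m4 d12 d13 d23 d14 d24
  have T1 := ht z1 u N L τ sU1 sL1 n Q1 E1 bU1 bL1 H S1 (fun _ => 1 / 2) (fun _ _ => rfl)
  have T2 := ht z2 u N L τ sU2 sL2 n Q2 E2 bU2 bL2 H S2 (fun _ => 1 / 2) (fun _ _ => rfl)
  have hq : Wt (fun _ : α => (1 / 2 : ℝ)) := fun _ => ⟨by norm_num, by norm_num⟩
  have s1 : E1.image f1 ⊆ Ω := by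
    intro x hx; obtain ⟨l, hl, rfl⟩ := mem_image.1 hx; exact m1 l hl
  have s2 : E2.image f2 ⊆ Ω := by
    intro x hx; obtain ⟨l, hl, rfl⟩ := mem_image.1 hx; exact m2 l hl
  have s3 : (range n).image gU ∪ (range n).image gL ⊆ Ω := by
    intro x hx
    rcases mem_union.1 hx with hx | hx
    · obtain ⟨l, hl, rfl⟩ := mem_image.1 hx; exact m3 l (mem_range.1 hl)
    · obtain ⟨l, hl, rfl⟩ := mem_image.1 hx; exact m4 l (mem_range.1 hl)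
  have D12 : Disjoint (E1.image f1) (E2.image f2) := by
    rw [disjoint_left]
    rintro x h1 h2
    obtain ⟨l, hl, rfl⟩ := mem_image.1 h1
    obtain ⟨l', hl', h⟩ := mem_image.1 h2
    exact d12 l hl l' hl' h.symm
  have D3 : ∀ (E : Finset (ℤ × ℤ)) (f : ℤ × ℤ → α), (∀ l ∈ E, ∀ j, j < n → f l ≠ gU j) →
      (∀ l ∈ E, ∀ j, j < n → f l ≠ gL j) →
      Disjoint (E.image f) ((range n).image gU ∪ (range n).image gL) := by
    intro E f k1 k2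
    rw [disjoint_left]
    rintro x h1 h2
    obtain ⟨l, hl, rfl⟩ := mem_image.1 h1
    rcases mem_union.1 h2 with h2 | h2
    · obtain ⟨l', hl', h⟩ := mem_image.1 h2
      exact k1 l hl l' (mem_range.1 hl') h.symm
    · obtain ⟨l', hl', h⟩ := mem_image.1 h2
      exact k2 l hl l' (mem_range.1 hl') h.symm
  have pF : ∀ (z : ℤ × ℤ) (sU sL : ℤ) (Q E : Finset (ℤ × ℤ)) (bU bL : ℕ → ℤ × ℤ)
      (f : ℤ × ℤ → α), SideD z u N L τ sU sL n Q E bU bL →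
      (∀ l ∈ E, ∀ l' ∈ E, f l = f l' → l = l') →
      c0 ≤ PQ (fun _ : α => 1 / 2) (E.image f) (fun ω => FF Q E τ z u (up E f ω)) := by
    intro z sU sL Q E bU bL f S hi
    rw [PQ_half (fun _ _ => rfl)]
    have e1 : Pr (E.image f) (fun ω => FF Q E τ z u (up E f ω)) = Pr E (FF Q E τ z u) :=
      PB_inj hi (FF Q E τ z u)
    rw [e1, ← hf_Pr]
    have g1 := H.hL
    have g2 := H.hLN
    have g3 := H.hτ
    have g4 := H.hτL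
    have g5 := H.hNu
    exact hF hf hf_Qh (z.1 + z.2) τ Q E S.st z u rfl g3 (by omega) (by omega)
      ((Pool.Agent.H91.W.BR_mono (by omega)).trans S.hQ)
  have key := block_prob2 hq s1 s2 s3 D12 (D3 E1 f1 d13 d14) (D3 E2 f2 d23 d24)
    (a := a) (M := M) (c0 := c0) (p0 := 1 / 2)
    ha.le (by linarith) (by norm_num) hc0.le H.hn
    (Au := fun i ω => PlT 1 E1 (bU1 i) L (9 * u) (up E1 f1 ω))
    (Al := fun i ω => PlT 1 E1 (bL1 i) L (9 * u) (up E1 f1 ω))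
    (Bu := fun i ω => PlT 1 E2 (bU2 i) L (9 * u) (up E2 f2 ω))
    (Bl := fun i ω => PlT 1 E2 (bL2 i) L (9 * u) (up E2 f2 ω))
    (C := fun j ω => gL j ∈ ω) (D := fun j ω => gU j ∈ ω)
    (F := fun ω => FF Q1 E1 τ z1 u (up E1 f1 ω)) (G := fun ω => FF Q2 E2 τ z2 u (up E2 f2 ω))
    (U := fun i j ω => UPt z1 u L E1 (bU1 i) (bL1 j) (up E1 f1 ω))
    (V := fun i j ω => UPt z2 u L E2 (bU2 i) (bL2 j) (up E2 f2 ω))
    (T1.1.of_inj i1) (T1.2.of_inj i1) (T2.1.of_inj i2) (T2.2.of_inj i2)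
    (fun j ω ω' hs h => hs h)
    (fun j hj => by
      rw [PQ_half (fun _ _ => rfl), Pr_mem (mem_union_right _
        (mem_image_of_mem gL (mem_range.2 hj)))])
    (fun j ω ω' hs h => hs h)
    (fun j hj => by
      rw [PQ_half (fun _ _ => rfl), Pr_mem (mem_union_left _
        (mem_image_of_mem gU (mem_range.2 hj)))])
    (fun ω ω' hs h => FF_inc _ _ (up_mono hs) h) (pF z1 sU1 sL1 Q1 E1 bU1 bL1 f1 S1 i1)
    (fun ω ω' hs h => FF_inc _ _ (up_mono hs) h) (pF z2 sU2 sL2 Q2 E2 bU2 bL2 f2 S2 i2)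
    (fun i j hi hj ω _ h1 h2 h3 => side_glue H S1 hi hj h1 h2 h3)
    (fun i j hi hj ω _ h1 h2 h3 => side_glue H S2 hi hj h1 h2 h3)
  rw [PQ_half (fun _ _ => rfl)] at key
  refine key.trans (Pr_mono fun ω _ h => ?_)
  obtain ⟨i, hi, j, hj, h1, h2, h3, h4⟩ := h
  rw [up_inter_image] at h1 h2
  exact ⟨i, hi, j, hj, h1, h2, (mem_inter.1 h3).1, (mem_inter.1 h4).1⟩

/-! ### White coin at the upper plate only -/

/-- the blocking event, read from bits, the upper plate is white -/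
def BlkU {α : Type*} [DecidableEq α] (n : ℕ) (u L : ℤ) (z1 z2 : ℤ × ℤ) (E1 E2 : Finset (ℤ × ℤ))
    (bU1 bL1 bU2 bL2 : ℕ → ℤ × ℤ) (f1 f2 : ℤ × ℤ → α) (g : ℕ → α) (ω : Finset α) : Prop :=
  ∃ i, i < n ∧ ∃ j, j < n ∧ UPt z1 u L E1 (bU1 i) (bL1 j) (up E1 f1 ω) ∧
    UPt z2 u L E2 (bU2 i) (bL2 j) (up E2 f2 ω) ∧ g i ∈ ω

section
variable {α : Type*} [DecidableEq α] {z1 z2 : ℤ × ℤ} {E1 E2 : Finset (ℤ × ℤ)}
  {bU1 bL1 bU2 bL2 : ℕ → ℤ × ℤ} {f1 f2 f : ℤ × ℤ → α} {g : ℕ → α} {ω ω' : Finset α}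

lemma BlkU_inc : Inc (BlkU n u L z1 z2 E1 E2 bU1 bL1 bU2 bL2 f1 f2 g) := by
  rintro ω ω' h ⟨i, hi, j, hj, h1, h2, h3⟩
  exact ⟨i, hi, j, hj, UPt_inc _ _ (up_mono h) h1, UPt_inc _ _ (up_mono h) h2, h h3⟩

/-- the blocking event is decided by the bits `blkS` -/
theorem BlkU_local : BlkU n u L z1 z2 E1 E2 bU1 bL1 bU2 bL2 f1 f2 g ω ↔
    BlkU n u L z1 z2 E1 E2 bU1 bL1 bU2 bL2 f1 f2 g (ω ∩ blkS n u z1 z2 E1 E2 f1 f2 g) := by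
  constructor
  · rintro ⟨i, hi, j, hj, h1, h2, h3⟩
    refine ⟨i, hi, j, hj, UPt_of_agree (fun l hl hl' h => ?_) h1,
      UPt_of_agree (fun l hl hl' h => ?_) h2, ?_⟩
    · exact mem_inter.2 ⟨h, mem_union_left _ (mem_union_left _
        (mem_image_of_mem f1 (mem_inter.2 ⟨hl, hl'⟩)))⟩
    · exact mem_inter.2 ⟨h, mem_union_left _ (mem_union_right _
        (mem_image_of_mem f2 (mem_inter.2 ⟨hl, hl'⟩)))⟩
    · exact mem_inter.2 ⟨h3, mem_union_right _ (mem_image_of_mem g (mem_range.2 hi))⟩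
  · exact fun h => BlkU_inc _ _ inter_subset_left h

end

/-- **blocking circuit across a chord of fair plates, canonical form**, the upper plate white -/
theorem block_canonU : ∃ c : ℝ, 0 < c ∧ ∀ {α : Type*} [DecidableEq α] (Ω : Finset α)
    (u N L τ : ℤ) (n : ℕ), Nums u N L τ n →
    ∀ (z1 z2 : ℤ × ℤ) (sU1 sL1 sU2 sL2 : ℤ) (Q1 E1 Q2 E2 : Finset (ℤ × ℤ))
      (bU1 bL1 bU2 bL2 : ℕ → ℤ × ℤ), SideD z1 u N L τ sU1 sL1 n Q1 E1 bU1 bL1 →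
    SideD z2 u N L τ sU2 sL2 n Q2 E2 bU2 bL2 →
    ∀ (f1 f2 : ℤ × ℤ → α) (g : ℕ → α), (∀ l ∈ E1, ∀ l' ∈ E1, f1 l = f1 l' → l = l') →
    (∀ l ∈ E2, ∀ l' ∈ E2, f2 l = f2 l' → l = l') → (∀ l ∈ E1, f1 l ∈ Ω) → (∀ l ∈ E2, f2 l ∈ Ω) →
    (∀ j, j < n → g j ∈ Ω) → (∀ l ∈ E1, ∀ l' ∈ E2, f1 l ≠ f2 l') →
    (∀ l ∈ E1, ∀ j, j < n → f1 l ≠ g j) → (∀ l ∈ E2, ∀ j, j < n → f2 l ≠ g j) →
    c ≤ Pr Ω (BlkU n u L z1 z2 E1 E2 bU1 bL1 bU2 bL2 f1 f2 g) := by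
  obtain ⟨a, ha, M, hM, ht⟩ := side_touch
  obtain ⟨c0, hc0, hF⟩ := FF_prob
  refine ⟨bc2 a M c0 (1 / 2), bc2_pos ha (by linarith) hc0 (by norm_num), ?_⟩
  intro α _ Ω u N L τ n H z1 z2 sU1 sL1 sU2 sL2 Q1 E1 Q2 E2 bU1 bL1 bU2 bL2 S1 S2 f1 f2 g
    i1 i2 m1 m2 m3 d12 d13 d23
  have T1 := ht z1 u N L τ sU1 sL1 n Q1 E1 bU1 bL1 H S1 (fun _ => 1 / 2) (fun _ _ => rfl)
  have T2 := ht z2 u N L τ sU2 sL2 n Q2 E2 bU2 bL2 H S2 (fun _ => 1 / 2) (fun _ _ => rfl)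
  have hq : Wt (fun _ : α => (1 / 2 : ℝ)) := fun _ => ⟨by norm_num, by norm_num⟩
  have s1 : E1.image f1 ⊆ Ω := by
    intro x hx; obtain ⟨l, hl, rfl⟩ := mem_image.1 hx; exact m1 l hl
  have s2 : E2.image f2 ⊆ Ω := by
    intro x hx; obtain ⟨l, hl, rfl⟩ := mem_image.1 hx; exact m2 l hl
  have s3 : (range n).image g ⊆ Ω := by
    intro x hx; obtain ⟨l, hl, rfl⟩ := mem_image.1 hx; exact m3 l (mem_range.1 hl)
  have D12 : Disjoint (E1.image f1) (E2.image f2) := by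
    rw [disjoint_left]
    rintro x h1 h2
    obtain ⟨l, hl, rfl⟩ := mem_image.1 h1
    obtain ⟨l', hl', h⟩ := mem_image.1 h2
    exact d12 l hl l' hl' h.symm
  have D3 : ∀ (E : Finset (ℤ × ℤ)) (f : ℤ × ℤ → α), (∀ l ∈ E, ∀ j, j < n → f l ≠ g j) →
      Disjoint (E.image f) ((range n).image g) := by
    intro E f k1
    rw [disjoint_left]
    rintro x h1 h2
    obtain ⟨l, hl, rfl⟩ := mem_image.1 h1
    obtain ⟨l', hl', h⟩ := mem_image.1 h2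
    exact k1 l hl l' (mem_range.1 hl') h.symm
  have pF : ∀ (z : ℤ × ℤ) (sU sL : ℤ) (Q E : Finset (ℤ × ℤ)) (bU bL : ℕ → ℤ × ℤ)
      (f : ℤ × ℤ → α), SideD z u N L τ sU sL n Q E bU bL →
      (∀ l ∈ E, ∀ l' ∈ E, f l = f l' → l = l') →
      c0 ≤ PQ (fun _ : α => 1 / 2) (E.image f) (fun ω => FF Q E τ z u (up E f ω)) := by
    intro z sU sL Q E bU bL f S hi
    rw [PQ_half (fun _ _ => rfl)]
    have e1 : Pr (E.image f) (fun ω => FF Q E τ z u (up E f ω)) = Pr E (FF Q E τ z u) :=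
      PB_inj hi (FF Q E τ z u)
    rw [e1, ← hf_Pr]
    have g1 := H.hL
    have g2 := H.hLN
    have g3 := H.hτ
    have g4 := H.hτL
    have g5 := H.hNu
    exact hF hf hf_Qh (z.1 + z.2) τ Q E S.st z u rfl g3 (by omega) (by omega)
      ((Pool.Agent.H91.W.BR_mono (by omega)).trans S.hQ)
  have key := block_prob2 hq s1 s2 s3 D12 (D3 E1 f1 d13) (D3 E2 f2 d23)
    (a := a) (M := M) (c0 := c0) (p0 := 1 / 2)
    ha.le (by linarith) (by norm_num) hc0.le H.hn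
    (Au := fun i ω => PlT 1 E1 (bU1 i) L (9 * u) (up E1 f1 ω))
    (Al := fun i ω => PlT 1 E1 (bL1 i) L (9 * u) (up E1 f1 ω))
    (Bu := fun i ω => PlT 1 E2 (bU2 i) L (9 * u) (up E2 f2 ω))
    (Bl := fun i ω => PlT 1 E2 (bL2 i) L (9 * u) (up E2 f2 ω))
    (C := fun _ _ => True) (D := fun j ω => g j ∈ ω)
    (F := fun ω => FF Q1 E1 τ z1 u (up E1 f1 ω)) (G := fun ω => FF Q2 E2 τ z2 u (up E2 f2 ω))
    (U := fun i j ω => UPt z1 u L E1 (bU1 i) (bL1 j) (up E1 f1 ω))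
    (V := fun i j ω => UPt z2 u L E2 (bU2 i) (bL2 j) (up E2 f2 ω))
    (T1.1.of_inj i1) (T1.2.of_inj i1) (T2.1.of_inj i2) (T2.2.of_inj i2)
    (fun _ _ _ _ _ => trivial)
    (fun j hj => by rw [PQ_true]; norm_num)
    (fun j ω ω' hs h => hs h)
    (fun j hj => by
      rw [PQ_half (fun _ _ => rfl), Pr_mem (mem_image_of_mem g (mem_range.2 hj))])
    (fun ω ω' hs h => FF_inc _ _ (up_mono hs) h) (pF z1 sU1 sL1 Q1 E1 bU1 bL1 f1 S1 i1)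
    (fun ω ω' hs h => FF_inc _ _ (up_mono hs) h) (pF z2 sU2 sL2 Q2 E2 bU2 bL2 f2 S2 i2)
    (fun i j hi hj ω _ h1 h2 h3 => side_glue H S1 hi hj h1 h2 h3)
    (fun i j hi hj ω _ h1 h2 h3 => side_glue H S2 hi hj h1 h2 h3)
  rw [PQ_half (fun _ _ => rfl)] at key
  refine key.trans (Pr_mono fun ω _ h => ?_)
  obtain ⟨i, hi, j, hj, h1, h2, h3, h4⟩ := h
  rw [up_inter_image] at h1 h2
  exact ⟨i, hi, j, hj, h1, h2, (mem_inter.1 h3).1⟩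

end Pool.Agent.H51.W
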