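import Mathlib
import Pool.Agent.H60.Q1.Sep

set_option autoImplicit false
open Finset

/-! # Route W: planarity of a blocking circuit

Tile frame: the label `l` is the tile `x = (l.1 + l.2 - 1) / 2`, `y = (l.2 - l.1 - 1) / 2`; the labels
`(x, x + 1)` are the tiles of the row `y = 0`.

* `co_cycle_row` : the edges of a connection mod 2, with the number of tiles of the row `0`.
* `rect_co` : two vertices of a solid rectangle of tiles are connected inside the rectangle.
* `ring_block` : an open circuit which consists of a path above the row `0`, a path below the row `0`,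
  and two paths through the row on the left and on the right of the origin, stops all dual paths. -/

namespace Pool.Agent.H51.W

open Pool.Agent.H75.Perc Pool.Agent.H75.TwoArm Pool.Agent.H75.Four Pool.Agent.H75.Four.PivAux
open Pool.Agent.H60.Q1

/-- the vertex is above the row `0` -/
def abv (v : ℤ × ℤ) : ZMod 2 := if 1 ≤ v.2 - v.1 then 1 else 0

lemma abv_step {b c : ℤ × ℤ} (h : IsUnit4 (c - b)) :
    abv b + abv c = if (b + c).2 = (b + c).1 + 1 then 1 else 0 := by
  have h1 := unit_cases h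
  unfold abv
  simp only [Prod.fst_add, Prod.snd_add]
  split_ifs <;> first | (exfalso; omega) | rfl

/-- edges used by a connection, mod 2, with the number of tiles of the row `0` -/
lemma co_cycle_row {ω : Finset (ℤ × ℤ)} {u v : ℤ × ℤ} {A B : ℤ} (h : Co ω u v)
    (hr : ∀ l ∈ ω, l.2 = l.1 + 1 → A ≤ l.1 ∧ l.1 < B) :
    ∃ n : ℤ × ℤ → ZMod 2, (∀ a, n a ≠ 0 → a ∈ ω) ∧ (∀ w, dg n w = id1 u w + id1 v w) ∧
      ∑ x ∈ Ico A B, n (x, x + 1) = abv u + abv v := by
  induction h with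
  | refl =>
    exact ⟨fun _ => 0, fun a ha => absurd rfl ha, fun w => by simp [dg, zmod2_add_self], by
      rw [sum_const_zero, zmod2_add_self]⟩
  | @tail b c _ hbc ih =>
    obtain ⟨n, hn1, hn2, hn3⟩ := ih
    refine ⟨fun a => n a + id1 (b + c) a, fun a ha => ?_, fun w => ?_, ?_⟩
    · by_cases h1 : n a = 0
      · simp only [h1, zero_add] at ha
        unfold id1 at ha
        have h2 : a = b + c := by
          by_contra h3
          rw [if_neg h3] at ha
          exact ha rfl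
        rw [h2]; exact hbc.2
      · exact hn1 a h1
    · rw [dg_add, hn2, dg_edge hbc.1]
      generalize id1 u w = a
      generalize id1 b w = b'
      generalize id1 c w = c'
      revert a b' c'; decide
    · rw [sum_add_distrib, hn3]
      have h4 : ∑ x ∈ Ico A B, id1 (b + c) (x, x + 1) = abv b + abv c := by
        rw [abv_step hbc.1]
        by_cases h5 : (b + c).2 = (b + c).1 + 1
        · rw [if_pos h5]
          have h6 := hr _ hbc.2 h5
          rw [sum_eq_single (b + c).1]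
          · unfold id1
            rw [if_pos (show ((b + c).1, (b + c).1 + 1) = b + c from Prod.ext rfl h5.symm)]
          · intro x _ hx
            unfold id1
            rw [if_neg fun h7 => hx (congrArg Prod.fst h7)]
          · intro h7
            exact absurd (mem_Ico.2 h6) h7
        · rw [if_neg h5]
          refine sum_eq_zero fun x _ => ?_
          unfold id1
          rw [if_neg]
          intro h7
          have h8 := congrArg Prod.fst h7
          have h9 := congrArg Prod.snd h7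
          simp only at h8 h9
          exact h5 (by omega)
      rw [h4]
      generalize abv u = a
      generalize abv b = b'
      generalize abv c = c'
      revert a b' c'; decide

/-- the face to the left of the tile `x` of the row `0` -/
def phi (x : ℤ) : ℤ × ℤ := ((x + 1) / 2, x / 2 + 1)

lemma phi_step (x : ℤ) : IsUnit4 (phi (x + 1) - phi x) ∧ phi x + phi (x + 1) - (1, 1) = (x, x + 1) := by
  unfold phi
  constructor
  · unfold IsUnit4
    simp only [Prod.ext_iff, Prod.fst_sub, Prod.snd_sub]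
    omega
  · refine Prod.ext ?_ ?_ <;> simp only [Prod.fst_sub, Prod.snd_sub, Prod.fst_add, Prod.snd_add] <;>
      omega

lemma row_colour {n S : ℤ × ℤ → ZMod 2}
    (hS : ∀ f g : ℤ × ℤ, IsUnit4 (g - f) → S f + S g = n (f + g - (1, 1))) {A X : ℤ} (h : A ≤ X) :
    S (phi X) = S (phi A) + ∑ x ∈ Ico A X, n (x, x + 1) := by
  have key : ∀ k : ℕ, S (phi (A + k)) = S (phi A) + ∑ x ∈ Ico A (A + k), n (x, x + 1) := by
    intro k
    induction k with
    | zero => simp
    | succ k ih =>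
      have h1 := phi_step (A + k)
      have h2 := hS _ _ h1.1
      rw [h1.2] at h2
      have h3 : Ico A (A + ((k + 1 : ℕ) : ℤ)) = insert (A + (k : ℤ)) (Ico A (A + k)) := by
        ext x
        rw [mem_insert, mem_Ico, mem_Ico]
        push_cast
        omega
      rw [h3, sum_insert (by rw [mem_Ico]; omega), ← h2, show A + ((k + 1 : ℕ) : ℤ) = A + k + 1 by
        push_cast; ring]
      rw [ih]
      generalize S (phi A) = a
      generalize ∑ x ∈ Ico A (A + (k : ℤ)), n (x, x + 1) = b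
      generalize S (phi (A + k + 1)) = c
      revert a b c; decide
  have := key (X - A).toNat
  rwa [Int.toNat_of_nonneg (by omega), show A + (X - A) = X by ring] at this

/-- the face colouring is constant in a box without edges -/
lemma in_const {a b c d : ℤ} {n S : ℤ × ℤ → ZMod 2} (hn : ∀ l, l ∈ Bx a b c d → n l = 0)
    (hS : ∀ f g : ℤ × ℤ, IsUnit4 (g - f) → S f + S g = n (f + g - (1, 1))) {f g : ℤ × ℤ}
    (hf : (a + 1 ≤ f.1 ∧ f.1 ≤ b) ∧ (c + 1 ≤ f.2 ∧ f.2 ≤ d))
    (hg : (a + 1 ≤ g.1 ∧ g.1 ≤ b) ∧ (c + 1 ≤ g.2 ∧ g.2 ≤ d)) : S f = S g := by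
  have hz : ∀ x y : ZMod 2, x + y = 0 → x = y := by decide
  have hH : ∀ i j : ℤ, a + 1 ≤ i → i + 1 ≤ b → c + 1 ≤ j → j ≤ d → S (i, j) = S (i + 1, j) := by
    intro i j h1 h2 h3 h4
    apply hz
    rw [hS _ _ (by unfold IsUnit4; simp [Prod.ext_iff])]
    apply hn
    rw [mem_Bx]
    simp only [Prod.mk_add_mk, Prod.mk_sub_mk]
    omega
  have hV : ∀ i j : ℤ, a + 1 ≤ i → i ≤ b → c + 1 ≤ j → j + 1 ≤ d → S (i, j) = S (i, j + 1) := by
    intro i j h1 h2 h3 h4
    apply hz
    rw [hS _ _ (by unfold IsUnit4; simp [Prod.ext_iff])]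
    apply hn
    rw [mem_Bx]
    simp only [Prod.mk_add_mk, Prod.mk_sub_mk]
    omega
  have kH : ∀ (m : ℕ) (i j : ℤ), a + 1 ≤ i → i + m ≤ b → c + 1 ≤ j → j ≤ d →
      S (i, j) = S (i + m, j) := by
    intro m
    induction m with
    | zero => intro i j _ _ _ _; simp
    | succ m ih =>
      intro i j h1 h2 h3 h4
      push_cast at h2 ⊢
      rw [ih i j h1 (by omega) h3 h4, hH (i + m) j (by omega) (by omega) h3 h4]
      congr 2
      ring
  have kV : ∀ (m : ℕ) (i j : ℤ), a + 1 ≤ i → i ≤ b → c + 1 ≤ j → j + m ≤ d →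
      S (i, j) = S (i, j + m) := by
    intro m
    induction m with
    | zero => intro i j _ _ _ _; simp
    | succ m ih =>
      intro i j h1 h2 h3 h4
      push_cast at h4 ⊢
      rw [ih i j h1 h2 h3 (by omega), hV i (j + m) h1 h2 (by omega) (by omega)]
      congr 2
      ring
  have base : ∀ f : ℤ × ℤ, (a + 1 ≤ f.1 ∧ f.1 ≤ b) ∧ (c + 1 ≤ f.2 ∧ f.2 ≤ d) →
      S f = S (a + 1, c + 1) := by
    rintro ⟨i, j⟩ ⟨⟨h1, h2⟩, h3, h4⟩
    simp only at h1 h2 h3 h4
    have e1 := kH (i - (a + 1)).toNat (a + 1) j le_rfl (by omega) h3 h4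
    have e2 := kV (j - (c + 1)).toNat (a + 1) (c + 1) le_rfl (by omega) le_rfl (by omega)
    rw [Int.toNat_of_nonneg (by omega), show a + 1 + (i - (a + 1)) = i by ring] at e1
    rw [Int.toNat_of_nonneg (by omega), show c + 1 + (j - (c + 1)) = j by ring] at e2
    rw [← e1, ← e2]
  rw [base f hf, base g hg]

/-! ### Solid rectangles -/

/-- labels of the tiles `x0 ≤ x < x1`, `y0 ≤ y < y1` -/
noncomputable def RT (x0 x1 y0 y1 : ℤ) : Finset (ℤ × ℤ) :=
  (Ico x0 x1 ×ˢ Ico y0 y1).image fun p => (p.1 - p.2, p.1 + p.2 + 1)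

lemma mem_RT {x0 x1 y0 y1 : ℤ} {l : ℤ × ℤ} : l ∈ RT x0 x1 y0 y1 ↔
    (l.1 + l.2) % 2 = 1 ∧ (x0 ≤ (l.1 + l.2 - 1) / 2 ∧ (l.1 + l.2 - 1) / 2 < x1) ∧
      (y0 ≤ (l.2 - l.1 - 1) / 2 ∧ (l.2 - l.1 - 1) / 2 < y1) := by
  unfold RT
  rw [mem_image]
  constructor
  · rintro ⟨⟨x, y⟩, h, rfl⟩
    rw [mem_product, mem_Ico, mem_Ico] at h
    simp only at h ⊢
    omega
  · rintro ⟨h1, h2, h3⟩
    refine ⟨((l.1 + l.2 - 1) / 2, (l.2 - l.1 - 1) / 2), ?_, ?_⟩
    · rw [mem_product, mem_Ico, mem_Ico]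
      exact ⟨h2, h3⟩
    · refine Prod.ext ?_ ?_ <;> simp only <;> omega

/-- vertex with the tile coordinates `x`, `y`, `x + y` even -/
def vt (x y : ℤ) : ℤ × ℤ := ((x - y) / 2, (x + y) / 2)

lemma ad_vt {x0 x1 y0 y1 x y : ℤ} (hp : (x + y) % 2 = 0) {s t : ℤ} (hs : s = 1 ∨ s = -1)
    (ht : t = 1 ∨ t = -1) (h1 : x0 ≤ x ∧ x ≤ x1) (h2 : x0 ≤ x + s ∧ x + s ≤ x1)
    (h3 : y0 ≤ y ∧ y ≤ y1) (h4 : y0 ≤ y + t ∧ y + t ≤ y1) :
    Ad (RT x0 x1 y0 y1) (vt x y) (vt (x + s) (y + t)) := by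
  unfold Ad vt IsUnit4
  rw [mem_RT]
  simp only [Prod.ext_iff, Prod.fst_sub, Prod.snd_sub, Prod.fst_add, Prod.snd_add]
  rcases hs with rfl | rfl <;> rcases ht with rfl | rfl <;> omega

lemma co_ver {x0 x1 y0 y1 x y : ℤ} (hx : x0 < x1) (hp : (x + y) % 2 = 0) (h1 : x0 ≤ x ∧ x ≤ x1) :
    ∀ k : ℕ, y ≤ y1 → y0 ≤ y - 2 * k → Co (RT x0 x1 y0 y1) (vt x y) (vt x (y - 2 * k)) := by
  intro k
  induction k with
  | zero => intro _ _; simpa using Co.refl _ _
  | succ k ih =>
    intro h2 h3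
    push_cast at h3 ⊢
    refine (ih h2 (by omega)).trans ?_
    rcases lt_or_ge x x1 with h4 | h4
    · have a1 := ad_vt (x0 := x0) (x1 := x1) (y0 := y0) (y1 := y1) (x := x) (y := y - 2 * k)
        (by omega) (Or.inl rfl) (Or.inr rfl) h1 (by omega) (by omega) (by omega)
      have a2 := ad_vt (x0 := x0) (x1 := x1) (y0 := y0) (y1 := y1) (x := x + 1)
        (y := y - 2 * k + -1) (by omega) (Or.inr rfl) (Or.inr rfl) (by omega) (by omega)
        (by omega) (by omega)
      rw [show x + 1 + -1 = x by ring, show y - 2 * (k : ℤ) + -1 + -1 = y - 2 * (k + 1) by ring] at a2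
      exact (Relation.ReflTransGen.single a1).tail a2
    · have a1 := ad_vt (x0 := x0) (x1 := x1) (y0 := y0) (y1 := y1) (x := x) (y := y - 2 * k)
        (by omega) (Or.inr rfl) (Or.inr rfl) h1 (by omega) (by omega) (by omega)
      have a2 := ad_vt (x0 := x0) (x1 := x1) (y0 := y0) (y1 := y1) (x := x + -1)
        (y := y - 2 * k + -1) (by omega) (Or.inl rfl) (Or.inr rfl) (by omega) (by omega)
        (by omega) (by omega)
      rw [show x + -1 + 1 = x by ring, show y - 2 * (k : ℤ) + -1 + -1 = y - 2 * (k + 1) by ring] at a2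
      exact (Relation.ReflTransGen.single a1).tail a2

lemma co_hor {x0 x1 y0 y1 x y : ℤ} (hy : y0 < y1) (hp : (x + y) % 2 = 0) (h1 : y0 ≤ y ∧ y ≤ y1) :
    ∀ k : ℕ, x ≤ x1 → x0 ≤ x - 2 * k → Co (RT x0 x1 y0 y1) (vt x y) (vt (x - 2 * k) y) := by
  intro k
  induction k with
  | zero => intro _ _; simpa using Co.refl _ _
  | succ k ih =>
    intro h2 h3
    push_cast at h3 ⊢
    refine (ih h2 (by omega)).trans ?_
    rcases lt_or_ge y y1 with h4 | h4
    · have a1 := ad_vt (x0 := x0) (x1 := x1) (y0 := y0) (y1 := y1) (x := x - 2 * k) (y := y)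
        (by omega) (Or.inr rfl) (Or.inl rfl) (by omega) (by omega) (by omega) (by omega)
      have a2 := ad_vt (x0 := x0) (x1 := x1) (y0 := y0) (y1 := y1) (x := x - 2 * k + -1)
        (y := y + 1) (by omega) (Or.inr rfl) (Or.inr rfl) (by omega) (by omega)
        (by omega) (by omega)
      rw [show y + 1 + -1 = y by ring, show x - 2 * (k : ℤ) + -1 + -1 = x - 2 * (k + 1) by ring] at a2
      exact (Relation.ReflTransGen.single a1).tail a2
    · have a1 := ad_vt (x0 := x0) (x1 := x1) (y0 := y0) (y1 := y1) (x := x - 2 * k) (y := y)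
        (by omega) (Or.inr rfl) (Or.inr rfl) (by omega) (by omega) (by omega) (by omega)
      have a2 := ad_vt (x0 := x0) (x1 := x1) (y0 := y0) (y1 := y1) (x := x - 2 * k + -1)
        (y := y + -1) (by omega) (Or.inr rfl) (Or.inl rfl) (by omega) (by omega)
        (by omega) (by omega)
      rw [show y + -1 + 1 = y by ring, show x - 2 * (k : ℤ) + -1 + -1 = x - 2 * (k + 1) by ring] at a2
      exact (Relation.ReflTransGen.single a1).tail a2

/-- **two vertices of a solid rectangle of tiles are connected inside the rectangle** -/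
theorem rect_co {x0 x1 y0 y1 x y x' y' : ℤ} (hx : x0 < x1) (hy : y0 < y1)
    (hp : (x + y) % 2 = 0) (hp' : (x' + y') % 2 = 0) (hq : (y' - y) % 2 = 0)
    (h1 : x0 ≤ x ∧ x ≤ x1) (h2 : y0 ≤ y ∧ y ≤ y1) (h3 : x0 ≤ x' ∧ x' ≤ x1)
    (h4 : y0 ≤ y' ∧ y' ≤ y1) : Co (RT x0 x1 y0 y1) (vt x y) (vt x' y') := by
  have k1 : Co (RT x0 x1 y0 y1) (vt x y) (vt x y') := by
    rcases le_total y' y with h | h
    · have := co_ver (y0 := y0) (y1 := y1) hx hp h1 ((y - y') / 2).toNat h2.2 (by omega)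
      rwa [show y - 2 * (((y - y') / 2).toNat : ℤ) = y' by omega] at this
    · have := co_ver (y0 := y0) (y1 := y1) (y := y') hx (x := x) (by omega) h1
        ((y' - y) / 2).toNat h4.2 (by omega)
      rw [show y' - 2 * (((y' - y) / 2).toNat : ℤ) = y by omega] at this
      exact this.symm
  refine k1.trans ?_
  rcases le_total x' x with h | h
  · have := co_hor (x0 := x0) (x1 := x1) hy (x := x) (y := y') (by omega) h4
      ((x - x') / 2).toNat h1.2 (by omega)
    rwa [show x - 2 * (((x - x') / 2).toNat : ℤ) = x' by omega] at this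
  · have := co_hor (x0 := x0) (x1 := x1) hy (x := x') (y := y') (by omega) h4
      ((x' - x) / 2).toNat h3.2 (by omega)
    rw [show x' - 2 * (((x' - x) / 2).toNat : ℤ) = x by omega] at this
    exact this.symm

/-! ### The circuit -/

/-- **An open circuit round the origin stops all dual paths.** -/
theorem ring_block {F ω P1 P2 PL PR : Finset (ℤ × ℤ)} {a b c d f g : ℤ × ℤ} {ρ R : ℤ}
    (hρ : 1 ≤ ρ) (hρR : ρ ≤ R)
    (h1 : Co P1 a b) (h2 : Co P2 c d) (hL : Co PL a c) (hR : Co PR b d)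
    (w1 : P1 ⊆ ω) (w2 : P2 ⊆ ω) (wL : PL ⊆ ω) (wR : PR ⊆ ω)
    (o : ∀ l, l ∈ P1 ∨ l ∈ P2 ∨ l ∈ PL ∨ l ∈ PR → l ∈ Bx (-R) R (-R) R ∧ l ∉ Bx (-ρ) ρ (-ρ) ρ)
    (r1 : ∀ l ∈ P1, l.2 ≠ l.1 + 1) (r2 : ∀ l ∈ P2, l.2 ≠ l.1 + 1)
    (rL : ∀ l ∈ PL, l.2 = l.1 + 1 → l.1 < 0) (rR : ∀ l ∈ PR, l.2 = l.1 + 1 → 0 ≤ l.1)
    (ha : 1 ≤ a.2 - a.1) (hc : c.2 - c.1 ≤ 0)
    (hf : (-ρ + 1 ≤ f.1 ∧ f.1 ≤ ρ) ∧ (-ρ + 1 ≤ f.2 ∧ f.2 ≤ ρ)) (hg : Out (-R) R (-R) R g) :
    ¬ Co (du F ω) f g := by
  intro hdu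
  -- the four parts
  obtain ⟨n1, a1, b1⟩ := co_cycle h1
  obtain ⟨n2, a2, b2⟩ := co_cycle h2
  obtain ⟨nR, a4, b4⟩ := co_cycle hR
  obtain ⟨nL, a3, b3, c3⟩ := co_cycle_row (A := -(2 * R) - 2) (B := 0) hL (fun l hl h => by
    have k1 := mem_Bx.1 (o l (Or.inr (Or.inr (Or.inl hl)))).1
    have k2 := rL l hl h
    omega)
  set n : ℤ × ℤ → ZMod 2 := fun l => n1 l + (n2 l + (nL l + nR l)) with hn
  have hn0 : ∀ l, n l ≠ 0 → l ∈ P1 ∨ l ∈ P2 ∨ l ∈ PL ∨ l ∈ PR := by
    intro l hl
    by_contra h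
    rw [not_or, not_or, not_or] at h
    obtain ⟨g1, g2, g3, g4⟩ := h
    have e1 : n1 l = 0 := by_contra fun h => g1 (a1 l h)
    have e2 : n2 l = 0 := by_contra fun h => g2 (a2 l h)
    have e3 : nL l = 0 := by_contra fun h => g3 (a3 l h)
    have e4 : nR l = 0 := by_contra fun h => g4 (a4 l h)
    apply hl
    rw [hn]
    simp only [e1, e2, e3, e4, add_zero]
  have hB : ∀ l, n l ≠ 0 → l ∈ Bx (-R) R (-R) R := fun l hl => (o l (hn0 l hl)).1
  have hfin : {l : ℤ × ℤ | n l ≠ 0}.Finite :=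
    (Bx (-R) R (-R) R).finite_toSet.subset fun l hl => hB l hl
  have hdeg : ∀ w, dg n w = 0 := by
    intro w
    rw [hn, dg_add, dg_add n2 (fun l => nL l + nR l), dg_add nL nR, b1, b2, b3, b4]
    generalize id1 a w = p
    generalize id1 b w = q
    generalize id1 c w = r
    generalize id1 d w = s
    revert p q r s; decide
  obtain ⟨S, hS⟩ := even_faces n hfin hdeg
  have hin : S f = S (phi 0) := by
    refine in_const (a := -ρ) (b := ρ) (c := -ρ) (d := ρ) (n := n) ?_ hS hf ?_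
    · intro l hl
      by_contra h
      exact (o l (hn0 l h)).2 hl
    · unfold phi
      simp only
      omega
  have hout : S g = S (phi (-(2 * R) - 2)) := by
    refine out_const hB hS hg ?_
    unfold Out phi
    simp only
    omega
  have hrow := row_colour hS (A := -(2 * R) - 2) (X := 0) (by omega)
  have hsum : ∑ x ∈ Ico (-(2 * R) - 2) 0, n (x, x + 1) = 1 := by
    have e1 : ∑ x ∈ Ico (-(2 * R) - 2) 0, n (x, x + 1) = ∑ x ∈ Ico (-(2 * R) - 2) 0, nL (x, x + 1) := by
      refine sum_congr rfl fun x hx => ?_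
      rw [mem_Ico] at hx
      have e1 : n1 (x, x + 1) = 0 := by_contra fun h => r1 _ (a1 _ h) rfl
      have e2 : n2 (x, x + 1) = 0 := by_contra fun h => r2 _ (a2 _ h) rfl
      have e4 : nR (x, x + 1) = 0 := by_contra fun h => by
        have := rR _ (a4 _ h) rfl
        simp only at this
        omega
      rw [hn]
      simp only [e1, e2, e4, zero_add, add_zero]
    rw [e1, c3]
    unfold abv
    rw [if_pos ha, if_neg (by omega), add_zero]
  have hcol := colour_path (E := F) (ω := ω) hS (fun l _ hl => by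
    by_contra h
    rcases hn0 l h with h | h | h | h
    · exact hl (w1 h)
    · exact hl (w2 h)
    · exact hl (wL h)
    · exact hl (wR h)) hdu
  rw [hsum] at hrow
  rw [hin, hout, hrow] at hcol
  revert hcol
  generalize S (phi (-(2 * R) - 2)) = s
  revert s; decide

end Pool.Agent.H51.W
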