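import Mathlib
import Pool.Agent.H51.W.Canon2
import Pool.Agent.H51.W.Ring

set_option autoImplicit false
open Finset

/-! # Route W: a horizontal wedge chain of plates at the tile level

Tile of the label `e`: `tX e = (e.1 + e.2 - 1) / 2`, `tY e = (e.2 - e.1 - 1) / 2`. The chain is to the
left of `Xo`: the plate `p` has the columns `Xo - (p+1) W ≤ x < Xo - p W` and the rows `-T ≤ y < T`,
`T = t0 + s p`, `W = 2 N`. Both rooms have the same canonical form `CE` (rows `y ≥ T x`, wall through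
`z = (t0, 0)`), with the maps `(e.1, e.2) ↦ (e.2, -e.1)` (upper room), `(e.1, -e.2)` (lower room). -/

namespace Pool.Agent.H51.W

open Pool.Agent.H75.Perc Pool.Agent.H75.TwoArm Pool.Agent.H75.Four Pool.Agent.H49.Perc
open Pool.Agent.H69.NC Pool.Agent.H99.NC Pool.Agent.H60.Q1 Pool.Agent.H20.Q1 Pool.Agent.H59.Q1
open Pool.Agent.Q1.M6e Pool.Agent.H91.W

/-- half thickness of the chain in the column `x` -/
def cT (Xo W t0 s x : ℤ) : ℤ := t0 + s * ((Xo - 1 - x) / W)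

/-- canonical room -/
noncomputable def CE (Xo W t0 s u : ℤ) : Finset (ℤ × ℤ) :=
  (BR (t0, 0) (30 * u)).filter fun l => cT Xo W t0 s ((l.1 - l.2 - 1) / 2) ≤ (l.1 + l.2 - 1) / 2

lemma mem_CE {Xo W t0 s u : ℤ} {l : ℤ × ℤ} : l ∈ CE Xo W t0 s u ↔ l ∈ BR (t0, 0) (30 * u) ∧
    cT Xo W t0 s ((l.1 - l.2 - 1) / 2) ≤ (l.1 + l.2 - 1) / 2 := by
  unfold CE; rw [mem_filter]

/-- centre of the upper bank of the plate `p`, canonical frame -/
def cb (Xo W N t0 s p : ℤ) : ℤ × ℤ :=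
  ((t0 + s * p + (Xo - p * W - N)) / 2, t0 + s * p - (t0 + s * p + (Xo - p * W - N)) / 2)

/-- numbers of the chain at the scale `u` -/
structure ChN (Xo W t0 s N L τ u : ℤ) (n : ℕ) : Prop where
  num : Nums u N L τ n
  hn3 : (n : ℤ) * N + N ≤ 2 * u
  hW : W = 2 * N
  hL : 2 * L + 1 ≤ N
  t1 : 1 ≤ t0
  s0 : 0 ≤ s
  tu : t0 ≤ N
  hX : 64 * u ≤ Xo
  th : ∀ x, -(64 * u) ≤ x → s * ((Xo - 1 - x) / W) ≤ τ

variable {Xo W t0 s N L τ u : ℤ} {n : ℕ}

lemma idx_eq (hW : 0 < W) {x p : ℤ} :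
    (Xo - 1 - x) / W = p ↔ Xo - (p * W + W) ≤ x ∧ x < Xo - p * W := by
  rw [Int.ediv_eq_iff_of_pos hW]
  omega

lemma ChN.W0 (H : ChN Xo W t0 s N L τ u n) : 0 < W := by
  have := H.hW
  have := H.num.hL
  have := H.num.hLN
  omega

/-- the number of the first plate of a row -/
def cP (Xo W N t0 σ : ℤ) : ℤ := (Xo - N - t0 - σ) / W

lemma ChN.row (H : ChN Xo W t0 s N L τ u n) {σ : ℤ} :
    2 * σ ≤ Xo - cP Xo W N t0 (2 * σ) * W - N - t0 ∧
      Xo - cP Xo W N t0 (2 * σ) * W - N - t0 < 2 * σ + W := by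
  have h1 := Int.ediv_mul_le (Xo - N - t0 - 2 * σ) H.W0.ne'
  have h2 := Int.lt_ediv_add_one_mul_self (Xo - N - t0 - 2 * σ) H.W0
  have h3 : ((Xo - N - t0 - 2 * σ) / W + 1) * W = (Xo - N - t0 - 2 * σ) / W * W + W := by ring
  unfold cP
  omega

/-- the canonical abscissa of the first plate of a row -/
def cS (Xo W N t0 P : ℤ) : ℤ := (Xo - P * W - N - t0) / 2

/-- one plate of a row: facts -/
lemma ChN.plate (H : ChN Xo W t0 s N L τ u n) {P : ℤ} (h1 : -(17 * u) ≤ cS Xo W N t0 P)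
    (h2 : cS Xo W N t0 P + n * N ≤ 17 * u) {i : ℕ} (hi : i < n) :
    0 ≤ P - i ∧ s * (P - i) ≤ τ ∧ 0 ≤ s * (P - i) ∧
      -(36 * u) ≤ Xo - ((P - i) * W + W) ∧ Xo - (P - i) * W ≤ 36 * u ∧
      Xo - (P - i) * W = Xo - P * W + 2 * (i * N) ∧
      (0 ≤ (i : ℤ) * N ∧ (i : ℤ) * N + N ≤ n * N) := by
  have hW := H.hW
  have W0 := H.W0
  have g1 := H.num.hL
  have g2 := H.num.hLN
  have g5 := H.num.hNu
  have g6 := H.num.hn1
  have g7 := H.hn3
  have g8 := H.tu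
  have g9 := H.hX
  have g10 := H.t1
  have e1 : Xo - (P - i) * W = Xo - P * W + 2 * (i * N) := by rw [hW]; ring
  have hiN : 0 ≤ (i : ℤ) * N ∧ (i : ℤ) * N + N ≤ n * N := by
    have a1 : (i : ℤ) + 1 ≤ n := by exact_mod_cast hi
    have a2 : (0 : ℤ) ≤ i := by positivity
    constructor
    · nlinarith
    · nlinarith
  unfold cS at h1 h2
  have h3 : 0 ≤ P - i := by
    by_contra h
    have : (P - i) * W ≤ -1 * W := by
      apply mul_le_mul_of_nonneg_right _ W0.le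
      omega
    omega
  have h4 : (Xo - 1 - (Xo - ((P - i) * W + W))) / W = P - i := by
    rw [idx_eq W0]
    omega
  have h5 := H.th (Xo - ((P - i) * W + W)) (by omega)
  rw [h4] at h5
  refine ⟨h3, h5, mul_nonneg H.s0 h3, ?_, ?_, e1, hiN⟩
  · omega
  · omega

lemma ChN.T_ge (H : ChN Xo W t0 s N L τ u n) {x : ℤ} (hx : x < Xo) : t0 ≤ cT Xo W t0 s x := by
  unfold cT
  have : 0 ≤ (Xo - 1 - x) / W := Int.ediv_nonneg (by omega) H.W0.le
  have := mul_nonneg H.s0 this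
  omega

lemma ChN.T_mono (H : ChN Xo W t0 s N L τ u n) {x x' : ℤ} (hx : x ≤ x') :
    cT Xo W t0 s x' ≤ cT Xo W t0 s x := by
  unfold cT
  have : (Xo - 1 - x') / W ≤ (Xo - 1 - x) / W := Int.ediv_le_ediv H.W0 (by omega)
  have := mul_le_mul_of_nonneg_left this H.s0
  omega

/-- the bank of a plate -/
lemma ChN.hl (H : ChN Xo W t0 s N L τ u n) {p : ℤ} (k1 : s * p ≤ τ) (k2 : 0 ≤ s * p)
    (k3 : -(36 * u) ≤ Xo - (p * W + W)) (k4 : Xo - p * W ≤ 36 * u) :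
    HL 1 (cb Xo W N t0 s p) L ⊆ CE Xo W t0 s u := by
  have hW := H.hW
  have W0 := H.W0
  have g1 := H.num.hL
  have g2 := H.num.hLN
  have g3 := H.num.hτL
  have g4 := H.num.hτ
  have g5 := H.num.hNu
  have g8 := H.tu
  have g9 := H.hL
  have g10 := H.t1
  intro l hl
  rw [mem_HL] at hl
  unfold cb at hl
  simp only [one_mul] at hl
  rw [mem_CE, Pool.Agent.H91.W.mem_BR]
  have h1 : (Xo - 1 - (l.1 - l.2 - 1) / 2) / W = p := by
    rw [idx_eq W0]
    omega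
  unfold cT
  rw [h1]
  simp only
  omega

/-- **The canonical side.** -/
theorem ChN.side (H : ChN Xo W t0 s N L τ u n) :
    SideD (t0, 0) u N L τ (cS Xo W N t0 (cP Xo W N t0 (2 * -(17 * u))))
      (cS Xo W N t0 (cP Xo W N t0 (2 * (15 * u)))) n (BR (t0, 0) (30 * u)) (CE Xo W t0 s u)
      (fun i => cb Xo W N t0 s (cP Xo W N t0 (2 * -(17 * u)) - i))
      (fun i => cb Xo W N t0 s (cP Xo W N t0 (2 * (15 * u)) - i)) := by
  have hW := H.hW
  have W0 := H.W0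
  have g1 := H.num.hL
  have g2 := H.num.hLN
  have g3 := H.num.hτL
  have g4 := H.num.hτ
  have g5 := H.num.hNu
  have g6 := H.hn3
  have g8 := H.tu
  have g9 := H.hL
  have g10 := H.t1
  have g11 := H.hX
  have rU := H.row (σ := -(17 * u))
  have rL := H.row (σ := 15 * u)
  set PU := cP Xo W N t0 (2 * -(17 * u)) with hPU
  set PL := cP Xo W N t0 (2 * (15 * u)) with hPL
  have sU1 : -(17 * u) ≤ cS Xo W N t0 PU := by unfold cS; omega
  have sU2 : cS Xo W N t0 PU + n * N ≤ -(15 * u) := by unfold cS; omega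
  have sL1 : 15 * u ≤ cS Xo W N t0 PL := by unfold cS; omega
  have sL2 : cS Xo W N t0 PL + n * N ≤ 17 * u := by unfold cS; omega
  have near : ∀ (P : ℤ) (i : ℕ), s * (P - i) ≤ τ → 0 ≤ s * (P - i) →
      Xo - (P - i) * W = Xo - P * W + 2 * (i * N) →
      Near (wp 1 (t0, 0) (cS Xo W N t0 P + i * N)) N (cb Xo W N t0 s (P - i)) := by
    intro P i k1 k2 k3
    unfold Near wp cb cS
    rw [abs_le, abs_le]
    simp only [one_mul]
    rw [k3]
    omega
  have hgt : ∀ p : ℤ, 0 ≤ s * p → ((t0, (0 : ℤ)) : ℤ × ℤ).1 + ((t0, (0 : ℤ)) : ℤ × ℤ).2 ≤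
      (cb Xo W N t0 s p).1 + (cb Xo W N t0 s p).2 := by
    intro p hp
    unfold cb
    simp only
    omega
  refine ⟨⟨?_, ?_, ?_⟩, filter_subset _ _, ?_, subset_rfl, sU1, sU2, sL1, sL2, ?_, ?_, ?_, ?_, ?_, ?_⟩
  · intro l hl _
    rw [mem_CE, Pool.Agent.H91.W.mem_BR] at hl
    have := H.T_ge (x := (l.1 - l.2 - 1) / 2) (by simp only at hl; omega)
    simp only at hl ⊢
    omega
  · intro l hl h
    rw [mem_CE]
    refine ⟨hl, ?_⟩
    rw [Pool.Agent.H91.W.mem_BR] at hl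
    have := H.th ((l.1 - l.2 - 1) / 2) (by simp only at hl; omega)
    unfold cT
    simp only at h
    omega
  · intro l hl _ l' hl' h
    rw [mem_CE] at hl ⊢
    refine ⟨hl', ?_⟩
    rw [abs_le] at h
    have := H.T_mono (x := (l.1 - l.2 - 1) / 2) (x' := (l'.1 - l'.2 - 1) / 2) (by omega)
    omega
  · intro l hl
    rw [mem_CE, Pool.Agent.H91.W.mem_BR] at hl
    exact hl.1.2.2
  · intro i hi
    obtain ⟨k0, k1, k2, k3, k4, k5, k6⟩ := H.plate sU1 (by omega) hi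
    exact near _ _ k1 k2 k5
  · intro i hi
    obtain ⟨k0, k1, k2, k3, k4, k5, k6⟩ := H.plate (by omega) sL2 hi
    exact near _ _ k1 k2 k5
  · intro i hi
    obtain ⟨k0, k1, k2, k3, k4, k5, k6⟩ := H.plate sU1 (by omega) hi
    exact hgt _ k2
  · intro i hi
    obtain ⟨k0, k1, k2, k3, k4, k5, k6⟩ := H.plate (by omega) sL2 hi
    exact hgt _ k2
  · intro i hi
    obtain ⟨k0, k1, k2, k3, k4, k5, k6⟩ := H.plate sU1 (by omega) hi
    exact H.hl k1 k2 k3 k4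
  · intro i hi
    obtain ⟨k0, k1, k2, k3, k4, k5, k6⟩ := H.plate (by omega) sL2 hi
    exact H.hl k1 k2 k3 k4

end Pool.Agent.H51.W
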