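import Mathlib
import Pool.Agent.H51.W.Geo

set_option autoImplicit false
open Finset

/-! # Route W: the blocking circuit of the straight chain, in true coordinates

`bt` : block map of the chain at the tile level. `ring_prob` : in every world `F` which contains the
labels of the ring `9 u .. 23 u`, the probability of a dual path from the inner box to the outside is at
most `1 - c`. -/

namespace Pool.Agent.H51.W

open Pool.Agent.H75.Perc Pool.Agent.H75.TwoArm Pool.Agent.H75.Four Pool.Agent.H49.Perc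
open Pool.Agent.H69.NC Pool.Agent.H99.NC Pool.Agent.H60.Q1 Pool.Agent.H20.Q1 Pool.Agent.H59.Q1
open Pool.Agent.Q1.M6e Pool.Agent.H91.W
open Pool.Agent.H58.W (up mem_up up_subset up_mono PB PB_inj Pr_not)

/-- column and row of a label -/
def tX (e : ℤ × ℤ) : ℤ := (e.1 + e.2 - 1) / 2
def tY (e : ℤ × ℤ) : ℤ := (e.2 - e.1 - 1) / 2

/-- the block map of the chain -/
def bt (Xo W t0 s : ℤ) (e : ℤ × ℤ) : (ℤ × ℤ) ⊕ ℤ :=
  if tX e < Xo ∧ -cT Xo W t0 s (tX e) ≤ tY e ∧ tY e < cT Xo W t0 s (tX e) then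
    Sum.inr ((Xo - 1 - tX e) / W) else Sum.inl e

/-- canonical label of the upper room to true label -/
def gU (l : ℤ × ℤ) : ℤ × ℤ := (-l.2, l.1)
/-- canonical label of the lower room to true label -/
def gL (l : ℤ × ℤ) : ℤ × ℤ := (l.1, -l.2)

lemma gU_inj {l l' : ℤ × ℤ} (h : gU l = gU l') : l = l' := by
  unfold gU at h
  rw [Prod.mk.injEq] at h
  exact Prod.ext h.2 (by omega)

lemma gL_inj {l l' : ℤ × ℤ} (h : gL l = gL l') : l = l' := by
  unfold gL at h
  rw [Prod.mk.injEq] at h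
  exact Prod.ext h.1 (by omega)

lemma co_gU {A : Finset (ℤ × ℤ)} {u v : ℤ × ℤ} (h : Co A u v) : Co (A.image gU) (gU u) (gU v) := by
  induction h with
  | refl => exact Co.refl _ _
  | @tail b c _ hbc ih =>
    refine ih.tail ⟨?_, ?_⟩
    · have := unit_cases hbc.1
      unfold gU IsUnit4
      simp only [Prod.ext_iff, Prod.fst_sub, Prod.snd_sub]
      omega
    · have : gU b + gU c = gU (b + c) := by
        unfold gU
        refine Prod.ext ?_ ?_ <;> simp only [Prod.fst_add, Prod.snd_add]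
        ring
      rw [this]
      exact mem_image_of_mem _ hbc.2

lemma co_gL {A : Finset (ℤ × ℤ)} {u v : ℤ × ℤ} (h : Co A u v) : Co (A.image gL) (gL u) (gL v) := by
  induction h with
  | refl => exact Co.refl _ _
  | @tail b c _ hbc ih =>
    refine ih.tail ⟨?_, ?_⟩
    · have := unit_cases hbc.1
      unfold gL IsUnit4
      simp only [Prod.ext_iff, Prod.fst_sub, Prod.snd_sub]
      omega
    · have : gL b + gL c = gL (b + c) := by
        unfold gL
        refine Prod.ext ?_ ?_ <;> simp only [Prod.fst_add, Prod.snd_add]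
        ring
      rw [this]
      exact mem_image_of_mem _ hbc.2

variable {Xo W t0 s N L τ u : ℤ} {n : ℕ} {F : Finset (ℤ × ℤ)} {ω : Finset ((ℤ × ℤ) ⊕ ℤ)}

lemma bt_inl {e e' : ℤ × ℤ} (h : bt Xo W t0 s e = Sum.inl e') : e = e' := by
  unfold bt at h
  split_ifs at h
  exact Sum.inl_injective h

lemma mem_up_of_inl (hω : ω ⊆ F.image (bt Xo W t0 s)) {e : ℤ × ℤ} (h : Sum.inl e ∈ ω) :
    e ∈ up F (bt Xo W t0 s) ω := by
  obtain ⟨e', h1, h2⟩ := mem_image.1 (hω h)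
  have h3 := bt_inl h2
  subst h3
  rw [mem_up, h2]
  exact ⟨h1, h⟩

/-- the plate `p` -/
noncomputable def plR (Xo W t0 s p : ℤ) : Finset (ℤ × ℤ) :=
  RT (Xo - (p * W + W)) (Xo - p * W) (-(t0 + s * p)) (t0 + s * p)

lemma bt_plR (hW : 0 < W) {p : ℤ} (hp : 0 ≤ p) {e : ℤ × ℤ} (h : e ∈ plR Xo W t0 s p) :
    bt Xo W t0 s e = Sum.inr p := by
  unfold plR at h
  rw [mem_RT] at h
  have h1 : (Xo - 1 - tX e) / W = p := by
    rw [idx_eq hW]
    exact h.2.1
  have h2 := mul_nonneg hp hW.le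
  unfold bt cT
  rw [h1, if_pos]
  unfold tX tY
  omega

/-- facts about the plates of the two rows -/
lemma ChN.two (H : ChN Xo W t0 s N L τ u n) {i : ℕ} (hi : i < n) {σ : ℤ}
    (hσ : σ = -(17 * u) ∨ σ = 15 * u) :
    0 ≤ cP Xo W N t0 (2 * σ) - i ∧ s * (cP Xo W N t0 (2 * σ) - i) ≤ τ ∧
      0 ≤ s * (cP Xo W N t0 (2 * σ) - i) ∧
      2 * σ - u ≤ Xo - ((cP Xo W N t0 (2 * σ) - i) * W + W) ∧
      Xo - (cP Xo W N t0 (2 * σ) - i) * W ≤ 2 * σ + 5 * u := by
  have hW := H.hW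
  have W0 := H.W0
  have g1 := H.num.hL
  have g2 := H.num.hLN
  have g5 := H.num.hNu
  have g7 := H.hn3
  have g8 := H.tu
  have g10 := H.t1
  have r := H.row (σ := σ)
  obtain ⟨k0, k1, k2, k3, k4, k5, k6⟩ := H.plate (P := cP Xo W N t0 (2 * σ))
    (by unfold cS; rcases hσ with rfl | rfl <;> omega)
    (by unfold cS; rcases hσ with rfl | rfl <;> omega) hi
  refine ⟨k0, k1, k2, ?_, ?_⟩ <;> omega

/-- vertices of a bank, in the upper room and in the lower room, are joined through the plate -/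
lemma ChN.thru (H : ChN Xo W t0 s N L τ u n) {p : ℤ} (k2 : 0 ≤ s * p) {v w : ℤ × ℤ}
    (hv : Seg (cb Xo W N t0 s p) L v) (hw : Seg (cb Xo W N t0 s p) L w) :
    Co (plR Xo W t0 s p) (gU v) (gL w) := by
  have hW := H.hW
  have W0 := H.W0
  have g10 := H.t1
  have g9 := H.hL
  obtain ⟨h1, h2⟩ := hv
  obtain ⟨h3, h4⟩ := hw
  unfold ht cb at h1 h3
  unfold cb at h2 h4
  rw [abs_le] at h2 h4
  simp only [one_mul] at h1 h2 h3 h4
  have := rect_co (x0 := Xo - (p * W + W)) (x1 := Xo - p * W) (y0 := -(t0 + s * p))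
    (y1 := t0 + s * p) (x := v.1 - v.2) (y := v.1 + v.2) (x' := w.1 - w.2) (y' := -(w.1 + w.2))
    (by omega) (by omega) (by omega) (by omega) (by omega) (by omega) (by omega) (by omega)
    (by omega)
  unfold plR
  convert this using 1
  · unfold gU vt
    refine Prod.ext ?_ ?_ <;> simp only <;> omega
  · unfold gL vt
    refine Prod.ext ?_ ?_ <;> simp only <;> omega

/-- the label of the tile `(x, 0)` -/
def lt0 (x : ℤ) : ℤ × ℤ := (x, x + 1)

/-- the world contains the ring -/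
def RingIn (u : ℤ) (F : Finset (ℤ × ℤ)) : Prop := BR 0 (23 * u) \ BR 0 (9 * u) ⊆ F

/-- **Deterministic part.** -/
theorem ChN.block (H : ChN Xo W t0 s N L τ u n) (hF : RingIn u F)
    (hω : ω ⊆ F.image (bt Xo W t0 s))
    (hB : BlkF n u L (t0, 0) (t0, 0) (CE Xo W t0 s u) (CE Xo W t0 s u)
      (fun i => cb Xo W N t0 s (cP Xo W N t0 (2 * -(17 * u)) - i))
      (fun i => cb Xo W N t0 s (cP Xo W N t0 (2 * (15 * u)) - i))
      (fun i => cb Xo W N t0 s (cP Xo W N t0 (2 * -(17 * u)) - i))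
      (fun i => cb Xo W N t0 s (cP Xo W N t0 (2 * (15 * u)) - i))
      (fun l => Sum.inl (gU l)) (fun l => Sum.inl (gL l))
      (fun i => Sum.inr (cP Xo W N t0 (2 * -(17 * u)) - i))
      (fun i => Sum.inr (cP Xo W N t0 (2 * (15 * u)) - i)) ω) {f g : ℤ × ℤ}
    (hf : (-(9 * u) + 1 ≤ f.1 ∧ f.1 ≤ 9 * u) ∧ (-(9 * u) + 1 ≤ f.2 ∧ f.2 ≤ 9 * u))
    (hg : Out (-(23 * u)) (23 * u) (-(23 * u)) (23 * u) g) :
    ¬ Co (du F (up F (bt Xo W t0 s) ω)) f g := by
  have hW := H.hW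
  have W0 := H.W0
  have g1 := H.num.hL
  have g2 := H.num.hLN
  have g3 := H.num.hτL
  have g4 := H.num.hτ
  have g5 := H.num.hNu
  have g6 := H.hn3
  have g8 := H.tu
  have g9 := H.hL
  have g10 := H.t1
  obtain ⟨i, hi, j, hj, ⟨v, v', q1, q2, q3⟩, ⟨w, w', q4, q5, q6⟩, q7, q8⟩ := hB
  obtain ⟨a0, a1, a2, a3, a4⟩ := H.two hi (Or.inl rfl)
  obtain ⟨b0, b1, b2, b3, b4⟩ := H.two hj (Or.inr rfl)
  beta_reduce at q1 q2 q4 q5 q7 q8
  generalize hp : cP Xo W N t0 (2 * -(17 * u)) - (i : ℤ) = p at q1 q4 q7 a0 a1 a2 a3 a4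
  generalize hp' : cP Xo W N t0 (2 * (15 * u)) - (j : ℤ) = p' at q2 q5 q8 b0 b1 b2 b3 b4
  have hpl : ∀ p : ℤ, 0 ≤ p → s * p ≤ τ → 0 ≤ s * p → Sum.inr p ∈ ω →
      (∀ e ∈ plR Xo W t0 s p, e ∈ BR 0 (23 * u) \ BR 0 (9 * u)) →
      plR Xo W t0 s p ⊆ up F (bt Xo W t0 s) ω := by
    intro p c0 c1 c2 c3 c4 e he
    rw [mem_up, bt_plR W0 c0 he]
    exact ⟨hF (c4 e he), c3⟩
  have hrL : ∀ e ∈ plR Xo W t0 s p, e ∈ BR 0 (23 * u) \ BR 0 (9 * u) := by
    intro e he
    unfold plR at he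
    rw [mem_RT] at he
    rw [mem_sdiff, Pool.Agent.H91.W.mem_BR, Pool.Agent.H91.W.mem_BR]
    simp only [Prod.fst_zero, Prod.snd_zero]
    omega
  have hrR : ∀ e ∈ plR Xo W t0 s p', e ∈ BR 0 (23 * u) \ BR 0 (9 * u) := by
    intro e he
    unfold plR at he
    rw [mem_RT] at he
    rw [mem_sdiff, Pool.Agent.H91.W.mem_BR, Pool.Agent.H91.W.mem_BR]
    simp only [Prod.fst_zero, Prod.snd_zero]
    omega
  have hBR : ∀ e, e ∈ BR 0 (23 * u) \ BR 0 (9 * u) →
      e ∈ Bx (-(23 * u)) (23 * u) (-(23 * u)) (23 * u) ∧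
      e ∉ Bx (-(9 * u)) (9 * u) (-(9 * u)) (9 * u) := by
    intro e he
    rw [mem_sdiff, Pool.Agent.H91.W.mem_BR, Pool.Agent.H91.W.mem_BR] at he
    rw [mem_Bx, mem_Bx]
    simp only [Prod.fst_zero, Prod.snd_zero] at he
    omega
  -- the labels of the canonical room
  have hE : ∀ l ∈ CE Xo W t0 s u, 2 * t0 + 1 ≤ l.1 + l.2 := by
    intro l hl
    rw [mem_CE, Pool.Agent.H91.W.mem_BR] at hl
    have := H.T_ge (x := (l.1 - l.2 - 1) / 2) (by
      have := H.hX
      simp only at hl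
      omega)
    simp only at hl ⊢
    omega
  have hQ : ∀ (A : Finset (ℤ × ℤ)) (l : ℤ × ℤ), l ∈ A ∩ CE Xo W t0 s u ∩
      Rg (t0, 0) (10 * u - 1) (22 * u) → 2 * t0 + 1 ≤ l.1 + l.2 ∧
      gU l ∈ BR 0 (23 * u) \ BR 0 (9 * u) ∧ gL l ∈ BR 0 (23 * u) \ BR 0 (9 * u) := by
    intro A l hl
    obtain ⟨h1, h2⟩ := mem_inter.1 hl
    refine ⟨hE l (mem_inter.1 h1).2, ?_, ?_⟩
    · rw [mem_Rg, Pool.Agent.H91.W.mem_BR, Pool.Agent.H91.W.mem_BR] at h2
      rw [mem_sdiff, Pool.Agent.H91.W.mem_BR, Pool.Agent.H91.W.mem_BR]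
      unfold gU
      simp only [Prod.fst_zero, Prod.snd_zero] at h2 ⊢
      omega
    · rw [mem_Rg, Pool.Agent.H91.W.mem_BR, Pool.Agent.H91.W.mem_BR] at h2
      rw [mem_sdiff, Pool.Agent.H91.W.mem_BR, Pool.Agent.H91.W.mem_BR]
      unfold gL
      simp only [Prod.fst_zero, Prod.snd_zero] at h2 ⊢
      omega
  refine ring_block (ρ := 9 * u) (R := 23 * u) (a := gU v) (b := gU v') (c := gL w) (d := gL w')
    (by omega) (by omega) (co_gU q3) (co_gL q6) (H.thru a2 q1 q4) (H.thru b2 q2 q5)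
    ?_ ?_ (hpl p a0 a1 a2 q7 hrL) (hpl p' b0 b1 b2 q8 hrR) ?_ ?_ ?_ ?_ ?_ ?_ ?_ hf hg
  · intro e he
    obtain ⟨l, hl, rfl⟩ := mem_image.1 he
    exact mem_up_of_inl hω (mem_up.1 (mem_inter.1 (mem_inter.1 hl).1).1).2
  · intro e he
    obtain ⟨l, hl, rfl⟩ := mem_image.1 he
    exact mem_up_of_inl hω (mem_up.1 (mem_inter.1 (mem_inter.1 hl).1).1).2
  · intro e he
    apply hBR
    rcases he with he | he | he | he
    · obtain ⟨l, hl, rfl⟩ := mem_image.1 he
      exact (hQ _ l hl).2.1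
    · obtain ⟨l, hl, rfl⟩ := mem_image.1 he
      exact (hQ _ l hl).2.2
    · exact hrL e he
    · exact hrR e he
  · intro e he
    obtain ⟨l, hl, rfl⟩ := mem_image.1 he
    have := (hQ _ l hl).1
    unfold gU
    simp only
    omega
  · intro e he
    obtain ⟨l, hl, rfl⟩ := mem_image.1 he
    have := (hQ _ l hl).1
    unfold gL
    simp only
    omega
  · intro e he h
    unfold plR at he
    rw [mem_RT] at he
    omega
  · intro e he h
    unfold plR at he
    rw [mem_RT] at he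
    omega
  · obtain ⟨h1, h2⟩ := q1
    unfold ht cb at h1
    simp only [one_mul] at h1
    unfold gU
    simp only
    omega
  · obtain ⟨h1, h2⟩ := q4
    unfold ht cb at h1
    simp only [one_mul] at h1
    unfold gL
    simp only
    omega

/-- **Probability of the ring.** -/
theorem ring_prob : ∃ c : ℝ, 0 < c ∧ ∀ (Xo W t0 s N L τ u : ℤ) (n : ℕ),
    ChN Xo W t0 s N L τ u n → ∀ F : Finset (ℤ × ℤ), RingIn u F →
    PB F (bt Xo W t0 s) (fun ω => ∃ f g, ((-(9 * u) + 1 ≤ f.1 ∧ f.1 ≤ 9 * u) ∧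
      (-(9 * u) + 1 ≤ f.2 ∧ f.2 ≤ 9 * u)) ∧ Out (-(23 * u)) (23 * u) (-(23 * u)) (23 * u) g ∧
      Co (du F ω) f g) ≤ 1 - c := by
  obtain ⟨c, hc, hb⟩ := block_canon2
  refine ⟨c, hc, ?_⟩
  intro Xo W t0 s N L τ u n H F hF
  have W0 := H.W0
  have g1 := H.num.hL
  have g2 := H.num.hLN
  have g3 := H.num.hτL
  have g4 := H.num.hτ
  have g5 := H.num.hNu
  have g6 := H.hn3
  have g8 := H.tu
  have g9 := H.hL
  have g10 := H.t1
  set E := CE Xo W t0 s u with hE
  set PU := cP Xo W N t0 (2 * -(17 * u)) with hPU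
  set PL := cP Xo W N t0 (2 * (15 * u)) with hPL
  set f1 : ℤ × ℤ → (ℤ × ℤ) ⊕ ℤ := fun l => Sum.inl (gU l) with hf1
  set f2 : ℤ × ℤ → (ℤ × ℤ) ⊕ ℤ := fun l => Sum.inl (gL l) with hf2
  set p1 : ℕ → (ℤ × ℤ) ⊕ ℤ := fun i => Sum.inr (PU - i) with hp1
  set p2 : ℕ → (ℤ × ℤ) ⊕ ℤ := fun i => Sum.inr (PL - i) with hp2
  set bU : ℕ → ℤ × ℤ := fun i => cb Xo W N t0 s (PU - i) with hbU
  set bL : ℕ → ℤ × ℤ := fun i => cb Xo W N t0 s (PL - i) with hbL
  set Ω' : Finset ((ℤ × ℤ) ⊕ ℤ) := (E.image f1 ∪ E.image f2) ∪ ((range n).image p1 ∪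
    (range n).image p2) with hΩ'
  have hsum : ∀ l ∈ E, 2 * t0 + 1 ≤ l.1 + l.2 := by
    intro l hl
    rw [hE, mem_CE, Pool.Agent.H91.W.mem_BR] at hl
    have := H.T_ge (x := (l.1 - l.2 - 1) / 2) (by
      have := H.hX
      simp only at hl
      omega)
    simp only at hl ⊢
    omega
  have key := hb Ω' u N L τ n H.num (t0, 0) (t0, 0) _ _ _ _ _ _ _ _ _ _ _ _ H.side H.side f1 f2
    p1 p2
    (fun l _ l' _ h => gU_inj (Sum.inl_injective h)) (fun l _ l' _ h => gL_inj (Sum.inl_injective h))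
    (fun l hl => mem_union_left _ (mem_union_left _ (mem_image_of_mem _ hl)))
    (fun l hl => mem_union_left _ (mem_union_right _ (mem_image_of_mem _ hl)))
    (fun j hj => mem_union_right _ (mem_union_left _ (mem_image_of_mem _ (mem_range.2 hj))))
    (fun j hj => mem_union_right _ (mem_union_right _ (mem_image_of_mem _ (mem_range.2 hj))))
    (fun l hl l' hl' h => by
      have h1 : gU l = gL l' := Sum.inl_injective h
      unfold gU gL at h1
      rw [Prod.mk.injEq] at h1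
      have h2 := hsum l hl
      have h3 := hsum l' hl'
      omega)
    (fun l _ j _ h => by simp [hf1, hp1] at h) (fun l _ j _ h => by simp [hf2, hp1] at h)
    (fun l _ j _ h => by simp [hf1, hp2] at h) (fun l _ j _ h => by simp [hf2, hp2] at h)
  -- the bits of the event
  set S := blkF n u (t0, 0) (t0, 0) E E f1 f2 p1 p2 with hS
  set B : Finset ((ℤ × ℤ) ⊕ ℤ) → Prop := BlkF n u L (t0, 0) (t0, 0) E E bU bL bU bL f1 f2 p1 p2
    with hB
  have hloc : ∀ (ω : Finset ((ℤ × ℤ) ⊕ ℤ)), B ω ↔ B (ω ∩ S) := fun ω => BlkF_local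
  have hS' : S ⊆ Ω' := by
    intro x hx
    rw [hS] at hx
    unfold blkF at hx
    rcases mem_union.1 hx with hx | hx
    · refine mem_union_left _ ?_
      rcases mem_union.1 hx with hx | hx
      · exact mem_union_left _ (image_subset_image inter_subset_left hx)
      · exact mem_union_right _ (image_subset_image inter_subset_left hx)
    · exact mem_union_right _ hx
  have hSF : S ⊆ F.image (bt Xo W t0 s) := by
    intro x hx
    rw [hS] at hx
    unfold blkF at hx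
    rw [mem_union, mem_union, mem_union] at hx
    have nat : ∀ e : ℤ × ℤ, e ∈ BR 0 (23 * u) \ BR 0 (9 * u) →
        ¬ (tX e < Xo ∧ -cT Xo W t0 s (tX e) ≤ tY e ∧ tY e < cT Xo W t0 s (tX e)) →
        (Sum.inl e : (ℤ × ℤ) ⊕ ℤ) ∈ F.image (bt Xo W t0 s) := by
      intro e h1 h2
      refine mem_image.2 ⟨e, hF h1, ?_⟩
      unfold bt
      rw [if_neg h2]
    rcases hx with (hx | hx) | hx | hx
    · obtain ⟨l, hl, rfl⟩ := mem_image.1 hx
      obtain ⟨h1, h2⟩ := mem_inter.1 hl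
      have h3 := hsum l h1
      rw [hE, mem_CE] at h1
      rw [mem_Rg, Pool.Agent.H91.W.mem_BR, Pool.Agent.H91.W.mem_BR] at h2
      refine nat (gU l) ?_ ?_
      · rw [mem_sdiff, Pool.Agent.H91.W.mem_BR, Pool.Agent.H91.W.mem_BR]
        unfold gU
        simp only [Prod.fst_zero, Prod.snd_zero] at h2 ⊢
        omega
      · have e1 : tX (gU l) = (l.1 - l.2 - 1) / 2 := by
          unfold tX gU; simp only; omega
        have e2 : tY (gU l) = (l.1 + l.2 - 1) / 2 := by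
          unfold tY gU; simp only; omega
        rw [e1, e2]
        omega
    · obtain ⟨l, hl, rfl⟩ := mem_image.1 hx
      obtain ⟨h1, h2⟩ := mem_inter.1 hl
      have h3 := hsum l h1
      rw [hE, mem_CE] at h1
      rw [mem_Rg, Pool.Agent.H91.W.mem_BR, Pool.Agent.H91.W.mem_BR] at h2
      refine nat (gL l) ?_ ?_
      · rw [mem_sdiff, Pool.Agent.H91.W.mem_BR, Pool.Agent.H91.W.mem_BR]
        unfold gL
        simp only [Prod.fst_zero, Prod.snd_zero] at h2 ⊢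
        omega
      · have e1 : tX (gL l) = (l.1 - l.2 - 1) / 2 := by
          unfold tX gL; simp only; omega
        have e2 : tY (gL l) = -1 - (l.1 + l.2 - 1) / 2 := by
          unfold tY gL; simp only; simp only at h2; omega
        rw [e1, e2]
        omega
    · obtain ⟨i, hi, rfl⟩ := mem_image.1 hx
      obtain ⟨a0, a1, a2, a3, a4⟩ := H.two (mem_range.1 hi) (Or.inl rfl)
      rw [← hPU] at a0 a1 a2 a3 a4
      have hm : lt0 (Xo - ((PU - i) * W + W)) ∈ plR Xo W t0 s (PU - i) := by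
        unfold plR lt0
        rw [mem_RT]
        simp only
        omega
      refine mem_image.2 ⟨_, hF ?_, bt_plR W0 a0 hm⟩
      unfold lt0
      rw [mem_sdiff, Pool.Agent.H91.W.mem_BR, Pool.Agent.H91.W.mem_BR]
      simp only [Prod.fst_zero, Prod.snd_zero]
      omega
    · obtain ⟨i, hi, rfl⟩ := mem_image.1 hx
      obtain ⟨a0, a1, a2, a3, a4⟩ := H.two (mem_range.1 hi) (Or.inr rfl)
      rw [← hPL] at a0 a1 a2 a3 a4
      have hm : lt0 (Xo - ((PL - i) * W + W)) ∈ plR Xo W t0 s (PL - i) := by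
        unfold plR lt0
        rw [mem_RT]
        simp only
        omega
      refine mem_image.2 ⟨_, hF ?_, bt_plR W0 a0 hm⟩
      unfold lt0
      rw [mem_sdiff, Pool.Agent.H91.W.mem_BR, Pool.Agent.H91.W.mem_BR]
      simp only [Prod.fst_zero, Prod.snd_zero]
      omega
  have e1 : Pr Ω' B = Pr (F.image (bt Xo W t0 s)) B := by
    rw [Pr_congr (E := Ω') (B := fun ω => B (ω ∩ S)) (fun ω _ => hloc ω), Pr_restrict hS',
      Pr_congr (E := F.image (bt Xo W t0 s)) (B := fun ω => B (ω ∩ S)) (fun ω _ => hloc ω),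
      Pr_restrict hSF]
  rw [show Pr Ω' _ = Pr Ω' B from rfl, e1] at key
  have h2 : PB F (bt Xo W t0 s) (fun ω => ∃ f g, ((-(9 * u) + 1 ≤ f.1 ∧ f.1 ≤ 9 * u) ∧
      (-(9 * u) + 1 ≤ f.2 ∧ f.2 ≤ 9 * u)) ∧ Out (-(23 * u)) (23 * u) (-(23 * u)) (23 * u) g ∧
      Co (du F ω) f g) ≤ Pr (F.image (bt Xo W t0 s)) (fun ω => ¬ B ω) := by
    refine Pr_mono fun ω hω h => ?_
    obtain ⟨f, g, k1, k2, k3⟩ := h
    exact fun hB => H.block hF hω hB k1 k2 k3
  rw [Pr_not] at h2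
  linarith

end Pool.Agent.H51.W
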