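import Mathlib
import Pool.Agent.H51.W.RSb
import Pool.Agent.H82.W.Flip
import Pool.Agent.H98.W.EndBlk3
import Pool.Agent.H6.W.JDef

set_option autoImplicit false
open Finset

/-! # Route W, W-E, E10: the ring of the straight chain, both colours

`ring_pair` : one ring, tile level. `RingAt`, `ringS` : one ring of the world of `RS` around an interior
point of the chain. -/

namespace Pool.Agent.H51.W

open Pool.Agent.H75.Perc hiding WL CT hh PB
open Pool.Agent.H75.TwoArm Pool.Agent.H75.Four Pool.Agent.H33.Q1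
open Pool.Agent.Q1.M4 (Cell)
open Pool.Agent.H58.W Pool.Agent.H50.W Pool.Agent.H6.W
open Pool.Agent.H60.Q1 (Out Near Far)
open Pool.Agent.H99.NC (BR)
open Pool.Agent.H98.W (An)

/-- the dual of the dual is the translated configuration -/
lemma co_dd {E ω : Finset (ℤ × ℤ)} (hω : ω ⊆ E) {u v : ℤ × ℤ} (h : Co ω u v) :
    Co (du (E.map sh1) (du E ω)) (u + (1, 1)) (v + (1, 1)) := by
  induction h with
  | refl => exact Co.refl _ _
  | @tail y z _ hyz ih =>
    refine ih.tail ⟨?_, ?_⟩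
    · rw [add_sub_add_right_eq_sub]; exact hyz.1
    · have h1 : y + (1, 1) + (z + (1, 1)) = sh1 (sh1 (y + z)) := by
        refine Prod.ext ?_ ?_ <;>
        simp only [sh1, Function.Embedding.coeFn_mk, Prod.fst_add, Prod.snd_add] <;> ring
      rw [h1]
      unfold du
      rw [Finset.mem_map', mem_sdiff, Finset.mem_map', Finset.mem_map']
      refine ⟨hω hyz.2, fun h => ?_⟩
      exact (mem_sdiff.1 h).2 hyz.2

lemma bt_sh1 {Xo W t0 s : ℤ} {e e' : ℤ × ℤ} :
    bt Xo W t0 s e = bt Xo W t0 s e' ↔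
      bt (Xo + 1) W t0 s (sh1 e) = bt (Xo + 1) W t0 s (sh1 e') := by
  have h : ∀ e : ℤ × ℤ, bt (Xo + 1) W t0 s (sh1 e) =
      Sum.map sh1 id (bt Xo W t0 s e) := by
    intro e
    have e1 : tX (sh1 e) = tX e + 1 := by
      unfold tX sh1; simp only [Function.Embedding.coeFn_mk]; omega
    have e2 : tY (sh1 e) = tY e := by
      unfold tY sh1; simp only [Function.Embedding.coeFn_mk]; omega
    have e3 : cT (Xo + 1) W t0 s (tX e + 1) = cT Xo W t0 s (tX e) := by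
      unfold cT
      rw [show Xo + 1 - 1 - (tX e + 1) = Xo - 1 - tX e by ring]
    unfold bt
    rw [e1, e2, e3, show Xo + 1 - 1 - (tX e + 1) = Xo - 1 - tX e by ring]
    by_cases h1 : tX e < Xo ∧ -cT Xo W t0 s (tX e) ≤ tY e ∧ tY e < cT Xo W t0 s (tX e)
    · rw [if_pos h1, if_pos (by omega)]
      rfl
    · rw [if_neg h1, if_neg (by omega)]
      rfl
  rw [h, h]
  constructor
  · intro h1; rw [h1]
  · intro h1
    exact (Sum.map_injective.2 ⟨sh1.injective, fun _ _ h => h⟩) h1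

/-- **One ring, both colours.** -/
theorem ring_pair : ∃ c : ℝ, 0 < c ∧ ∀ (Xo W t0 s N L τ u : ℤ) (n : ℕ),
    ChN Xo W t0 s N L τ u n → ChN (Xo + 1) W t0 s N L τ u n → ∀ F : Finset (ℤ × ℤ),
    (∀ e ∈ F, (e.1 + e.2) % 2 = 1) → BR 0 (24 * u) \ BR 0 (8 * u) ⊆ F →
    ∀ {β : Type} [DecidableEq β] (b : ℤ × ℤ → β),
    (∀ e ∈ F, ∀ e' ∈ F, b e = b e' ↔ bt Xo W t0 s e = bt Xo W t0 s e') →
    ∀ ρ R : ℤ, ρ + 2 ≤ 9 * u → 23 * u + 2 ≤ R →
    PB F b (OA 0 ρ R) ≤ 1 - c ∧ PB F b (fun ω => OA 0 ρ R (du F ω)) ≤ 1 - c := by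
  obtain ⟨c, hc, h⟩ := ring_prob
  refine ⟨c, hc, ?_⟩
  intro Xo W t0 s N L τ u n H H' F hodd hF β _ b hb ρ R h1 h2
  have u0 : 1 ≤ u := by
    have := H.num.hL
    have := H.num.hLN
    have := H.num.hNu
    omega
  have hF1 : RingIn u F := by
    intro e he
    refine hF ?_
    rw [mem_sdiff, Pool.Agent.H91.W.mem_BR, Pool.Agent.H91.W.mem_BR] at he ⊢
    simp only [Prod.fst_zero, Prod.snd_zero] at he ⊢
    omega
  have hF2 : RingIn u (F.map sh1) := by
    rintro ⟨x, y⟩ he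
    refine mem_map.2 ⟨(x - 1, y - 1), hF ?_, by
      unfold sh1; simp only [Function.Embedding.coeFn_mk, sub_add_cancel]⟩
    rw [mem_sdiff, Pool.Agent.H91.W.mem_BR, Pool.Agent.H91.W.mem_BR] at he ⊢
    simp only [Prod.fst_zero, Prod.snd_zero] at he ⊢
    omega
  have hdec : ∀ (G ω : Finset (ℤ × ℤ)) (ρ R : ℤ), ρ + 1 ≤ 9 * u → 23 * u + 1 ≤ R →
      OA 0 ρ R (du G ω) → ∃ f g, ((-(9 * u) + 1 ≤ f.1 ∧ f.1 ≤ 9 * u) ∧
      (-(9 * u) + 1 ≤ f.2 ∧ f.2 ≤ 9 * u)) ∧ Out (-(23 * u)) (23 * u) (-(23 * u)) (23 * u) g ∧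
      Co (du G ω) f g := by
    rintro G ω ρ R k1 k2 ⟨f, g, h3, h4, h5⟩
    refine ⟨f, g, ?_, ?_, h5⟩
    · unfold Near at h3
      rw [abs_le, abs_le] at h3
      simp only [Prod.fst_zero, Prod.snd_zero] at h3
      omega
    · unfold Far at h4
      rw [le_abs, le_abs] at h4
      simp only [Prod.fst_zero, Prod.snd_zero] at h4
      unfold Out
      omega
  constructor
  · set A : Finset (ℤ × ℤ) → Prop := fun ω' => ∃ f g,
        ((-(9 * u) + 1 ≤ f.1 ∧ f.1 ≤ 9 * u) ∧ (-(9 * u) + 1 ≤ f.2 ∧ f.2 ≤ 9 * u)) ∧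
        Out (-(23 * u)) (23 * u) (-(23 * u)) (23 * u) g ∧ Co (du (F.map sh1) ω') f g with hA
    have e1 : PB F b (OA 0 ρ R) ≤ PB F b (fun ω => A (du F ω)) := by
      refine PB_mono fun ω hω h3 => ?_
      obtain ⟨f, g, h4, h5, h6⟩ := h3
      refine hdec (F.map sh1) (du F ω) (ρ + 1) (R - 1) (by omega) (by omega)
        ⟨f + (1, 1), g + (1, 1), ?_, ?_, co_dd hω h6⟩
      · unfold Near at h4 ⊢
        rw [abs_le, abs_le] at h4 ⊢
        simp only [Prod.fst_add, Prod.snd_add, Prod.fst_zero, Prod.snd_zero] at h4 ⊢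
        omega
      · unfold Far at h5 ⊢
        rw [le_abs, le_abs] at h5 ⊢
        simp only [Prod.fst_add, Prod.snd_add, Prod.fst_zero, Prod.snd_zero] at h5 ⊢
        omega
    refine e1.trans ?_
    rw [Pool.Agent.H82.W.PB_du F b (bt (Xo + 1) W t0 s)
      (fun e he e' he' => (hb e he e' he').trans bt_sh1) A]
    exact h (Xo + 1) W t0 s N L τ u n H' (F.map sh1) hF2
  · have e1 : PB F b (fun ω => OA 0 ρ R (du F ω)) ≤ PB F b (fun ω => ∃ f g,
        ((-(9 * u) + 1 ≤ f.1 ∧ f.1 ≤ 9 * u) ∧ (-(9 * u) + 1 ≤ f.2 ∧ f.2 ≤ 9 * u)) ∧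
        Out (-(23 * u)) (23 * u) (-(23 * u)) (23 * u) g ∧ Co (du F ω) f g) :=
      PB_mono fun ω _ h3 => hdec F ω ρ R (by omega) (by omega) h3
    refine e1.trans ?_
    rw [PB_blocks (b' := bt Xo W t0 s) hb]
    exact h Xo W t0 s N L τ u n H F hF1

/-! ### The chain of JDef -/

/-- the chain of JDef at the tile level -/
lemma chn_bt {M τ : ℕ} {x0 n : ℤ} (hM : 0 < M) (hn : 0 < n) (e : ℤ × ℤ) :
    chn x0 M τ (ct n (tt e)) =
      if tX e < x0 * n ∧ -cT (x0 * n) (M * n) (τ * n) n (tX e) ≤ tY e ∧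
        tY e < cT (x0 * n) (M * n) (τ * n) n (tX e) then
        some ((x0 * n - 1 - tX e) / (M * n)).toNat else none := by
  have e0 : ct n (tt e) = (tX e / n, tY e / n) := rfl
  rw [e0]
  unfold chn
  simp only
  have c1 : tX e / n < x0 ↔ tX e < x0 * n := Int.ediv_lt_iff_lt_mul hn
  by_cases h1 : tX e < x0 * n
  · rw [if_pos (c1.2 h1)]
    have hM' : (0 : ℤ) < M := by exact_mod_cast hM
    have e1 : (x0 - tX e / n - 1) / (M : ℤ) = (x0 * n - 1 - tX e) / (M * n) := by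
      have h2 := Int.ediv_mul_le (tX e) hn.ne'
      have h3 := Int.lt_ediv_add_one_mul_self (tX e) hn
      have h4 : (x0 * n - 1 - tX e) / n = x0 - tX e / n - 1 := by
        rw [Int.ediv_eq_iff_of_pos hn]
        have h5 : (x0 - tX e / n - 1) * n = x0 * n - tX e / n * n - n := by ring
        have h6 : (tX e / n + 1) * n = tX e / n * n + n := by ring
        omega
      rw [← h4, Int.ediv_ediv_of_nonneg hn.le, mul_comm n]
    rw [e1]
    have h7 : 0 ≤ (x0 * n - 1 - tX e) / (M * n) :=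
      Int.ediv_nonneg (by omega) (by positivity)
    have h8 : (((x0 * n - 1 - tX e) / (M * n)).toNat : ℤ) = (x0 * n - 1 - tX e) / (M * n) :=
      Int.toNat_of_nonneg h7
    have h9 : ((τ : ℤ) + (x0 * n - 1 - tX e) / (M * n)) * n =
        cT (x0 * n) (M * n) (τ * n) n (tX e) := by
      unfold cT; ring
    have h10 : -((τ : ℤ) + (x0 * n - 1 - tX e) / (M * n)) * n =
        -cT (x0 * n) (M * n) (τ * n) n (tX e) := by
      rw [← h9]; ring
    have c2 : (-((τ : ℤ) + ((x0 * n - 1 - tX e) / (M * n)).toNat) ≤ tY e / n ∧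
        tY e / n < (τ : ℤ) + ((x0 * n - 1 - tX e) / (M * n)).toNat) ↔
        (-cT (x0 * n) (M * n) (τ * n) n (tX e) ≤ tY e ∧
        tY e < cT (x0 * n) (M * n) (τ * n) n (tX e)) := by
      rw [h8, Int.le_ediv_iff_mul_le hn, Int.ediv_lt_iff_lt_mul hn, h9, h10]
    by_cases h11 : -cT (x0 * n) (M * n) (τ * n) n (tX e) ≤ tY e ∧
        tY e < cT (x0 * n) (M * n) (τ * n) n (tX e)
    · rw [if_pos (c2.2 h11), if_pos ⟨h1, h11⟩]
    · rw [if_neg fun h => h11 (c2.1 h), if_neg fun h => h11 h.2]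
  · rw [if_neg fun h => h1 (c1.1 h), if_neg fun h => h1 h.1]

/-- same blocks -/
lemma bk_bt {M τ : ℕ} {x0 n : ℤ} (hM : 0 < M) (hn : 0 < n) (e e' : ℤ × ℤ) :
    bk n (chn x0 M τ) e = bk n (chn x0 M τ) e' ↔
      bt (x0 * n) (M * n) (τ * n) n e = bt (x0 * n) (M * n) (τ * n) n e' := by
  have hM' : (0 : ℤ) < M := by exact_mod_cast hM
  have h1 : ∀ e, tX e < x0 * n → 0 ≤ (x0 * n - 1 - tX e) / (M * n) := fun e h =>
    Int.ediv_nonneg (by omega) (by positivity)
  have h2 : ∀ e, bk n (chn x0 M τ) e =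
      Sum.map id Int.toNat (bt (x0 * n) (M * n) (τ * n) n e) := by
    intro e
    unfold bk bt
    rw [chn_bt hM hn]
    split_ifs with h
    · rfl
    · rfl
  rw [h2, h2]
  constructor
  · intro h
    have h3 : ∀ e, (∃ q, bt (x0 * n) (M * n) (τ * n) n e = Sum.inl q) ∨
        ∃ p, 0 ≤ p ∧ bt (x0 * n) (M * n) (τ * n) n e = Sum.inr p := by
      intro e
      unfold bt
      split_ifs with h
      · exact Or.inr ⟨_, h1 e h.1, rfl⟩
      · exact Or.inl ⟨_, rfl⟩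
    rcases h3 e with ⟨q, hq⟩ | ⟨p, hp, hq⟩ <;> rcases h3 e' with ⟨q', hq'⟩ | ⟨p', hp', hq'⟩ <;>
      rw [hq, hq'] at h ⊢
    · simpa using h
    · simp at h
    · simp at h
    · simp only [Sum.map_inr, Sum.inr.injEq] at h
      rw [show p = p' by omega]
  · intro h; rw [h]

/-- **One ring, both colours** (helper67's interface). -/
def RingAt {β : Type} [DecidableEq β] (F : Finset (ℤ × ℤ)) (b : ℤ × ℤ → β) (s t : ℤ) (c : ℝ) :
    Prop :=
  PB F b (OA 0 (s + 1) (t - 1)) ≤ 1 - c ∧ PB F b (fun ω => OA 0 (s + 1) (t - 1) (du F ω)) ≤ 1 - c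

/-- **The rings around an interior point of the chain**: `K = 32`, `C0 = 4`. -/
theorem ringS : ∃ c : ℝ, 0 < c ∧ ∀ (R M τ : ℕ) (x0 : ℤ), 0 < M → 0 < τ → x0 ≤ R →
    64 * ((τ : ℝ) + 2 * R / M) ≤ M → ∀ a : ℕ, 4 * M ≤ a → 64 * a ≤ R → 64 * (a : ℤ) ≤ x0 →
      ∀ h : ℕ, 2 ≤ h →
        RingAt (TL (RC (-R) R (-R) R) (2 * (h : ℤ)) ∩ An 0 (a * (2 * (h : ℤ))) (32 * a * (2 * (h : ℤ))))
          (bk (2 * (h : ℤ)) (chn x0 M τ)) (a * (2 * (h : ℤ))) (32 * a * (2 * (h : ℤ))) c := by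
  obtain ⟨c, hc, key⟩ := ring_pair
  refine ⟨c, hc, ?_⟩
  intro R M τ x0 hM hτ hx0 hth a ha haR hax h hh
  have hM' : (0 : ℤ) < M := by exact_mod_cast hM
  set n : ℤ := 2 * (h : ℤ) with hn
  have hn0 : 0 < n := by omega
  set N : ℤ := M * h with hN
  have hW : (M : ℤ) * n = 2 * N := by rw [hn, hN]; ring
  set u : ℤ := a * n with hu
  set Im : ℤ := (x0 * n + 64 * u) / (M * n) with hIm
  have hMn : (0 : ℤ) < M * n := by positivity
  have hIM : 64 * ((τ : ℤ) + Im) ≤ M := by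
    have g1 : Im * (M * n) ≤ x0 * n + 64 * u := Int.ediv_mul_le _ hMn.ne'
    have g2 : x0 * n + 64 * u ≤ 2 * R * n := by
      have g3 : x0 * n ≤ R * n := mul_le_mul_of_nonneg_right hx0 hn0.le
      have g4 : 64 * (a : ℤ) * n ≤ R * n :=
        mul_le_mul_of_nonneg_right (by exact_mod_cast haR) hn0.le
      rw [hu]
      linarith
    have g5 : Im * M ≤ 2 * R := by
      have g6 : Im * M * n ≤ 2 * R * n := by linarith
      exact le_of_mul_le_mul_right g6 hn0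
    have g7 : (Im : ℝ) ≤ 2 * R / M := by
      rw [le_div_iff₀ (by exact_mod_cast hM)]
      exact_mod_cast g5
    have g8 : 64 * ((τ : ℝ) + Im) ≤ M := by linarith
    exact_mod_cast g8
  have hIm0 : 0 ≤ Im := Int.ediv_nonneg (by
    have : (0 : ℤ) ≤ 64 * a := by positivity
    have : 0 ≤ x0 * n := mul_nonneg (by omega) hn0.le
    have : 0 ≤ (a : ℤ) * n := by positivity
    omega) hMn.le
  have hNM : N * 1 = M * h := by rw [hN]; ring
  -- products
  have p1 : 64 * ((τ : ℤ) * n) + 64 * (n * Im) ≤ 2 * N := by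
    have := mul_le_mul_of_nonneg_right hIM hn0.le
    rw [hW] at this
    nlinarith
  have p2 : 4 ≤ n := by omega
  have hτ' : (1 : ℤ) ≤ τ := by exact_mod_cast hτ
  have p3 : 4 ≤ (τ : ℤ) * n := by nlinarith
  have p4 : 0 ≤ n * Im := mul_nonneg hn0.le hIm0
  have p5 : 8 * N ≤ u := by
    have g1 : (4 : ℤ) * M ≤ a := by exact_mod_cast ha
    have := mul_le_mul_of_nonneg_right g1 hn0.le
    rw [hu]
    linarith
  -- the number of plates of a row
  have N0 : 0 < N := by omega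
  have q1 := Int.ediv_mul_le (2 * u) N0.ne'
  have q2 := Int.lt_ediv_add_one_mul_self (2 * u) N0
  have q3 : 2 ≤ 2 * u / N := by
    rw [Int.le_ediv_iff_mul_le N0]
    omega
  obtain ⟨m, hm⟩ : ∃ m : ℕ, (m : ℤ) = 2 * u / N - 1 := ⟨(2 * u / N - 1).toNat, by omega⟩
  have q4 : (m : ℤ) * N + N = 2 * u / N * N := by rw [hm]; ring
  have q5 : (2 * u / N + 1) * N = 2 * u / N * N + N := by ring
  have hnum : Nums u N ((N - 1) / 2) (n * Im) m := by
    refine ⟨by omega, by omega, by omega, p4, by omega, p5, by omega, by omega, by omega⟩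
  have hax' : 64 * u ≤ x0 * n := by
    have := mul_le_mul_of_nonneg_right hax hn0.le
    rw [hu]
    linarith
  have mk : ∀ d : ℤ, (d = 0 ∨ d = 1) →
      ChN (x0 * n + d) (M * n) (τ * n) n N ((N - 1) / 2) (n * Im) u m := by
    intro d hd
    refine ⟨hnum, by omega, hW, by omega, by omega, by omega, by omega, by omega, ?_⟩
    intro x hx
    refine mul_le_mul_of_nonneg_left ?_ hn0.le
    exact Int.ediv_le_ediv hMn (by omega)
  have H := mk 0 (Or.inl rfl)
  rw [add_zero] at H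
  have hF : BR 0 (24 * u) \ BR 0 (8 * u) ⊆
      TL (RC (-R) R (-R) R) n ∩ An 0 (a * n) (32 * a * n) := by
    intro e he
    have hRn : 64 * u ≤ R * n := by
      have g4 : 64 * (a : ℤ) * n ≤ R * n :=
        mul_le_mul_of_nonneg_right (by exact_mod_cast haR) hn0.le
      rw [hu]
      linarith
    rw [mem_sdiff, Pool.Agent.H91.W.mem_BR, Pool.Agent.H91.W.mem_BR] at he
    simp only [Prod.fst_zero, Prod.snd_zero] at he
    have h32 : 32 * (a : ℤ) * n = 32 * u := by rw [hu]; ring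
    rw [mem_inter]
    refine ⟨?_, ?_⟩
    · rw [mem_TL hn0]
      refine ⟨he.1.2.2, ?_⟩
      unfold RC
      rw [mem_product, mem_Ico, mem_Ico]
      have e0 : ct n (tt e) = (tX e / n, tY e / n) := rfl
      rw [e0]
      simp only
      rw [Int.le_ediv_iff_mul_le hn0, Int.ediv_lt_iff_lt_mul hn0, Int.le_ediv_iff_mul_le hn0,
        Int.ediv_lt_iff_lt_mul hn0]
      have e1 : -(R : ℤ) * n = -(R * n) := by ring
      rw [e1]
      unfold tX tY
      omega
    · rw [h32, ← hu]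
      show e ∈ BZ 0 (32 * u) \ BZ 0 u
      unfold BZ
      rw [mem_sdiff, mem_Bx, mem_Bx]
      simp only [Prod.fst_zero, Prod.snd_zero]
      omega
  have fin := key (x0 * n) (M * n) (τ * n) n N ((N - 1) / 2) (n * Im) u m H (mk 1 (Or.inr rfl))
    (TL (RC (-R) R (-R) R) n ∩ An 0 (a * n) (32 * a * n))
    (fun e he => ((mem_TL hn0).1 (mem_inter.1 he).1).1) hF (bk n (chn x0 M τ))
    (fun e _ e' _ => bk_bt hM hn0 e e') (a * n + 1) (32 * a * n - 1)
    (by rw [← hu]; omega) (by rw [show 32 * (a : ℤ) * n = 32 * u by rw [hu]; ring]; omega)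
  exact fin

end Pool.Agent.H51.W
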