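import Mathlib
import Pool.Agent.H51.W.RSt
import Pool.Agent.H67.W.Ring

set_option autoImplicit false
open Finset

/-! # Route W, W-E, E10: `RingS` of H67/W/Ring.lean -/

namespace Pool.Agent.H51.W

open Pool.Agent.H67.W (RingS)

/-- **one ring around an interior point of the chain**, in the form of H67/W/Ring.lean -/
theorem ringS_E10 : ∃ (K C0 : ℕ) (c : ℝ), 1 < K ∧ 0 < c ∧ RingS K C0 c := by
  obtain ⟨c, hc, h⟩ := ringS
  refine ⟨32, 4, c, by norm_num, hc, ?_⟩
  intro R M τ x0 hch a ha haR hax
  refine ⟨2, fun k hk => ?_⟩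
  have := h R M τ x0 hch.M0 hch.τ0 hch.x0R hch.thin a ha (by omega) (by push_cast at hax; linarith)
    k hk
  unfold RingAt at this
  unfold Pool.Agent.H67.W.RingAt
  push_cast
  exact this

end Pool.Agent.H51.W
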