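import Mathlib
import Pool.Agent.H78.W.VG
import Pool.Agent.H55.W.BlkS

set_option autoImplicit false
open Finset

/-! # Route W, D9 (StChd, V2): the block in the canonical worlds `WU`, `WL` of a picture (78's VG.lean)

`pCh G dU dL` : the plates of the chord of the picture as a `Ch`, banks raised by `dU i`, `dL i` rows.
`pv G` : the vertex over the plate boundary `xs` on the line of the chord. `dR G` : one row right of `xs`.
`prp G i` : bottom left tile of the plate `i` in the row `Yc`.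
`PWin G xl r` : window of radius `20 r` tiles around `(xs, Yc)`.
`pCh_ok` : geometry. `pCh_rooms` : position of the labels of the rooms. `okB_WU`, `okB_WL` : coin model.
`pG_block` : **probability of the block in `WU` and in `WL`, read from `O`** (`r`, `s` in tiles). -/

namespace Pool.Agent.H51.W

open Pool.Agent.H75.Perc hiding WL CT hh PB
open Pool.Agent.H75.TwoArm Pool.Agent.H75.Four Pool.Agent.H60.Q1
open Pool.Agent.H33.Q1 (lt tt ct lt_odd tt_lt lt_tt lt_inj)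
open Pool.Agent.H91.W hiding cT
open Pool.Agent.H99.NC
open Pool.Agent.H58.W Pool.Agent.H55.W Pool.Agent.H78.W
open Pool.Agent.H19.W (cx cy cx_lt cy_lt lt_cc)

variable {κ : Type*}

/-- the chord of the picture -/
def pCh (G : Pic κ) (dU dL : ℤ → ℤ) : Ch where
  X0 := 0
  N := G.m / 2
  TU i := (G.Yc / (2 * G.h) + (G.B - i)) * (2 * G.h) + dU i
  TL i := (-(G.Yc / (2 * G.h)) + (G.B - i)) * (2 * G.h) + dL i

/-- the vertex over the plate boundary `xs` -/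
def pv (G : Pic κ) : ℤ × ℤ := ((G.xs - G.Yc) / 2, (G.xs + G.Yc) / 2)

/-- one row right of `xs` -/
def dR (G : Pic κ) (i : ℤ) : ℤ := if G.xs / G.m ≤ i then 1 else 0

lemma dR_bd (G : Pic κ) (i : ℤ) : 0 ≤ dR G i ∧ dR G i ≤ 1 := by
  unfold dR; split_ifs <;> omega

/-- reference label of the plate `i` -/
def prp (G : Pic κ) (i : ℤ) : ℤ × ℤ := lt (G.m * i, G.Yc)

lemma prp_cx (G : Pic κ) (i : ℤ) : cx (prp G i) = G.m * i := cx_lt _
lemma prp_cy (G : Pic κ) (i : ℤ) : cy (prp G i) = G.Yc := cy_lt _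

/-- the window of radius `20 r` tiles -/
structure PWin (G : Pic κ) (xl H : ℤ) (r : ℕ) : Prop where
  h2 : 2 ≤ G.h
  lef : xl + 20 * r ≤ G.xs
  rig : G.xs + 20 * r ≤ G.xe
  top : 20 * (r : ℤ) ≤ H
  thin : 64 * (2 * G.h * (G.B - xl / G.m)) + 128 * G.h ≤ G.m

variable {G : Pic κ} {xl H : ℤ} {r : ℕ} {dU dL : ℤ → ℤ}

section

variable (hG : G.Ok xl H)

include hG

lemma pm : ∃ M' : ℤ, 0 < M' ∧ G.m = 2 * (M' * G.h) ∧ G.m / 2 = M' * G.h := by
  obtain ⟨M', hM'⟩ := hG.dm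
  have hh : (0 : ℤ) < G.h := by exact_mod_cast hG.hh
  have hm := hG.hm
  refine ⟨M', ?_, by rw [hM']; ring, ?_⟩
  · rw [hM'] at hm
    by_contra h0
    push Not at h0
    nlinarith
  · rw [hM']
    have : 2 * (G.h : ℤ) * M' = 2 * (M' * G.h) := by ring
    rw [this]
    omega

lemma pYc : G.Yc / (2 * G.h) * (2 * G.h) = G.Yc := Int.ediv_mul_cancel hG.dYc

lemma pxs : G.m * (G.xs / G.m) = G.xs := Int.mul_ediv_cancel' hG.dxs

lemma pv_sum : (pv G).1 + (pv G).2 = G.xs := by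
  obtain ⟨M', -, e1, -⟩ := pm hG
  have e2 := pxs hG
  have e3 := pYc hG
  unfold pv
  simp only
  have h1 : G.xs % 2 = 0 := by
    rw [← e2, e1, mul_assoc]; omega
  have h2 : G.Yc % 2 = 0 := by
    rw [← e3]
    have : G.Yc / (2 * G.h) * (2 * (G.h : ℤ)) = 2 * (G.Yc / (2 * G.h) * G.h) := by ring
    rw [this]; omega
  omega

lemma pv_dif : (pv G).2 - (pv G).1 = G.Yc := by
  obtain ⟨M', -, e1, -⟩ := pm hG
  have e2 := pxs hG
  have e3 := pYc hG
  unfold pv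
  simp only
  have h1 : G.xs % 2 = 0 := by
    rw [← e2, e1, mul_assoc]; omega
  have h2 : G.Yc % 2 = 0 := by
    rw [← e3]
    have : G.Yc / (2 * G.h) * (2 * (G.h : ℤ)) = 2 * (G.Yc / (2 * G.h) * G.h) := by ring
    rw [this]; omega
  omega

lemma plx_m (x : ℤ) : plx 0 (G.m / 2) x = x / G.m := by
  obtain ⟨M', -, e1, e2⟩ := pm hG
  unfold plx
  rw [sub_zero, e2, e1]

lemma pCh_U (x : ℤ) : (pCh G dU dL).U x = G.Yc + G.T x + dU (x / G.m) := by
  unfold Ch.U pCh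
  simp only
  rw [plx_m hG, add_mul, pYc hG]
  unfold Pic.T
  ring

lemma pCh_L (x : ℤ) : (pCh G dU dL).L x = -G.Yc + G.T x + dL (x / G.m) := by
  unfold Ch.L pCh
  simp only
  rw [plx_m hG, add_mul, neg_mul, pYc hG]
  unfold Pic.T
  ring

/-- the plates of the window -/
lemma pWin_plate (hw : PWin G xl H r) {i : ℤ}
    (hi : (pCh G dU dL).Win (pv G) (10 * r) i) : xl ≤ G.m * i ∧ G.m * i < G.xe := by
  obtain ⟨M', hM', e1, e2⟩ := pm hG
  obtain ⟨g1, g2⟩ := hi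
  rw [pv_sum hG] at g1 g2
  unfold pCh at g1 g2
  simp only at g1 g2
  rw [e2] at g1 g2
  have h1 := hw.lef
  have h2 := hw.rig
  have e3 : 2 * (M' * G.h) * i = G.m * i := by rw [e1]
  have e4 : 2 * (M' * G.h) * (i + 1) = G.m * (i + 1) := by rw [e1]
  rw [e3] at g2
  rw [e4] at g1
  constructor
  · obtain ⟨d, hd⟩ := hG.dxl
    have h3 : G.m * d < G.m * (i + 1) := by rw [← hd]; linarith
    have h4 := lt_of_mul_lt_mul_left h3 hG.hm.le
    rw [hd]
    exact mul_le_mul_of_nonneg_left (by omega) hG.hm.le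
  · linarith

lemma pm_div (i : ℤ) : G.m * i / G.m = i := by
  rw [mul_comm]; exact Int.mul_ediv_cancel _ hG.hm.ne'

/-- **geometry of the chord of a picture** -/
theorem pCh_ok (hw : PWin G xl H r) (hU : ∀ i, 0 ≤ dU i ∧ dU i ≤ 1)
    (hL : ∀ i, 0 ≤ dL i ∧ dL i ≤ 1) : ∃ τ, (pCh G dU dL).Ok (pv G) (10 * r) τ := by
  obtain ⟨M', hM', e1, e2⟩ := pm hG
  have hh : (0 : ℤ) < G.h := by exact_mod_cast hG.hh
  have hp := fun i hi => pWin_plate (dU := dU) (dL := dL) (i := i) hG hw hi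
  have hTi : ∀ i, (pCh G dU dL).Win (pv G) (10 * r) i →
      1 ≤ G.B - i ∧ 64 * (G.B - i) + 64 ≤ M' := by
    intro i hi
    obtain ⟨h1, h2⟩ := hp i hi
    have h3 := (hG.th (G.m * i) h1 h2).1
    unfold Pic.T at h3
    rw [pm_div hG] at h3
    have h4 := hw.thin
    have h5 : xl / G.m ≤ i := by
      have := Int.ediv_le_ediv hG.hm h1
      rwa [pm_div hG] at this
    constructor
    · by_contra h0
      push Not at h0
      nlinarith
    · rw [e1] at h4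
      have h6 : 2 * (G.h : ℤ) * (64 * (G.B - i) + 64) ≤ 2 * G.h * M' := by
        have h7 : 2 * (G.h : ℤ) * (G.B - i) ≤ 2 * G.h * (G.B - xl / (2 * (M' * G.h))) := by
          refine mul_le_mul_of_nonneg_left ?_ (by positivity)
          rw [← e1]; omega
        nlinarith
      exact le_of_mul_le_mul_left h6 (by positivity)
  have hM64 : (64 : ℤ) ≤ M' := by
    have h3 := (hG.th xl le_rfl (lt_of_le_of_lt hG.xls hG.xse)).1
    unfold Pic.T at h3
    have h4 := hw.thin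
    rw [e1] at h4
    rw [e1] at h3
    have h6 : 2 * (G.h : ℤ) * 64 ≤ 2 * G.h * M' := by nlinarith
    exact le_of_mul_le_mul_left h6 (by positivity)
  refine Ch.ok_of (h := G.h) (M := M') (Y := G.Yc / (2 * G.h)) (T := fun i => G.B - i)
    (dU := dU) (dL := dL) (by exact_mod_cast hw.h2) hM64 e2 (fun m m' _ _ hmm => by omega)
    hTi (fun m _ => hU m) (fun m _ => hL m)
    (fun m _ => rfl) (fun m _ => rfl) ?_
  rw [pv_dif hG, pYc hG, sub_self, abs_zero]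
  norm_num

/-- the box of the window -/
lemma pCh_box {e : ℤ × ℤ} (he : e ∈ BR (pv G) (10 * r)) :
    (e.1 + e.2) % 2 = 1 ∧ G.xs - 20 * r ≤ cx e ∧ cx e < G.xs + 20 * r ∧
      G.Yc - 20 * r ≤ cy e ∧ cy e < G.Yc + 20 * r := by
  rw [Pool.Agent.H91.W.mem_BR] at he
  have h1 := pv_sum hG
  have h2 := pv_dif hG
  have e1 : cx e = (e.1 + e.2 - 1) / 2 := rfl
  have e2 : cy e = (e.2 - e.1 - 1) / 2 := rfl
  rw [e1, e2]
  refine ⟨he.2.2, ?_, ?_, ?_, ?_⟩ <;> omega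

/-- **labels of the rooms** -/
theorem pCh_rooms (hw : PWin G xl H r) {e : ℤ × ℤ}
    (he : e ∈ (pCh G dU dL).rooms (pv G) (10 * r)) :
    (e.1 + e.2) % 2 = 1 ∧ G.xs - 20 * r ≤ cx e ∧ cx e < G.xs + 20 * r ∧ xl ≤ cx e ∧ cx e < G.xe ∧
      G.Yc - H ≤ cy e ∧ cy e < G.Yc + H ∧
      (G.Yc + G.T (cx e) + dU (cx e / G.m) ≤ cy e ∨
        cy e < G.Yc - G.T (cx e) - dL (cx e / G.m)) := by
  have h1 := hw.lef
  have h2 := hw.rig
  have h3 := hw.top
  unfold Ch.rooms at he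
  have key : e ∈ BR (pv G) (10 * r) ∧ (G.Yc + G.T (cx e) + dU (cx e / G.m) ≤ cy e ∨
        cy e < G.Yc - G.T (cx e) - dL (cx e / G.m)) := by
    rcases mem_union.1 he with h1 | h1
    · obtain ⟨h2, h3⟩ := mem_RU.1 h1
      have h4 : G.Yc + G.T (cx e) + dU (cx e / G.m) ≤ cy e := by
        have := pCh_U (dU := dU) (dL := dL) hG (cx e)
        rw [← this]; exact h3
      exact ⟨h2, Or.inl h4⟩
    · obtain ⟨h2, h3⟩ := mem_RL.1 h1
      have h4 : cy e ≤ -1 - (-G.Yc + G.T (cx e) + dL (cx e / G.m)) := by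
        have := pCh_L (dU := dU) (dL := dL) hG (cx e)
        rw [← this]; exact h3
      exact ⟨h2, Or.inr (by linarith)⟩
  obtain ⟨k1, k2, k3, k4, k5⟩ := pCh_box hG key.1
  exact ⟨k1, k2, k3, by linarith, by linarith, by linarith, by linarith, key.2⟩

omit hG in
lemma lt_cxy {e : ℤ × ℤ} (ho : (e.1 + e.2) % 2 = 1) : lt (cx e, cy e) = e := lt_cc ho

/-- labels of the rooms are random -/
lemma room_E (hw : PWin G xl H r) {e : ℤ × ℤ}
    (he : e ∈ (pCh G dU dL).rooms (pv G) (10 * r)) : e ∈ G.E := by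
  obtain ⟨k1, -, -, k2, k3, k4, k5, -⟩ := pCh_rooms hG hw he
  have := hG.gl (cx e) (cy e) k2 k3 k4 k5
  rwa [lt_cxy k1] at this

/-- labels of the rooms are not in `Rt` -/
lemma room_Rt (hw : PWin G xl H r) {e : ℤ × ℤ}
    (he : e ∈ (pCh G dU dL).rooms (pv G) (10 * r)) : e ∉ G.Rt := by
  obtain ⟨-, -, -, -, k3, -⟩ := pCh_rooms hG hw he
  intro h
  unfold Pic.Rt at h
  have := (mem_filter.1 h).2.2.1
  omega

lemma dR_of (x : ℤ) : dR G (x / G.m) = if G.xs ≤ x then 1 else 0 := by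
  unfold dR
  have h1 := pxs hG
  have h2 : G.xs / G.m ≤ x / G.m ↔ G.xs ≤ x := by
    rw [Int.le_ediv_iff_mul_le hG.hm, mul_comm, h1]
  simp only [h2]

/-- no plate in the rooms of `WU` -/
lemma room_plU (hw : PWin G xl H r) {e : ℤ × ℤ}
    (he : e ∈ (pCh G (dR G) fun _ => 0).rooms (pv G) (10 * r)) : G.plU (cx e) (cy e) = none := by
  obtain ⟨-, -, -, k2, k3, k4, k5, k6⟩ := pCh_rooms hG hw he
  rw [dR_of hG] at k6
  have hT := (hG.th (cx e) k2 k3).1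
  have hh : (0 : ℤ) < G.h := by exact_mod_cast hG.hh
  unfold Pic.plU
  by_cases hx : G.xs ≤ cx e
  · rw [if_pos hx] at k6
    rw [if_neg (by rintro ⟨-, -, h3⟩; rcases k6 with k6 | k6 <;> linarith),
      hG.pc _ _ k2 k3 k4 k5, if_neg]
    rintro ⟨h1, h2⟩
    rcases k6 with k6 | k6 <;> linarith
  · rw [if_neg hx] at k6
    rw [if_neg (by rintro ⟨h3, -⟩; exact hx h3), hG.pc _ _ k2 k3 k4 k5, if_neg]
    rintro ⟨h1, h2⟩
    rcases k6 with k6 | k6 <;> linarith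

/-- no plate in the rooms of `WL` -/
lemma room_plL (hw : PWin G xl H r) {e : ℤ × ℤ}
    (he : e ∈ (pCh G (fun _ => 0) (dR G)).rooms (pv G) (10 * r)) : G.plL (cx e) (cy e) = none := by
  obtain ⟨-, -, -, k2, k3, k4, k5, k6⟩ := pCh_rooms hG hw he
  rw [dR_of hG] at k6
  have hT := (hG.th (cx e) k2 k3).1
  have hh : (0 : ℤ) < G.h := by exact_mod_cast hG.hh
  unfold Pic.plL
  by_cases hx : G.xs ≤ cx e
  · rw [if_pos hx] at k6
    rw [if_neg (by rintro ⟨-, -, h3⟩; rcases k6 with k6 | k6 <;> linarith),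
      hG.pc _ _ k2 k3 k4 k5, if_neg]
    rintro ⟨h1, h2⟩
    rcases k6 with k6 | k6 <;> linarith
  · rw [if_neg hx] at k6
    rw [if_neg (by rintro ⟨h3, -⟩; exact hx h3), hG.pc _ _ k2 k3 k4 k5, if_neg]
    rintro ⟨h1, h2⟩
    rcases k6 with k6 | k6 <;> linarith

/-- the plate of the reference label -/
lemma prp_pl {i : ℤ} (h1 : xl ≤ G.m * i) (h2 : G.m * i < G.xe) :
    G.pl (G.m * i) G.Yc = some (G.kn i) ∧ prp G i ∈ G.E ∧ 2 * (G.h : ℤ) ≤ G.T (G.m * i) ∧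
      G.T (G.m * i) + 1 < H := by
  obtain ⟨t1, t2⟩ := hG.th _ h1 h2
  have hh : (0 : ℤ) < G.h := by exact_mod_cast hG.hh
  refine ⟨?_, hG.gl _ _ h1 h2 (by linarith) (by linarith), t1, t2⟩
  rw [hG.pc _ _ h1 h2 (by linarith) (by linarith), if_pos ⟨by linarith, by linarith⟩, pm_div hG]

/-- names of the plates of the window are different -/
lemma kn_inj {i j : ℤ} (h1 : xl ≤ G.m * i) (h2 : G.m * i < G.xe) (h3 : xl ≤ G.m * j)
    (h4 : G.m * j < G.xe) (h : G.kn i = G.kn j) : i = j := by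
  have h5 := (prp_pl hG h1 h2).1
  rw [h] at h5
  have h6 : G.pl (G.m * i) G.Yc = some (G.kn (G.m * j / G.m)) := by rw [pm_div hG]; exact h5
  have h7 := (hG.po _ _ _ h3 h4 h6).1
  rwa [pm_div hG, pm_div hG] at h7

/-- **coin model of `WU`** -/
theorem okB_WU (hw : PWin G xl H r) :
    (pCh G (dR G) fun _ => 0).OkB (pv G) (10 * r) G.WU.E G.WU.b (prp G) := by
  refine Ch.okB_of (k := G.kn) (fun e he => room_E hG hw he) (fun e he => ?_) (fun i hi => ?_)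
    (fun i j hi hj h => ?_)
  · show bb G.plU e = Sum.inl e
    unfold bb
    rw [room_plU hG hw he]
  · obtain ⟨h1, h2⟩ := pWin_plate hG hw hi
    obtain ⟨p1, p2, p3, p4⟩ := prp_pl hG h1 h2
    refine ⟨p2, ?_⟩
    have hh : (0 : ℤ) < G.h := by exact_mod_cast hG.hh
    show bb G.plU (prp G i) = Sum.inr (G.kn i)
    unfold bb Pic.plU
    rw [prp_cx, prp_cy, if_neg (by rintro ⟨-, -, h3⟩; linarith), p1]
  · obtain ⟨h1, h2⟩ := pWin_plate hG hw hi
    obtain ⟨h3, h4⟩ := pWin_plate hG hw hj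
    exact kn_inj hG h1 h2 h3 h4 h

/-- **coin model of `WL`** -/
theorem okB_WL (hw : PWin G xl H r) :
    (pCh G (fun _ => 0) (dR G)).OkB (pv G) (10 * r) G.WL.E G.WL.b (prp G) := by
  refine Ch.okB_of (k := G.kn) (fun e he => ?_) (fun e he => ?_) (fun i hi => ?_)
    (fun i j hi hj h => ?_)
  · show e ∈ G.E \ G.Rt
    exact mem_sdiff.2 ⟨room_E hG hw he, room_Rt hG hw he⟩
  · show bb G.plL e = Sum.inl e
    unfold bb
    rw [room_plL hG hw he]
  · obtain ⟨h1, h2⟩ := pWin_plate hG hw hi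
    obtain ⟨p1, p2, p3, p4⟩ := prp_pl hG h1 h2
    have hh : (0 : ℤ) < G.h := by exact_mod_cast hG.hh
    refine ⟨?_, ?_⟩
    · show prp G i ∈ G.E \ G.Rt
      refine mem_sdiff.2 ⟨p2, fun h => ?_⟩
      unfold Pic.Rt at h
      have := (mem_filter.1 h).2.1
      rw [prp_cy] at this
      omega
    · show bb G.plL (prp G i) = Sum.inr (G.kn i)
      unfold bb Pic.plL
      rw [prp_cx, prp_cy, if_neg (by rintro ⟨-, -, h3⟩; linarith), p1]
  · obtain ⟨h1, h2⟩ := pWin_plate hG hw hi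
    obtain ⟨h3, h4⟩ := pWin_plate hG hw hj
    exact kn_inj hG h1 h2 h3 h4 h

end

/-- the block rectangle: labels at most `A` columns from `xs` and `ρ` rows from `Yc` -/
def Rec (G : Pic κ) (A ρ : ℤ) : Set (ℤ × ℤ) := {e | |cx e - G.xs| ≤ A ∧ |cy e - G.Yc| ≤ ρ}

/-- the rooms outside the small box are in `O` -/
lemma pO_rooms (hG : G.Ok xl H) (hw : PWin G xl H r) {s : ℕ} {A ρ : ℤ} (hA : A + ρ + 1 ≤ 18 * s)
    (hU : ∀ i, 0 ≤ dU i ∧ dU i ≤ 1) (hL : ∀ i, 0 ≤ dL i ∧ dL i ≤ 1)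
    {O : Finset (ℤ × ℤ)} {e : ℤ × ℤ}
    (he : e ∈ (pCh G dU dL).rooms (pv G) (10 * r)) (heB : e ∉ BR (pv G) (9 * s))
    (hO : e ∉ Rec G A ρ → cy e ≠ G.Yd → xl ≤ cx e → cx e < G.xe → G.Yc - H ≤ cy e →
      cy e < G.Yc + H → e ∈ O) : e ∈ O := by
  obtain ⟨ho, -, -, k2, k3, k4, k5, k6⟩ := pCh_rooms hG hw he
  refine hO ?_ ?_ k2 k3 k4 k5
  · rintro ⟨h1, h2⟩
    refine heB (rect_BR (A := A) (B := ρ) (by linarith) ho ?_ ?_)
    · rw [pv_sum hG]; exact h1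
    · rw [pv_dif hG]; exact h2
  · intro h
    have hT := (hG.th (cx e) k2 k3).1
    have hh : (0 : ℤ) < G.h := by exact_mod_cast hG.hh
    have d1 := (hU (cx e / G.m)).1
    have d2 := (hL (cx e / G.m)).1
    unfold Pic.Yd at h
    rcases k6 with k6 | k6 <;> linarith

/-- the reference labels of far plates are in `O` -/
lemma pO_prp (hG : G.Ok xl H) (hw : PWin G xl H r) {s : ℕ} {A ρ : ℤ} (hA : A + ρ + 1 ≤ 18 * s)
    (hρ : 0 ≤ ρ) {O : Finset (ℤ × ℤ)} {i : ℤ} (hs : 4 * G.m ≤ s)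
    (hi : (pCh G dU dL).Win (pv G) (10 * r) i)
    (hi2 : G.m * (i + 1) ≤ G.xs - 28 * s ∨ G.xs + 28 * s ≤ G.m * i)
    (hO : prp G i ∉ Rec G A ρ → cy (prp G i) ≠ G.Yd → xl ≤ cx (prp G i) → cx (prp G i) < G.xe →
      G.Yc - H ≤ cy (prp G i) → cy (prp G i) < G.Yc + H → prp G i ∈ O) : prp G i ∈ O := by
  obtain ⟨h1, h2⟩ := pWin_plate hG hw hi
  obtain ⟨-, -, t1, t2⟩ := prp_pl hG h1 h2
  have hh : (0 : ℤ) < G.h := by exact_mod_cast hG.hh
  have hm := hG.hm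
  rw [prp_cx, prp_cy] at hO
  refine hO ?_ ?_ h1 h2 (by linarith) (by linarith)
  · rintro ⟨k1, -⟩
    rw [prp_cx, abs_le] at k1
    have e2 : G.m * (i + 1) = G.m * i + G.m := by ring
    rw [e2] at hi2
    rcases hi2 with h | h <;> linarith
  · unfold Pic.Yd
    intro h
    linarith

/-- **Probability of the block in the canonical worlds**, radii in tiles; `O` contains the labels outside the
rectangle `Rec G A ρ` (and outside the deleted row). `KW` : the left plate has the state `st`, `KE` : the right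
plate has the state `st`. -/
theorem pG_block : ∃ kap : ℝ, 0 < kap ∧ ∀ {κ : Type*} [DecidableEq κ] (G : Pic κ) (xl H : ℤ)
    (s r : ℕ), G.Ok xl H → PWin G xl H r → 4 * G.m ≤ s → s ≤ r → ∀ A ρ : ℤ, 0 ≤ ρ →
    A + ρ + 1 ≤ 18 * s → ∀ (O : Finset (ℤ × ℤ)) (st : ℤ → Prop),
    ((∀ e ∈ G.WU.E, e ∉ Rec G A ρ → cy e ≠ G.Yd → xl ≤ cx e → cx e < G.xe → G.Yc - H ≤ cy e →
        cy e < G.Yc + H → e ∈ O) →
      PB G.WU.E G.WU.b (fun ω => ¬ (pCh G (dR G) fun _ => 0).BlkS (pv G) (KW (prp G) st) s r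
        (ω ∩ O)) ≤ (3 * (s : ℝ) / r) ^ kap ∧
      PB G.WU.E G.WU.b (fun ω => ¬ (pCh G (dR G) fun _ => 0).BlkS (pv G) (KE (prp G) st) s r
        (ω ∩ O)) ≤ (3 * (s : ℝ) / r) ^ kap) ∧
    ((∀ e ∈ G.WL.E, e ∉ Rec G A ρ → cy e ≠ G.Yd → xl ≤ cx e → cx e < G.xe → G.Yc - H ≤ cy e →
        cy e < G.Yc + H → e ∈ O) →
      PB G.WL.E G.WL.b (fun ω => ¬ (pCh G (fun _ => 0) (dR G)).BlkS (pv G) (KW (prp G) st) s r
        (ω ∩ O)) ≤ (3 * (s : ℝ) / r) ^ kap ∧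
      PB G.WL.E G.WL.b (fun ω => ¬ (pCh G (fun _ => 0) (dR G)).BlkS (pv G) (KE (prp G) st) s r
        (ω ∩ O)) ≤ (3 * (s : ℝ) / r) ^ kap) := by
  obtain ⟨kap, hk, D⟩ := chord_dyadic
  refine ⟨kap, hk, ?_⟩
  intro κ _ G xl H s r hG hw hs hsr A ρ hρ hA O st
  have z0 : ∀ i : ℤ, 0 ≤ (fun _ : ℤ => (0 : ℤ)) i ∧ (fun _ : ℤ => (0 : ℤ)) i ≤ 1 :=
    fun _ => ⟨le_refl _, by norm_num⟩
  obtain ⟨M', hM', e1, e2⟩ := pm hG
  have hh : (0 : ℤ) < G.h := by exact_mod_cast hG.hh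
  have hMh : 0 < M' * (G.h : ℤ) := by positivity
  have main : ∀ (dU dL : ℤ → ℤ), (∀ i, 0 ≤ dU i ∧ dU i ≤ 1) → (∀ i, 0 ≤ dL i ∧ dL i ≤ 1) →
      ∀ (E : Finset (ℤ × ℤ)) (bl : ℤ × ℤ → (ℤ × ℤ) ⊕ κ),
      (pCh G dU dL).OkB (pv G) (10 * r) E bl (prp G) →
      (∀ e ∈ E, e ∉ Rec G A ρ → cy e ≠ G.Yd → xl ≤ cx e → cx e < G.xe → G.Yc - H ≤ cy e →
        cy e < G.Yc + H → e ∈ O) →
      PB E bl (fun ω => ¬ (pCh G dU dL).BlkS (pv G) (KW (prp G) st) s r (ω ∩ O)) ≤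
        (3 * (s : ℝ) / r) ^ kap ∧
      PB E bl (fun ω => ¬ (pCh G dU dL).BlkS (pv G) (KE (prp G) st) s r (ω ∩ O)) ≤
        (3 * (s : ℝ) / r) ^ kap := by
    intro dU dL hU hL E bl hB hO
    obtain ⟨τ, hτ⟩ := pCh_ok (dU := dU) (dL := dL) hG hw hU hL
    have hN : (pCh G dU dL).N = M' * G.h := e2
    obtain ⟨g1, g2⟩ := D (pCh G dU dL) (pv G) (10 * r) τ E bl (prp G) hτ hB s r
      (by rw [hN]; rw [e1] at hs; linarith) hsr (by linarith) st
    have hOW : ∀ u : ℕ, s ≤ u → 3 * u ≤ r → (pCh G dU dL).W (pv G) (prp G) E u ⊆ O := by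
      intro u hu hu'
      have a1 : (s : ℤ) ≤ u := by exact_mod_cast hu
      have a2 : (3 * u : ℤ) ≤ r := by exact_mod_cast hu'
      have a3 : (1 : ℤ) ≤ s := by rw [e1] at hs; linarith
      refine W_sub_O (R := 10 * r) (ρ := 9 * s) (ρ' := 28 * s) (by linarith) (by linarith)
        (by linarith) (by linarith) (fun e he heB => ?_) (fun i hi hwi => ?_) (by rw [hN]; exact hMh)
      · exact pO_rooms hG hw hA hU hL he heB (hO e (hB.nat he))
      · refine pO_prp hG hw hA hρ hs hwi ?_ (hO _ (hB.mem i hwi))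
        rw [pv_sum hG] at hi
        unfold pCh at hi
        simp only at hi
        rw [e2] at hi
        rw [e1]
        rcases hi with h | h
        · left; linarith
        · right; linarith
    exact ⟨blkS_le KLoc_W hOW g1, blkS_le KLoc_E hOW g2⟩
  exact ⟨main (dR G) (fun _ => 0) (dR_bd G) z0 G.WU.E G.WU.b (okB_WU hG hw),
    main (fun _ => 0) (dR G) z0 (dR_bd G) G.WL.E G.WL.b (okB_WL hG hw)⟩

end Pool.Agent.H51.W
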