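import Mathlib
import Pool.Agent.H55.W.ChOk
import Pool.Agent.H91.W.Chn
import Pool.Agent.H74.W.World

set_option autoImplicit false
open Finset

/-! # Route W, D9 (StChd, V2): the chord of a glued polygon as a `Ch`, and the product over scales

Fine cells: `M = N M'` per coarse unit, `n = 2 h` tiles per fine cell. `vCh b N M' h Y dU dL` : the plates
of `plV` on the line `y = M Y`: plate `m` = fine cells `M' m ≤ x < M' (m+1)`, half thickness `N b - m`,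
banks raised by `dU m`, `dL m` tile rows. `vc` : the vertex over the plate boundary `x = M' k` on the line.
`VWin` : the window of radius `10 r` fine cells is inside the coarse column `X` and the strip of the line.

`vCh_ok` : `Ch.Ok`. `vCh_mem`, `vCh_rooms`, `vCh_plate` : labels. `vCh_okB` : coin model of the polygon.
`vCh_dyadic` : product over the scales. `vCh_eps` : epsilon form at a point `z0` of a chord. -/

namespace Pool.Agent.H51.W

open Pool.Agent.H75.Perc hiding WL CT hh PB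
open Pool.Agent.H75.TwoArm Pool.Agent.H75.Four Pool.Agent.H60.Q1 Pool.Agent.H33.Q1
open Pool.Agent.Q1.M4 (Cell)
open Pool.Agent.H91.W hiding cT
open Pool.Agent.H99.NC
open Pool.Agent.H58.W Pool.Agent.H50.W Pool.Agent.H55.W

/-- the chord of the line `Y` of the glued polygon -/
def vCh (b : ℤ) (N M' h : ℕ) (Y : ℤ) (dU dL : ℤ → ℤ) : Ch where
  X0 := 0
  N := M' * h
  TU m := ((N * M' : ℕ) * Y + (N * b - m)) * (2 * h) + dU m
  TL m := (-((N * M' : ℕ) * Y) + (N * b - m)) * (2 * h) + dL m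

/-- the vertex over the plate boundary `x = M' k` on the line `Y` -/
def vc (N M' h : ℕ) (Y k : ℤ) : ℤ × ℤ :=
  (h * (M' * k - (N * M' : ℕ) * Y), h * (M' * k + (N * M' : ℕ) * Y))

/-- conditions on the window (fine cells): radius `10 r` -/
structure VWin (b : ℤ) (N M' : ℕ) (X k : ℤ) (r : ℕ) : Prop where
  lef : ((N * M' : ℕ) : ℤ) * X + 10 * r ≤ M' * k
  rig : (M' : ℤ) * k + 10 * r ≤ ((N * M' : ℕ) : ℤ) * (X + 1)
  top : 20 * r + 2 ≤ N * M'
  hb : X + 1 ≤ b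
  thin : 64 * ((N : ℤ) * (b - X) + 1) ≤ M'

variable {b : ℤ} {N M' h r : ℕ} {X Y k : ℤ} {dU dL : ℤ → ℤ} {G Q : Finset Cell}

lemma VWin.M0 (hw : VWin b N M' X k r) : 0 < M' := by
  have h1 := hw.thin
  have h2 : (0 : ℤ) ≤ N * (b - X) := mul_nonneg (by positivity) (by have := hw.hb; omega)
  omega

lemma VWin.N0 (hw : VWin b N M' X k r) : 0 < N := by
  rcases Nat.eq_zero_or_pos N with h | h
  · have := hw.top
    rw [h] at this
    omega
  · exact h

lemma vc_sum : (vc N M' h Y k).1 + (vc N M' h Y k).2 = 2 * h * (M' * k) := by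
  unfold vc; ring

lemma vc_dif : (vc N M' h Y k).2 - (vc N M' h Y k).1 = ((N * M' : ℕ) * Y) * (2 * h) := by
  unfold vc; ring

/-- the plates of the window -/
lemma vWin_plate (hw : VWin b N M' X k r) (hh : 0 < h) {m : ℤ}
    (hm : (vCh b N M' h Y dU dL).Win (vc N M' h Y k) (10 * r * h) m) :
    N * X ≤ m ∧ m < N * (X + 1) := by
  have hM : (0 : ℤ) < M' := by exact_mod_cast hw.M0
  have hh' : (0 : ℤ) < h := by exact_mod_cast hh
  obtain ⟨g1, g2⟩ := hm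
  rw [vc_sum] at g1 g2
  have l1 := hw.lef
  have l2 := hw.rig
  push_cast at l1 l2
  unfold vCh at g1 g2
  simp only at g1 g2
  constructor
  · have h1 : (M' : ℤ) * k - 10 * r < M' * (m + 1) := by
      have : (h : ℤ) * (M' * k - 10 * r) < h * (M' * (m + 1)) := by nlinarith
      exact lt_of_mul_lt_mul_left this hh'.le
    have h2 : (M' : ℤ) * (N * X) < M' * (m + 1) := by nlinarith
    have h3 := lt_of_mul_lt_mul_left h2 hM.le
    omega
  · have h1 : (M' : ℤ) * m < M' * k + 10 * r := by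
      have : (h : ℤ) * (M' * m) < h * (M' * k + 10 * r) := by nlinarith
      exact lt_of_mul_lt_mul_left this hh'.le
    have h2 : (M' : ℤ) * m < M' * (N * (X + 1)) := by nlinarith
    exact lt_of_mul_lt_mul_left h2 hM.le

lemma vT (hw : VWin b N M' X k r) {m : ℤ} (h1 : N * X ≤ m) (h2 : m < N * (X + 1)) :
    1 ≤ (N : ℤ) * b - m ∧ 64 * ((N : ℤ) * b - m) + 64 ≤ M' := by
  have h3 : (N : ℤ) * (X + 1) ≤ N * b := mul_le_mul_of_nonneg_left hw.hb (by positivity)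
  have h4 := hw.thin
  have h5 : (N : ℤ) * (b - X) = N * b - N * X := by ring
  rw [h5] at h4
  omega

/-- **geometry of the chord** -/
theorem vCh_ok (hh : 2 ≤ h) (hw : VWin b N M' X k r) (hU : ∀ m, 0 ≤ dU m ∧ dU m ≤ 1)
    (hL : ∀ m, 0 ≤ dL m ∧ dL m ≤ 1) :
    ∃ τ, (vCh b N M' h Y dU dL).Ok (vc N M' h Y k) (10 * r * h) τ := by
  have hp := fun m hm => vWin_plate (Y := Y) (dU := dU) (dL := dL) (m := m) hw (by omega : 0 < h) hm
  have hM64 : (64 : ℤ) ≤ M' := by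
    have h2 : (0 : ℤ) ≤ N * (b - X) := mul_nonneg (by positivity) (by have := hw.hb; omega)
    have := hw.thin
    omega
  refine Ch.ok_of (h := h) (M := M') (Y := (N * M' : ℕ) * Y) (T := fun m => (N : ℤ) * b - m)
    (dU := dU) (dL := dL) (by exact_mod_cast hh) hM64 rfl (fun m m' _ _ hmm => by omega)
    (fun m hm => vT hw (hp m hm).1 (hp m hm).2) (fun m _ => hU m) (fun m _ => hL m)
    (fun m _ => rfl) (fun m _ => rfl) ?_
  rw [vc_dif, sub_self, abs_zero]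
  norm_num

/-- the columns and rows of the window -/
lemma vCh_box (hw : VWin b N M' X k r) (hh : 0 < h) {e : ℤ × ℤ}
    (he : e ∈ BR (vc N M' h Y k) (10 * r * h)) :
    (e.1 + e.2) % 2 = 1 ∧ ((N * M' : ℕ) : ℤ) * X * (2 * h) ≤ tX e ∧
      tX e < ((N * M' : ℕ) : ℤ) * (X + 1) * (2 * h) ∧
      (((N * M' : ℕ) : ℤ) * Y - 10 * r) * (2 * h) ≤ tY e ∧
      tY e < (((N * M' : ℕ) : ℤ) * Y + 10 * r) * (2 * h) := by
  have hh' : (0 : ℤ) < h := by exact_mod_cast hh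
  have h1 : (((N * M' : ℕ) : ℤ) * X + 10 * r) * h ≤ M' * k * h :=
    mul_le_mul_of_nonneg_right hw.lef hh'.le
  have h2 : ((M' : ℤ) * k + 10 * r) * h ≤ ((N * M' : ℕ) : ℤ) * (X + 1) * h :=
    mul_le_mul_of_nonneg_right hw.rig hh'.le
  rw [Pool.Agent.H91.W.mem_BR] at he
  unfold vc at he
  simp only at he
  set A : ℤ := ((N * M' : ℕ) : ℤ) with hA
  have e1 : (h : ℤ) * (M' * k - A * Y) = M' * k * h - A * Y * h := by ring
  have e2 : (h : ℤ) * (M' * k + A * Y) = M' * k * h + A * Y * h := by ring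
  have e3 : A * X * (2 * h) = 2 * (A * X * h) := by ring
  have e4 : A * (X + 1) * (2 * h) = 2 * (A * (X + 1) * h) := by ring
  have e5 : (A * Y - 10 * r) * (2 * h) = 2 * (A * Y * h) - 2 * (10 * r * h) := by ring
  have e6 : (A * Y + 10 * r) * (2 * h) = 2 * (A * Y * h) + 2 * (10 * r * h) := by ring
  have e7 : (A * X + 10 * r) * h = A * X * h + 10 * r * h := by ring
  have e8 : ((M' : ℤ) * k + 10 * r) * h = M' * k * h + 10 * r * h := by ring
  rw [e7] at h1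
  rw [e8] at h2
  rw [e1, e2] at he
  rw [e3, e4, e5, e6]
  unfold tX tY
  refine ⟨he.2.2, ?_, ?_, ?_, ?_⟩ <;> omega

/-- the fine cell of a label of the window -/
lemma vCh_cell (hw : VWin b N M' X k r) (hh : 0 < h) {e : ℤ × ℤ}
    (he : e ∈ BR (vc N M' h Y k) (10 * r * h)) :
    ((N * M' : ℕ) : ℤ) * X ≤ tX e / (2 * h) ∧ tX e / (2 * h) < ((N * M' : ℕ) : ℤ) * (X + 1) ∧
      ((N * M' : ℕ) : ℤ) * Y - 10 * r ≤ tY e / (2 * h) ∧
      tY e / (2 * h) < ((N * M' : ℕ) : ℤ) * Y + 10 * r := by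
  have hn : (0 : ℤ) < 2 * (h : ℤ) := by positivity
  obtain ⟨-, h2, h3, h4, h5⟩ := vCh_box hw hh he
  rw [Int.le_ediv_iff_mul_le hn, Int.ediv_lt_iff_lt_mul hn, Int.le_ediv_iff_mul_le hn,
    Int.ediv_lt_iff_lt_mul hn]
  exact ⟨h2, h3, h4, h5⟩

/-- the coarse column and the line of a fine cell of the window -/
lemma vCh_line (hw : VWin b N M' X k r) {c : Cell}
    (h1 : ((N * M' : ℕ) : ℤ) * X ≤ c.1) (h2 : c.1 < ((N * M' : ℕ) : ℤ) * (X + 1))
    (h3 : ((N * M' : ℕ) : ℤ) * Y - 10 * r ≤ c.2) (h4 : c.2 < ((N * M' : ℕ) : ℤ) * Y + 10 * r) :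
    c.1 / ((N * M' : ℕ) : ℤ) = X ∧ (c.2 + ((N * M' : ℕ) : ℤ) / 2) / ((N * M' : ℕ) : ℤ) = Y := by
  have hA : (0 : ℤ) < ((N * M' : ℕ) : ℤ) := by
    exact_mod_cast Nat.mul_pos hw.N0 hw.M0
  have ht : (20 * r + 2 : ℤ) ≤ ((N * M' : ℕ) : ℤ) := by exact_mod_cast hw.top
  set A : ℤ := ((N * M' : ℕ) : ℤ) with hAdef
  have e1 : A * (X + 1) = X * A + A := by ring
  have e2 : A * X = X * A := by ring
  have e3 : A * Y = Y * A := by ring
  rw [e1] at h2
  rw [e2] at h1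
  rw [e3] at h3 h4
  constructor
  · rw [Int.ediv_eq_iff_of_pos hA]
    exact ⟨h1, h2⟩
  · rw [Int.ediv_eq_iff_of_pos hA]
    omega

/-- labels of the window are in the polygon -/
theorem vCh_mem (hw : VWin b N M' X k r) (hh : 0 < h) (hQ1 : (X, Y) ∈ Q) (hQ2 : (X, Y - 1) ∈ Q)
    {e : ℤ × ℤ} (he : e ∈ BR (vc N M' h Y k) (10 * r * h)) :
    e ∈ TL Q (2 * ((N * M' * h : ℕ) : ℤ)) := by
  have hA0 : 0 < N * M' := Nat.mul_pos hw.N0 hw.M0
  have hn : (0 : ℤ) < 2 * ((N * M' * h : ℕ) : ℤ) := by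
    have : 0 < N * M' * h := Nat.mul_pos hA0 hh
    have : (0 : ℤ) < ((N * M' * h : ℕ) : ℤ) := by exact_mod_cast this
    omega
  obtain ⟨h1, -⟩ := vCh_box hw hh he
  obtain ⟨h2, h3, h4, h5⟩ := vCh_cell hw hh he
  rw [mem_TL hn]
  refine ⟨h1, ?_⟩
  rw [← ct_ct]
  have e0 : ct (2 * (h : ℤ)) (tt e) = (tX e / (2 * h), tY e / (2 * h)) := rfl
  rw [e0]
  have hA : (0 : ℤ) < ((N * M' : ℕ) : ℤ) := by exact_mod_cast hA0
  have ht : (20 * r + 2 : ℤ) ≤ ((N * M' : ℕ) : ℤ) := by exact_mod_cast hw.top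
  unfold ct
  simp only
  set A : ℤ := ((N * M' : ℕ) : ℤ) with hAdef
  have e1 : A * (X + 1) = X * A + A := by ring
  have e2 : A * X = X * A := by ring
  have e3 : A * Y = Y * A := by ring
  have e4 : (Y - 1) * A = Y * A - A := by ring
  rw [e1] at h3
  rw [e2] at h2
  rw [e3] at h4 h5
  have k1 : tX e / (2 * (h : ℤ)) / A = X := by
    rw [Int.ediv_eq_iff_of_pos hA]
    exact ⟨h2, h3⟩
  rcases le_or_gt (Y * A) (tY e / (2 * (h : ℤ))) with h6 | h6
  · have k2 : tY e / (2 * (h : ℤ)) / A = Y := by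
      rw [Int.ediv_eq_iff_of_pos hA]
      omega
    rw [k1, k2]
    exact hQ1
  · have k2 : tY e / (2 * (h : ℤ)) / A = Y - 1 := by
      rw [Int.ediv_eq_iff_of_pos hA, e4]
      omega
    rw [k1, k2]
    exact hQ2

/-- half thickness of the chord over a column of tiles -/
lemma vCh_K (_hh : 0 < h) (_hM : 0 < M') (x : ℤ) : x / (2 * (h : ℤ)) / (M' : ℤ) = plx 0 (M' * h) x := by
  unfold plx
  rw [sub_zero, Int.ediv_ediv_of_nonneg (by positivity)]
  congr 1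
  ring

/-- **labels of the rooms**: no plate there, above the raised upper bank or below the raised lower bank -/
theorem vCh_rooms (hw : VWin b N M' X k r) (hh : 0 < h) (hU : ∀ m, 0 ≤ dU m ∧ dU m ≤ 1)
    (hL : ∀ m, 0 ≤ dL m ∧ dL m ≤ 1) {e : ℤ × ℤ}
    (he : e ∈ (vCh b N M' h Y dU dL).rooms (vc N M' h Y k) (10 * r * h)) :
    e ∈ BR (vc N M' h Y k) (10 * r * h) ∧ plV G b N M' (ct (2 * h) (tt e)) = none ∧
      ((((N * M' : ℕ) : ℤ) * Y + (N * b - plx 0 (M' * h) (tX e))) * (2 * h) +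
          dU (plx 0 (M' * h) (tX e)) ≤ tY e ∨
        tY e ≤ -1 - ((-(((N * M' : ℕ) : ℤ) * Y) + (N * b - plx 0 (M' * h) (tX e))) * (2 * h) +
          dL (plx 0 (M' * h) (tX e)))) := by
  have hn : (0 : ℤ) < 2 * (h : ℤ) := by positivity
  unfold Ch.rooms at he
  have key : ∀ e : ℤ × ℤ, e ∈ BR (vc N M' h Y k) (10 * r * h) →
      ((((N * M' : ℕ) : ℤ) * Y + (N * b - plx 0 (M' * h) (tX e))) * (2 * h) ≤ tY e ∨
        tY e ≤ -1 - (-(((N * M' : ℕ) : ℤ) * Y) + (N * b - plx 0 (M' * h) (tX e))) * (2 * h)) →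
      plV G b N M' (ct (2 * h) (tt e)) = none := by
    intro e he h1
    obtain ⟨g1, g2, g3, g4⟩ := vCh_cell hw hh he
    have e0 : ct (2 * (h : ℤ)) (tt e) = (tX e / (2 * h), tY e / (2 * h)) := rfl
    rw [e0]
    obtain ⟨l1, l2⟩ := vCh_line (c := (tX e / (2 * (h : ℤ)), tY e / (2 * (h : ℤ)))) hw g1 g2 g3 g4
    unfold plV
    simp only at l1 l2 ⊢
    rw [l2, if_neg]
    rintro ⟨-, h2, h3⟩
    rw [vCh_K hh hw.M0] at h2 h3
    set T := (N : ℤ) * b - plx 0 (M' * h) (tX e) with hT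
    set A : ℤ := ((N * M' : ℕ) : ℤ) with hA
    have h4 : tY e / (2 * (h : ℤ)) < A * Y + T := by linarith
    have h5 : A * Y - T ≤ tY e / (2 * (h : ℤ)) := by linarith
    rw [Int.ediv_lt_iff_lt_mul hn] at h4
    rw [Int.le_ediv_iff_mul_le hn] at h5
    rcases h1 with h1 | h1
    · linarith
    · have : (-(A * Y) + T) * (2 * (h : ℤ)) = -((A * Y - T) * (2 * h)) := by ring
      rw [this] at h1
      linarith
  rcases mem_union.1 he with h1 | h1
  · obtain ⟨h2, h3⟩ := mem_RU.1 h1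
    have h5 : (vCh b N M' h Y dU dL).U (tX e) =
        (((N * M' : ℕ) : ℤ) * Y + (N * b - plx 0 (M' * h) (tX e))) * (2 * h) +
          dU (plx 0 (M' * h) (tX e)) := rfl
    rw [h5] at h3
    have h6 := (hU (plx 0 (M' * h) (tX e))).1
    exact ⟨h2, key e h2 (Or.inl (by linarith)), Or.inl h3⟩
  · obtain ⟨h2, h3⟩ := mem_RL.1 h1
    have h5 : (vCh b N M' h Y dU dL).L (tX e) =
        (-(((N * M' : ℕ) : ℤ) * Y) + (N * b - plx 0 (M' * h) (tX e))) * (2 * h) +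
          dL (plx 0 (M' * h) (tX e)) := rfl
    rw [h5] at h3
    have h6 := (hL (plx 0 (M' * h) (tX e))).1
    exact ⟨h2, key e h2 (Or.inr (by linarith)), Or.inr h3⟩

/-- **labels of the plates** -/
theorem vCh_plate (hw : VWin b N M' X k r) (hh : 0 < h) (hG : (X, Y) ∈ G) {m : ℤ}
    (h1 : N * X ≤ m) (h2 : m < N * (X + 1)) {e : ℤ × ℤ}
    (h3 : 2 * ((M' : ℤ) * h) * m ≤ tX e) (h4 : tX e < 2 * ((M' : ℤ) * h) * (m + 1))
    (h5 : (((N * M' : ℕ) : ℤ) * Y - (N * b - m)) * (2 * h) ≤ tY e)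
    (h6 : tY e < (((N * M' : ℕ) : ℤ) * Y + (N * b - m)) * (2 * h)) :
    plV G b N M' (ct (2 * h) (tt e)) = some (m, Y) := by
  have hn : (0 : ℤ) < 2 * (h : ℤ) := by positivity
  have hM : (0 : ℤ) < M' := by exact_mod_cast hw.M0
  obtain ⟨t1, t2⟩ := vT hw h1 h2
  have e0 : ct (2 * (h : ℤ)) (tt e) = (tX e / (2 * h), tY e / (2 * h)) := rfl
  rw [e0]
  have f3 : (M' : ℤ) * m ≤ tX e / (2 * h) := by
    rw [Int.le_ediv_iff_mul_le hn]; linarith
  have f4 : tX e / (2 * h) < M' * (m + 1) := by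
    rw [Int.ediv_lt_iff_lt_mul hn]; linarith
  have f5 : ((N * M' : ℕ) : ℤ) * Y - (N * b - m) ≤ tY e / (2 * h) := by
    rw [Int.le_ediv_iff_mul_le hn]; exact h5
  have f6 : tY e / (2 * h) < ((N * M' : ℕ) : ℤ) * Y + (N * b - m) := by
    rw [Int.ediv_lt_iff_lt_mul hn]; exact h6
  have hN : (1 : ℤ) ≤ N := by exact_mod_cast hw.N0
  have hMN : (M' : ℤ) ≤ ((N * M' : ℕ) : ℤ) := by push_cast; nlinarith
  have k1 : ((N * M' : ℕ) : ℤ) * X ≤ tX e / (2 * h) := by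
    refine le_trans ?_ f3
    push_cast; nlinarith
  have k2 : tX e / (2 * h) < ((N * M' : ℕ) : ℤ) * (X + 1) := by
    refine lt_of_lt_of_le f4 ?_
    push_cast; nlinarith
  have hA : (0 : ℤ) < ((N * M' : ℕ) : ℤ) := by linarith
  have e7 : tX e / (2 * (h : ℤ)) / M' = m := by
    rw [Int.ediv_eq_iff_of_pos hM]
    constructor <;> nlinarith
  set A : ℤ := ((N * M' : ℕ) : ℤ) with hAdef
  have e1 : A * (X + 1) = X * A + A := by ring
  have e2 : A * X = X * A := by ring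
  have e3 : A * Y = Y * A := by ring
  have l1 : tX e / (2 * (h : ℤ)) / A = X := by
    rw [Int.ediv_eq_iff_of_pos hA]
    rw [e1] at k2
    rw [e2] at k1
    exact ⟨k1, k2⟩
  have l2 : (tY e / (2 * (h : ℤ)) + A / 2) / A = Y := by
    rw [Int.ediv_eq_iff_of_pos hA]
    rw [e3] at f5 f6
    omega
  unfold plV
  simp only
  rw [← hAdef, l1, l2, e7, if_pos]
  exact ⟨hG, by linarith, by linarith⟩

/-- the reference label of the plate `m` -/
def vrp (N M' h : ℕ) (Y m : ℤ) : ℤ × ℤ :=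
  lt (2 * ((M' : ℤ) * h) * m, ((N * M' : ℕ) : ℤ) * Y * (2 * h))

lemma vrp_tX (m : ℤ) : tX (vrp N M' h Y m) = 2 * ((M' : ℤ) * h) * m := by
  have h1 : tt (vrp N M' h Y m) = (2 * ((M' : ℤ) * h) * m, ((N * M' : ℕ) : ℤ) * Y * (2 * h)) :=
    tt_lt _
  exact congrArg Prod.fst h1

lemma vrp_tY (m : ℤ) : tY (vrp N M' h Y m) = ((N * M' : ℕ) : ℤ) * Y * (2 * h) := by
  have h1 : tt (vrp N M' h Y m) = (2 * ((M' : ℤ) * h) * m, ((N * M' : ℕ) : ℤ) * Y * (2 * h)) :=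
    tt_lt _
  exact congrArg Prod.snd h1

/-- **the coin model of the polygon** -/
theorem vCh_okB (hw : VWin b N M' X k r) (hh : 0 < h) (hG : (X, Y) ∈ G) (hQ1 : (X, Y) ∈ Q)
    (hQ2 : (X, Y - 1) ∈ Q) (hU : ∀ m, 0 ≤ dU m ∧ dU m ≤ 1) (hL : ∀ m, 0 ≤ dL m ∧ dL m ≤ 1) :
    (vCh b N M' h Y dU dL).OkB (vc N M' h Y k) (10 * r * h)
      (TL Q (2 * ((N * M' * h : ℕ) : ℤ))) (bk (2 * (h : ℤ)) (plV G b N M')) (vrp N M' h Y) := by
  have hn : (0 : ℤ) < 2 * (h : ℤ) := by positivity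
  have hM : (0 : ℤ) < M' := by exact_mod_cast hw.M0
  have hA0 : 0 < N * M' := Nat.mul_pos hw.N0 hw.M0
  refine Ch.okB_of (k := fun m => (m, Y)) (fun e he => ?_) (fun e he => ?_) (fun m hm => ?_)
    (fun m m' _ _ h => congrArg Prod.fst h)
  · exact vCh_mem hw hh hQ1 hQ2 (vCh_rooms (G := G) hw hh hU hL he).1
  · exact bk_none (vCh_rooms (G := G) hw hh hU hL he).2.1
  · obtain ⟨m1, m2⟩ := vWin_plate hw hh hm
    obtain ⟨t1, t2⟩ := vT hw m1 m2
    have hT0 : 0 < ((N : ℤ) * b - m) * (2 * h) := by positivity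
    have hpl : plV G b N M' (ct (2 * h) (tt (vrp N M' h Y m))) = some (m, Y) := by
      refine vCh_plate hw hh hG m1 m2 ?_ ?_ ?_ ?_
      · rw [vrp_tX]
      · rw [vrp_tX]
        have : 0 < 2 * ((M' : ℤ) * h) := by positivity
        nlinarith
      · rw [vrp_tY]
        nlinarith
      · rw [vrp_tY]
        nlinarith
    refine ⟨?_, bk_some hpl⟩
    have hnn : (0 : ℤ) < 2 * ((N * M' * h : ℕ) : ℤ) := by
      have : 0 < N * M' * h := Nat.mul_pos hA0 hh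
      have : (0 : ℤ) < ((N * M' * h : ℕ) : ℤ) := by exact_mod_cast this
      omega
    rw [mem_TL hnn]
    refine ⟨lt_odd _, ?_⟩
    have e1 : ct (2 * ((N * M' * h : ℕ) : ℤ)) (tt (vrp N M' h Y m)) = (X, Y) := by
      rw [ct_eq hnn]
      have e2 : (tt (vrp N M' h Y m)).1 = 2 * ((M' : ℤ) * h) * m := vrp_tX m
      have e3 : (tt (vrp N M' h Y m)).2 = ((N * M' : ℕ) : ℤ) * Y * (2 * h) := vrp_tY m
      rw [e2, e3]
      have hh' : (0 : ℤ) < h := by exact_mod_cast hh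
      have hMh : (0 : ℤ) < 2 * ((M' : ℤ) * h) := by positivity
      have c1 : 2 * ((M' : ℤ) * h) * (N * X) ≤ 2 * ((M' : ℤ) * h) * m :=
        mul_le_mul_of_nonneg_left m1 hMh.le
      have c2 : 2 * ((M' : ℤ) * h) * m < 2 * ((M' : ℤ) * h) * (N * (X + 1)) :=
        mul_lt_mul_of_pos_left m2 hMh
      push_cast
      refine ⟨⟨?_, ?_⟩, ?_, ?_⟩
      · nlinarith
      · nlinarith
      · nlinarith
      · have : (0 : ℤ) < 2 * (N * M' * h) := by
          have := hnn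
          push_cast at this
          exact this
        nlinarith
    rw [e1]
    exact hQ1

/-- **product over the scales, polygon**; `s ≤ r` in fine cells -/
theorem vCh_dyadic : ∃ kap : ℝ, 0 < kap ∧ ∀ (b : ℤ) (N M' h : ℕ) (X Y k : ℤ) (s r : ℕ), 2 ≤ h →
    8 * M' ≤ s → s ≤ r → VWin b N M' X k r → ∀ dU dL : ℤ → ℤ, (∀ m, 0 ≤ dU m ∧ dU m ≤ 1) →
    (∀ m, 0 ≤ dL m ∧ dL m ≤ 1) → ∀ {β : Type*} [DecidableEq β] (E : Finset (ℤ × ℤ))
    (bl : ℤ × ℤ → β) (rp : ℤ → ℤ × ℤ),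
    (vCh b N M' h Y dU dL).OkB (vc N M' h Y k) (10 * r * h) E bl rp → ∀ st : ℤ → Prop,
    PB E bl (fun ω => ∀ u : ℕ, s * h ≤ u → 3 * u ≤ r * h →
      ¬ (vCh b N M' h Y dU dL).Blk (vc N M' h Y k) u (KW rp st) ω) ≤ (3 * (s : ℝ) / r) ^ kap ∧
    PB E bl (fun ω => ∀ u : ℕ, s * h ≤ u → 3 * u ≤ r * h →
      ¬ (vCh b N M' h Y dU dL).Blk (vc N M' h Y k) u (KE rp st) ω) ≤ (3 * (s : ℝ) / r) ^ kap := by
  obtain ⟨kap, hk, H⟩ := chord_dyadic
  refine ⟨kap, hk, ?_⟩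
  intro b N M' h X Y k s r hh hs hsr hw dU dL hU hL β _ E bl rp hB st
  obtain ⟨τ, hτ⟩ := vCh_ok (Y := Y) hh hw hU hL
  have hh0 : (0 : ℝ) < h := by exact_mod_cast (by omega : 0 < h)
  have key := H (vCh b N M' h Y dU dL) (vc N M' h Y k) (10 * r * h) τ E bl rp hτ hB (s * h) (r * h)
    (by
      have : ((8 * M' : ℕ) : ℤ) ≤ s := by exact_mod_cast hs
      show 8 * ((M' : ℤ) * h) ≤ ((s * h : ℕ) : ℤ)
      push_cast at this ⊢
      nlinarith)
    (Nat.mul_le_mul_right h hsr) (by push_cast; ring_nf; exact le_refl _) st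
  have e1 : 3 * ((s * h : ℕ) : ℝ) / ((r * h : ℕ) : ℝ) = 3 * (s : ℝ) / r := by
    push_cast
    rw [← mul_assoc, mul_div_mul_right _ _ hh0.ne']
  rw [e1] at key
  exact key

end Pool.Agent.H51.W
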