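import Mathlib
import Pool.Agent.H51.W.VCh

set_option autoImplicit false
open Finset

/-! # Route W, D9 (StChd, V2): the numbers of the chord block at a point `z0` of a chord -/

namespace Pool.Agent.H51.W

open Pool.Agent.Q1.M4 (Cell)
open Pool.Agent.H13.W (chG)
open Pool.Agent.H74.W
open Filter

/-- **The scales of the block at the point `z0` of a chord**, `z0` not over an integer abscissa. All
plate boundaries `k0` near `z0` are admissible centres. -/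
theorem vCh_num {kap : ℝ} (hkap : 0 < kap) {Q : Finset Cell} {b : ℤ} (hb : ∀ c ∈ chG Q, c.1 < b)
    {z0 : ℂ} (hz0 : z0 ∈ chU Q) (hz : ∀ m : ℤ, z0.re ≠ m) :
    ∃ X Y : ℤ, (X, Y) ∈ chG Q ∧ (X : ℝ) < z0.re ∧ z0.re < X + 1 ∧ z0.im = Y ∧
      ∃ r1 : ℝ, 0 < r1 ∧ ∀ ε > (0 : ℝ), ∀ A > (0 : ℝ), ∃ δ : ℝ, 0 < δ ∧ ∀ᶠ k in lK,
        ∃ s r : ℕ, A * δ * ((k.1 * k.2 : ℕ) : ℝ) ≤ s ∧ 8 * k.2 ≤ s ∧ s ≤ r ∧
          r1 * ((k.1 * k.2 : ℕ) : ℝ) ≤ r ∧ (r : ℝ) ≤ 2 * r1 * ((k.1 * k.2 : ℕ) : ℝ) ∧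
          (3 * (s : ℝ) / r) ^ kap ≤ ε ∧
          ∀ k0 : ℤ, |(k0 : ℝ) - k.1 * z0.re| ≤ 2 → VWin b k.1 k.2 X k0 r := by
  obtain ⟨⟨X, Y⟩, hG, him, hx1, hx2⟩ := hz0
  simp only at him hx1 hx2
  have hx1' : (X : ℝ) < z0.re := lt_of_le_of_ne hx1 (hz X).symm
  have hx2' : z0.re < X + 1 := by
    refine lt_of_le_of_ne hx2 ?_
    have := hz (X + 1)
    push_cast at this
    exact this
  refine ⟨X, Y, hG, hx1', hx2', him, ?_⟩
  set d : ℝ := min (z0.re - X) (X + 1 - z0.re) with hd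
  have hd0 : 0 < d := lt_min (by linarith) (by linarith)
  have hdl : d ≤ z0.re - X := min_le_left _ _
  have hdr : d ≤ X + 1 - z0.re := min_le_right _ _
  have hd1 : d ≤ 1 / 2 := by linarith
  refine ⟨d / 40, by positivity, ?_⟩
  intro ε hε A hA
  set μ : ℝ := (min 1 ε) ^ (1 / kap) with hμ
  have hm0 : 0 < min 1 ε := lt_min one_pos hε
  have hμ0 : 0 < μ := Real.rpow_pos_of_pos hm0 _
  have hμ1 : μ ≤ 1 := Real.rpow_le_one hm0.le (min_le_left _ _) (by positivity)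
  set η : ℝ := μ * (d / 40) / 3 with hη
  have hη0 : 0 < η := by positivity
  refine ⟨η / (2 * A), by positivity, ?_⟩
  have hbX : X + 1 ≤ b := by have := hb _ hG; simp only at this; omega
  unfold lK
  rw [Filter.eventually_curry_iff]
  -- large N
  filter_upwards [eventually_ge_atTop (⌈8 / η⌉₊ + ⌈4 / d⌉₊ + 1)] with N hN
  filter_upwards [eventually_ge_atTop (64 * (N * (b - X).toNat + 1) + ⌈2 / η⌉₊ + ⌈40 / d⌉₊ + 4)]
    with M' hM'
  have hN0 : 1 ≤ N := by omega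
  have hN1 : 8 / η ≤ N := (Nat.le_ceil _).trans (by exact_mod_cast (by omega : ⌈8 / η⌉₊ ≤ N))
  have hN2 : 4 / d ≤ N := (Nat.le_ceil _).trans (by exact_mod_cast (by omega : ⌈4 / d⌉₊ ≤ N))
  have hM1 : 2 / η ≤ M' := (Nat.le_ceil _).trans (by exact_mod_cast (by omega : ⌈2 / η⌉₊ ≤ M'))
  have hM2 : 40 / d ≤ M' := (Nat.le_ceil _).trans (by exact_mod_cast (by omega : ⌈40 / d⌉₊ ≤ M'))
  have hM4 : 4 ≤ M' := by omega
  have hNr : (1 : ℝ) ≤ N := by exact_mod_cast hN0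
  have hMr : (0 : ℝ) < M' := by exact_mod_cast (by omega : 0 < M')
  rw [div_le_iff₀ hη0] at hN1 hM1
  rw [div_le_iff₀ hd0] at hN2 hM2
  set B : ℝ := ((N * M' : ℕ) : ℝ) with hB
  have hBe : B = N * M' := by rw [hB]; push_cast; ring
  have hMB : (M' : ℝ) ≤ B := by rw [hBe]; nlinarith
  have hB0 : 0 < B := lt_of_lt_of_le hMr hMB
  have h8 : 8 * (M' : ℝ) ≤ η * B := by
    rw [hBe]
    have : 8 * (M' : ℝ) ≤ (N * η) * M' := mul_le_mul_of_nonneg_right hN1 hMr.le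
    linarith
  have h2 : 2 ≤ η * B := by
    have : (M' : ℝ) * η ≤ B * η := mul_le_mul_of_nonneg_right hMB hη0.le
    linarith
  have h40 : 40 ≤ d * B := by
    have : (M' : ℝ) * d ≤ B * d := mul_le_mul_of_nonneg_right hMB hd0.le
    linarith
  have h4 : 4 * (M' : ℝ) ≤ d * B := by
    rw [hBe]
    have : 4 * (M' : ℝ) ≤ (N * d) * M' := mul_le_mul_of_nonneg_right hN2 hMr.le
    linarith
  -- the numbers
  set s : ℕ := max ⌈A * (η / (2 * A)) * B⌉₊ (8 * M') with hs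
  set r : ℕ := ⌊2 * (d / 40) * B⌋₊ with hr
  have hrle : (r : ℝ) ≤ 2 * (d / 40) * B := Nat.floor_le (by positivity)
  have hrge : d / 40 * B ≤ r := by
    have h5 := Nat.lt_floor_add_one (2 * (d / 40) * B)
    rw [← hr] at h5
    have h6 : (1 : ℝ) ≤ d / 40 * B := by linarith
    linarith
  have hr0 : (0 : ℝ) < r := lt_of_lt_of_le (by positivity) hrge
  have hAe : A * (η / (2 * A)) = η / 2 := by field_simp
  have hsle : (s : ℝ) ≤ η * B := by
    rw [hs]
    push_cast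
    refine max_le ?_ h8
    have h5 := Nat.ceil_lt_add_one (a := A * (η / (2 * A)) * B) (by positivity)
    rw [hAe] at h5 ⊢
    linarith
  have h3s : 3 * (s : ℝ) / r ≤ μ := by
    rw [div_le_iff₀ hr0]
    have h5 : 3 * (η * B) = μ * (d / 40 * B) := by rw [hη]; ring
    calc 3 * (s : ℝ) ≤ 3 * (η * B) := by linarith
      _ = μ * (d / 40 * B) := h5
      _ ≤ μ * r := mul_le_mul_of_nonneg_left hrge hμ0.le
  refine ⟨s, r, ?_, le_max_right _ _, ?_, hrge, hrle, ?_, ?_⟩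
  · rw [hs]
    push_cast
    exact (Nat.le_ceil _).trans (le_max_left _ _)
  · have h5 : 3 * (s : ℝ) / r ≤ 1 := h3s.trans hμ1
    rw [div_le_one hr0] at h5
    have : (s : ℝ) ≤ r := by
      have : (0 : ℝ) ≤ s := by positivity
      linarith
    exact_mod_cast this
  · calc (3 * (s : ℝ) / r) ^ kap ≤ μ ^ kap := Real.rpow_le_rpow (by positivity) h3s hkap.le
      _ = min 1 ε := by
          rw [hμ, ← Real.rpow_mul hm0.le, one_div, inv_mul_cancel₀ hkap.ne', Real.rpow_one]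
      _ ≤ ε := min_le_right _ _
  · intro k0 hk0
    rw [abs_le] at hk0
    have e1 : (M' : ℝ) * k0 ≤ M' * (N * z0.re + 2) := mul_le_mul_of_nonneg_left (by linarith) hMr.le
    have e2 : (M' : ℝ) * (N * z0.re - 2) ≤ M' * k0 := mul_le_mul_of_nonneg_left (by linarith) hMr.le
    have e3 : (M' : ℝ) * (N * z0.re) = B * z0.re := by rw [hBe]; ring
    have f1 : B * (X : ℝ) + B * d ≤ B * z0.re := by
      have := mul_le_mul_of_nonneg_left hdl hB0.le
      linarith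
    have f2 : B * z0.re + B * d ≤ B * ((X : ℝ) + 1) := by
      have := mul_le_mul_of_nonneg_left hdr hB0.le
      linarith
    refine ⟨?_, ?_, ?_, hbX, ?_⟩
    · have : ((N * M' : ℕ) : ℝ) * X + 10 * r ≤ M' * k0 := by
        rw [← hB]
        linarith
      exact_mod_cast this
    · have : (M' : ℝ) * k0 + 10 * r ≤ ((N * M' : ℕ) : ℝ) * (X + 1) := by
        rw [← hB]
        linarith
      exact_mod_cast this
    · have h5 : 20 * (r : ℝ) + 2 ≤ B := by
        have h6 : d * B ≤ 1 / 2 * B := mul_le_mul_of_nonneg_right hd1 hB0.le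
        have h7 : (4 : ℝ) ≤ B := le_trans (by exact_mod_cast hM4) hMB
        linarith
      have : ((20 * r + 2 : ℕ) : ℝ) ≤ ((N * M' : ℕ) : ℝ) := by
        rw [← hB]; push_cast; exact h5
      exact_mod_cast this
    · have h5 : ((b - X).toNat : ℤ) = b - X := Int.toNat_of_nonneg (by omega)
      have h6 : 64 * (N * (b - X).toNat + 1) ≤ M' := by omega
      have h7 : (64 : ℤ) * (N * ((b - X).toNat : ℤ) + 1) ≤ M' := by exact_mod_cast h6
      rw [h5] at h7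
      exact h7

/-- **The scales of the block at the point `z0` of a chord, power form** (82's `PBk`): inner radius `A σ`
coarse units, outer radius `r1`. -/
theorem vCh_pow {Q : Finset Cell} {b : ℤ} (hb : ∀ c ∈ chG Q, c.1 < b)
    {z0 : ℂ} (hz0 : z0 ∈ chU Q) (hz : ∀ m : ℤ, z0.re ≠ m) :
    ∃ X Y : ℤ, (X, Y) ∈ chG Q ∧ (X : ℝ) < z0.re ∧ z0.re < X + 1 ∧ z0.im = Y ∧
      ∃ r1 : ℝ, 0 < r1 ∧ ∀ A > (0 : ℝ), ∀ σ > (0 : ℝ), 2 * A * σ ≤ r1 → ∀ᶠ k in lK,
        ∃ s r : ℕ, A * σ * ((k.1 * k.2 : ℕ) : ℝ) ≤ s ∧ (s : ℝ) ≤ 2 * A * σ * ((k.1 * k.2 : ℕ) : ℝ) ∧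
          8 * k.2 ≤ s ∧ s ≤ r ∧
          r1 * ((k.1 * k.2 : ℕ) : ℝ) ≤ r ∧ (r : ℝ) ≤ 2 * r1 * ((k.1 * k.2 : ℕ) : ℝ) ∧
          3 * (s : ℝ) / r ≤ 6 * A / r1 * σ ∧
          ∀ k0 : ℤ, |(k0 : ℝ) - k.1 * z0.re| ≤ 2 → VWin b k.1 k.2 X k0 r := by
  obtain ⟨⟨X, Y⟩, hG, him, hx1, hx2⟩ := hz0
  simp only at him hx1 hx2
  have hx1' : (X : ℝ) < z0.re := lt_of_le_of_ne hx1 (hz X).symm
  have hx2' : z0.re < X + 1 := by
    refine lt_of_le_of_ne hx2 ?_
    have := hz (X + 1)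
    push_cast at this
    exact this
  refine ⟨X, Y, hG, hx1', hx2', him, ?_⟩
  set d : ℝ := min (z0.re - X) (X + 1 - z0.re) with hd
  have hd0 : 0 < d := lt_min (by linarith) (by linarith)
  have hdl : d ≤ z0.re - X := min_le_left _ _
  have hdr : d ≤ X + 1 - z0.re := min_le_right _ _
  have hd1 : d ≤ 1 / 2 := by linarith
  refine ⟨d / 40, by positivity, ?_⟩
  intro A hA σ hσ hAσ
  set η : ℝ := A * σ with hη
  have hη0 : 0 < η := by positivity
  have hbX : X + 1 ≤ b := by have := hb _ hG; simp only at this; omega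
  unfold lK
  rw [Filter.eventually_curry_iff]
  -- large N
  filter_upwards [eventually_ge_atTop (⌈8 / η⌉₊ + ⌈4 / d⌉₊ + 1)] with N hN
  filter_upwards [eventually_ge_atTop (64 * (N * (b - X).toNat + 1) + ⌈1 / η⌉₊ + ⌈40 / d⌉₊ + 4)]
    with M' hM'
  have hN0 : 1 ≤ N := by omega
  have hN1 : 8 / η ≤ N := (Nat.le_ceil _).trans (by exact_mod_cast (by omega : ⌈8 / η⌉₊ ≤ N))
  have hN2 : 4 / d ≤ N := (Nat.le_ceil _).trans (by exact_mod_cast (by omega : ⌈4 / d⌉₊ ≤ N))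
  have hM1 : 1 / η ≤ M' := (Nat.le_ceil _).trans (by exact_mod_cast (by omega : ⌈1 / η⌉₊ ≤ M'))
  have hM2 : 40 / d ≤ M' := (Nat.le_ceil _).trans (by exact_mod_cast (by omega : ⌈40 / d⌉₊ ≤ M'))
  have hM4 : 4 ≤ M' := by omega
  have hNr : (1 : ℝ) ≤ N := by exact_mod_cast hN0
  have hMr : (0 : ℝ) < M' := by exact_mod_cast (by omega : 0 < M')
  rw [div_le_iff₀ hη0] at hN1 hM1
  rw [div_le_iff₀ hd0] at hN2 hM2
  set B : ℝ := ((N * M' : ℕ) : ℝ) with hB
  have hBe : B = N * M' := by rw [hB]; push_cast; ring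
  have hMB : (M' : ℝ) ≤ B := by rw [hBe]; nlinarith
  have hB0 : 0 < B := lt_of_lt_of_le hMr hMB
  have h8 : 8 * (M' : ℝ) ≤ η * B := by
    rw [hBe]
    have : 8 * (M' : ℝ) ≤ (N * η) * M' := mul_le_mul_of_nonneg_right hN1 hMr.le
    linarith
  have h2 : 1 ≤ η * B := by
    have : (M' : ℝ) * η ≤ B * η := mul_le_mul_of_nonneg_right hMB hη0.le
    linarith
  have h40 : 40 ≤ d * B := by
    have : (M' : ℝ) * d ≤ B * d := mul_le_mul_of_nonneg_right hMB hd0.le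
    linarith
  have h4 : 4 * (M' : ℝ) ≤ d * B := by
    rw [hBe]
    have : 4 * (M' : ℝ) ≤ (N * d) * M' := mul_le_mul_of_nonneg_right hN2 hMr.le
    linarith
  -- the numbers
  set s : ℕ := ⌈η * B⌉₊ with hs
  set r : ℕ := ⌊2 * (d / 40) * B⌋₊ with hr
  have hrle : (r : ℝ) ≤ 2 * (d / 40) * B := Nat.floor_le (by positivity)
  have hrge : d / 40 * B ≤ r := by
    have h5 := Nat.lt_floor_add_one (2 * (d / 40) * B)
    rw [← hr] at h5
    have h6 : (1 : ℝ) ≤ d / 40 * B := by linarith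
    linarith
  have hr0 : (0 : ℝ) < r := lt_of_lt_of_le (by positivity) hrge
  have hsge : η * B ≤ s := Nat.le_ceil _
  have hsle : (s : ℝ) ≤ 2 * η * B := by
    have h5 := Nat.ceil_lt_add_one (a := η * B) (by positivity)
    rw [← hs] at h5
    linarith
  have hηd : 2 * η ≤ d / 40 := by rw [hη]; linarith
  have hsr : (s : ℝ) ≤ r := by
    have : 2 * η * B ≤ d / 40 * B := mul_le_mul_of_nonneg_right hηd hB0.le
    linarith
  refine ⟨s, r, hsge, ?_, ?_, by exact_mod_cast hsr, hrge, hrle, ?_, ?_⟩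
  · rw [hη] at hsle; linarith
  · have : 8 * (M' : ℝ) ≤ s := h8.trans hsge
    exact_mod_cast this
  · rw [div_le_iff₀ hr0]
    have h5 : 6 * η * B = 6 * A / (d / 40) * σ * (d / 40 * B) := by
      rw [hη]; field_simp
    calc 3 * (s : ℝ) ≤ 6 * η * B := by linarith
      _ = 6 * A / (d / 40) * σ * (d / 40 * B) := h5
      _ ≤ 6 * A / (d / 40) * σ * r := mul_le_mul_of_nonneg_left hrge (by positivity)
  · intro k0 hk0
    rw [abs_le] at hk0
    have e1 : (M' : ℝ) * k0 ≤ M' * (N * z0.re + 2) := mul_le_mul_of_nonneg_left (by linarith) hMr.le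
    have e2 : (M' : ℝ) * (N * z0.re - 2) ≤ M' * k0 := mul_le_mul_of_nonneg_left (by linarith) hMr.le
    have e3 : (M' : ℝ) * (N * z0.re) = B * z0.re := by rw [hBe]; ring
    have f1 : B * (X : ℝ) + B * d ≤ B * z0.re := by
      have := mul_le_mul_of_nonneg_left hdl hB0.le
      linarith
    have f2 : B * z0.re + B * d ≤ B * ((X : ℝ) + 1) := by
      have := mul_le_mul_of_nonneg_left hdr hB0.le
      linarith
    refine ⟨?_, ?_, ?_, hbX, ?_⟩
    · have : ((N * M' : ℕ) : ℝ) * X + 10 * r ≤ M' * k0 := by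
        rw [← hB]
        linarith
      exact_mod_cast this
    · have : (M' : ℝ) * k0 + 10 * r ≤ ((N * M' : ℕ) : ℝ) * (X + 1) := by
        rw [← hB]
        linarith
      exact_mod_cast this
    · have h5 : 20 * (r : ℝ) + 2 ≤ B := by
        have h6 : d * B ≤ 1 / 2 * B := mul_le_mul_of_nonneg_right hd1 hB0.le
        have h7 : (4 : ℝ) ≤ B := le_trans (by exact_mod_cast hM4) hMB
        linarith
      have : ((20 * r + 2 : ℕ) : ℝ) ≤ ((N * M' : ℕ) : ℝ) := by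
        rw [← hB]; push_cast; exact h5
      exact_mod_cast this
    · have h5 : ((b - X).toNat : ℤ) = b - X := Int.toNat_of_nonneg (by omega)
      have h6 : 64 * (N * (b - X).toNat + 1) ≤ M' := by omega
      have h7 : (64 : ℤ) * (N * ((b - X).toNat : ℤ) + 1) ≤ M' := by exact_mod_cast h6
      rw [h5] at h7
      exact h7

open Pool.Agent.Q1.M4 (lat) in
/-- position of a tile near a point, in tiles -/
lemma ps_near {k : ℕ × ℕ} {h : ℕ} {p : ℤ × ℤ} {z : ℂ} {σ : ℝ} (hk : 0 < k.1 * k.2) (hh : 0 < h)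
    (hd : dist (ps k h p) z < σ) :
    |(p.1 : ℝ) - 2 * h * ((k.1 * k.2 : ℕ) : ℝ) * z.re| ≤ 2 * h * ((k.1 * k.2 : ℕ) : ℝ) * σ ∧
      |(p.2 : ℝ) - 2 * h * ((k.1 * k.2 : ℕ) : ℝ) * z.im| ≤ 2 * h * ((k.1 * k.2 : ℕ) : ℝ) * σ := by
  have hR : RR k h = 2 * h * ((k.1 * k.2 : ℕ) : ℝ) := by unfold RR; push_cast; ring
  have hR0 : 0 < RR k h := by
    rw [hR]
    have : (0 : ℝ) < ((k.1 * k.2 : ℕ) : ℝ) := by exact_mod_cast hk
    have : (0 : ℝ) < h := by exact_mod_cast hh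
    positivity
  rw [← hR]
  have hre : (ps k h p).re = p.1 / RR k h := by
    unfold ps lat
    rw [Complex.div_ofReal_re]
  have him : (ps k h p).im = p.2 / RR k h := by
    unfold ps lat
    rw [Complex.div_ofReal_im]
  rw [dist_eq_norm] at hd
  have h1 := (Complex.abs_re_le_norm (ps k h p - z)).trans hd.le
  have h2 := (Complex.abs_im_le_norm (ps k h p - z)).trans hd.le
  rw [Complex.sub_re, hre] at h1
  rw [Complex.sub_im, him] at h2
  constructor
  · have e1 : (p.1 : ℝ) - RR k h * z.re = RR k h * (p.1 / RR k h - z.re) := by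
      field_simp
    rw [e1, abs_mul, abs_of_pos hR0]
    exact mul_le_mul_of_nonneg_left h1 hR0.le
  · have e1 : (p.2 : ℝ) - RR k h * z.im = RR k h * (p.2 / RR k h - z.im) := by
      field_simp
    rw [e1, abs_mul, abs_of_pos hR0]
    exact mul_le_mul_of_nonneg_left h2 hR0.le

end Pool.Agent.H51.W
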