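import Mathlib
import Pool.Agent.H51.W.VCh
import Pool.Agent.H55.W.BlkS

set_option autoImplicit false
open Finset

/-! # Route W, D9 (StChd, V2): final form of the block of the chord of a polygon

`vCh_final` : the block event read from `O`, which contains the room labels outside
`BR (vc N M' h Y k) (9 s h)` and the labels `rp m` of the plates at distance at least `28 s h` columns. -/

namespace Pool.Agent.H51.W

open Pool.Agent.H75.Perc hiding WL CT hh PB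
open Pool.Agent.H75.TwoArm Pool.Agent.H75.Four Pool.Agent.H60.Q1 Pool.Agent.H33.Q1
open Pool.Agent.Q1.M4 (Cell)
open Pool.Agent.H91.W hiding cT
open Pool.Agent.H99.NC
open Pool.Agent.H58.W Pool.Agent.H50.W Pool.Agent.H55.W

/-- **chord of a polygon, final form** -/
theorem vCh_final : ∃ kap : ℝ, 0 < kap ∧ ∀ (b : ℤ) (N M' h : ℕ) (X Y k : ℤ) (s r : ℕ), 2 ≤ h →
    8 * M' ≤ s → s ≤ r → VWin b N M' X k r → ∀ dU dL : ℤ → ℤ, (∀ m, 0 ≤ dU m ∧ dU m ≤ 1) →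
    (∀ m, 0 ≤ dL m ∧ dL m ≤ 1) → ∀ {β : Type*} [DecidableEq β] (E O : Finset (ℤ × ℤ))
    (bl : ℤ × ℤ → β) (rp : ℤ → ℤ × ℤ),
    (vCh b N M' h Y dU dL).OkB (vc N M' h Y k) (10 * r * h) E bl rp →
    (∀ e ∈ (vCh b N M' h Y dU dL).rooms (vc N M' h Y k) (10 * r * h),
      e ∉ BR (vc N M' h Y k) (9 * s * h) → e ∈ O) →
    (∀ m : ℤ, 2 * ((M' : ℤ) * h) * (m + 1) ≤ 2 * h * (M' * k) - 28 * s * h ∨
      2 * h * (M' * k) + 28 * s * h ≤ 2 * ((M' : ℤ) * h) * m →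
      (vCh b N M' h Y dU dL).Win (vc N M' h Y k) (10 * r * h) m → rp m ∈ O) →
    ∀ st : ℤ → Prop,
    PB E bl (fun ω => ¬ (vCh b N M' h Y dU dL).BlkS (vc N M' h Y k) (KW rp st) (s * h) (r * h)
      (ω ∩ O)) ≤ (3 * (s : ℝ) / r) ^ kap ∧
    PB E bl (fun ω => ¬ (vCh b N M' h Y dU dL).BlkS (vc N M' h Y k) (KE rp st) (s * h) (r * h)
      (ω ∩ O)) ≤ (3 * (s : ℝ) / r) ^ kap := by
  obtain ⟨kap, hk, H⟩ := vCh_dyadic
  refine ⟨kap, hk, ?_⟩
  intro b N M' h X Y k s r hh hs hsr hw dU dL hU hL β _ E O bl rp hB hO1 hO2 st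
  obtain ⟨g1, g2⟩ := H b N M' h X Y k s r hh hs hsr hw dU dL hU hL E bl rp hB st
  have hM : (0 : ℤ) < M' := by exact_mod_cast hw.M0
  have hh' : (0 : ℤ) < h := by exact_mod_cast (by omega : 0 < h)
  have hN : 0 < (vCh b N M' h Y dU dL).N := by
    show (0 : ℤ) < M' * h
    positivity
  have hs1 : 1 ≤ s := by have := hw.M0; omega
  have hO : ∀ u : ℕ, s * h ≤ u → 3 * u ≤ r * h →
      (vCh b N M' h Y dU dL).W (vc N M' h Y k) rp E u ⊆ O := by
    intro u hu hu'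
    have a1 : (s * h : ℤ) ≤ u := by exact_mod_cast hu
    have a2 : (3 * u : ℤ) ≤ r * h := by exact_mod_cast hu'
    have a3 : (1 : ℤ) ≤ s * h := by
      have : (1 : ℤ) ≤ s := by exact_mod_cast hs1
      nlinarith
    refine W_sub_O (R := 10 * r * h) (ρ := 9 * s * h) (ρ' := 28 * s * h) (by nlinarith) (by omega)
      (by nlinarith) (by nlinarith) hO1 (fun m hm hw' => hO2 m ?_ hw') hN
    have e1 : (vCh b N M' h Y dU dL).X0 + 2 * (vCh b N M' h Y dU dL).N * (m + 1) =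
      2 * ((M' : ℤ) * h) * (m + 1) := by unfold vCh; simp only; ring
    have e2 : (vCh b N M' h Y dU dL).X0 + 2 * (vCh b N M' h Y dU dL).N * m =
      2 * ((M' : ℤ) * h) * m := by unfold vCh; simp only; ring
    rw [e1, e2, vc_sum] at hm
    exact hm
  exact ⟨blkS_le KLoc_W hO g1, blkS_le KLoc_E hO g2⟩

/-- **Block of the chord of a polygon in a world with its own labels** (`O` : rectangle form). The labels
of the rooms are single coins, `vrp m` is a label of the coin `(m, Y)`. `O` contains the labels of `E`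
outside a rectangle around `(x_s, L Y)`, `x_s = 2 h M' k`, and outside the rows `L Y < y < L Y + 2 h`. -/
theorem vG_block : ∃ kap : ℝ, 0 < kap ∧ ∀ (b : ℤ) (N M' h : ℕ) (X Y k : ℤ) (s r : ℕ), 2 ≤ h →
    8 * M' ≤ s → s ≤ r → VWin b N M' X k r → ∀ dU dL : ℤ → ℤ, (∀ m, 0 ≤ dU m ∧ dU m ≤ 1) →
    (∀ m, 0 ≤ dL m ∧ dL m ≤ 1) → ∀ (E O : Finset (ℤ × ℤ)) (bl : ℤ × ℤ → (ℤ × ℤ) ⊕ (ℤ × ℤ)),
    (∀ e ∈ (vCh b N M' h Y dU dL).rooms (vc N M' h Y k) (10 * r * h), e ∈ E ∧ bl e = Sum.inl e) →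
    (∀ m : ℤ, N * X ≤ m → m < N * (X + 1) →
      vrp N M' h Y m ∈ E ∧ bl (vrp N M' h Y m) = Sum.inr (m, Y)) →
    ∀ xl xr ρ A : ℤ, 2 * h * (M' * k) - A ≤ xl → xr ≤ 2 * h * (M' * k) + A →
    A + ρ + 1 ≤ 18 * s * h → 0 ≤ ρ →
    (∀ e ∈ E, ¬ ((xl ≤ tX e ∧ tX e < xr) ∧ ((N * M' : ℕ) : ℤ) * Y * (2 * h) - ρ ≤ tY e ∧
        tY e < ((N * M' : ℕ) : ℤ) * Y * (2 * h) + ρ) →
      ¬ (((N * M' : ℕ) : ℤ) * Y * (2 * h) < tY e ∧ tY e < ((N * M' : ℕ) : ℤ) * Y * (2 * h) + 2 * h) →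
      e ∈ O) → ∀ st : ℤ → Prop,
    PB E bl (fun ω => ¬ (vCh b N M' h Y dU dL).BlkS (vc N M' h Y k) (KW (vrp N M' h Y) st)
      (s * h) (r * h) (ω ∩ O)) ≤ (3 * (s : ℝ) / r) ^ kap ∧
    PB E bl (fun ω => ¬ (vCh b N M' h Y dU dL).BlkS (vc N M' h Y k) (KE (vrp N M' h Y) st)
      (s * h) (r * h) (ω ∩ O)) ≤ (3 * (s : ℝ) / r) ^ kap := by
  obtain ⟨kap, hk, H⟩ := vCh_final
  refine ⟨kap, hk, ?_⟩
  intro b N M' h X Y k s r hh hs hsr hw dU dL hU hL E O bl hR hP xl xr ρ A hxl hxr hA hρ hO st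
  have hh0 : 0 < h := by omega
  have hh' : (0 : ℤ) < h := by exact_mod_cast hh0
  have hM : (0 : ℤ) < M' := by exact_mod_cast hw.M0
  have hwp : ∀ {m : ℤ}, (vCh b N M' h Y dU dL).Win (vc N M' h Y k) (10 * r * h) m →
      N * X ≤ m ∧ m < N * (X + 1) := fun hm => vWin_plate hw hh0 hm
  have hB : (vCh b N M' h Y dU dL).OkB (vc N M' h Y k) (10 * r * h) E bl (vrp N M' h Y) :=
    Ch.okB_of (k := fun m => (m, Y)) (fun e he => (hR e he).1) (fun e he => (hR e he).2)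
      (fun m hm => hP m (hwp hm).1 (hwp hm).2) (fun m m' _ _ h => congrArg Prod.fst h)
  refine H b N M' h X Y k s r hh hs hsr hw dU dL hU hL E O bl (vrp N M' h Y) hB ?_ ?_ st
  · intro e he heB
    obtain ⟨h1, -, h3⟩ := vCh_rooms (G := ∅) hw hh0 hU hL he
    obtain ⟨ho, g2, g3, -, -⟩ := vCh_box hw hh0 h1
    -- the plate over `e`
    have hN : (0 : ℤ) < (M' : ℤ) * h := by positivity
    have hpl : 1 ≤ (N : ℤ) * b - plx 0 (M' * h) (tX e) := by
      have p1 : plx 0 (M' * h) (tX e) < N * (X + 1) := by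
        refine plx_lt hN ?_
        have : (0 : ℤ) + 2 * (M' * h) * (N * (X + 1)) = ((N * M' : ℕ) : ℤ) * (X + 1) * (2 * h) := by
          push_cast; ring
        rw [this]; exact g3
      have p2 : N * (X + 1) ≤ N * b := mul_le_mul_of_nonneg_left hw.hb (by positivity)
      omega
    set T : ℤ := (N : ℤ) * b - plx 0 (M' * h) (tX e) with hT
    set B : ℤ := ((N * M' : ℕ) : ℤ) with hBd
    have hTn : 2 * (h : ℤ) ≤ T * (2 * h) := by nlinarith
    have e1 : (B * Y + T) * (2 * (h : ℤ)) = B * Y * (2 * h) + T * (2 * h) := by ring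
    have e2 : (-(B * Y) + T) * (2 * (h : ℤ)) = -(B * Y * (2 * h)) + T * (2 * h) := by ring
    rw [e1, e2] at h3
    have d1 := (hU (plx 0 (M' * h) (tX e))).1
    have d2 := (hL (plx 0 (M' * h) (tX e))).1
    refine hO e (hR e he).1 ?_ ?_
    · rintro ⟨⟨k1, k2⟩, k3, k4⟩
      refine heB (rect_BR (A := A) (B := ρ) (by linarith) ho ?_ ?_)
      · rw [vc_sum, abs_le]
        constructor <;> linarith
      · rw [vc_dif, abs_le]
        constructor <;> linarith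
    · rintro ⟨k1, k2⟩
      rcases h3 with h3 | h3 <;> linarith
  · intro m hm hwm
    have hsh : (8 * M' : ℤ) * h ≤ s * h := by
      have : (8 * M' : ℤ) ≤ s := by exact_mod_cast hs
      nlinarith
    have hMh : (1 : ℤ) ≤ M' * h := by nlinarith
    refine hO _ (hP m (hwp hwm).1 (hwp hwm).2).1 ?_ ?_
    · rintro ⟨⟨k1, k2⟩, -⟩
      rw [vrp_tX] at k1 k2
      have e2 : 2 * ((M' : ℤ) * h) * (m + 1) = 2 * ((M' : ℤ) * h) * m + 2 * (M' * h) := by ring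
      rw [e2] at hm
      have hA' : A + ρ + 1 ≤ 18 * (s * h : ℤ) := by linarith
      rcases hm with hm | hm
      · linarith
      · linarith
    · rw [vrp_tY]
      rintro ⟨k1, -⟩
      exact lt_irrefl _ k1

end Pool.Agent.H51.W
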