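import Mathlib
import Pool.Agent.H51.W.VChE

set_option autoImplicit false
open Finset

/-! # StChd, V10: the numbers of the comparison with the canonical worlds (82's `vnum`)

`n = 2 h` tiles per fine cell, `m = n k.2` columns of a plate, `L = n k.1 k.2` tiles per coarse unit.
`k0 z σ N` : index of the plate boundary `xs = m k0`, right of all ends within `σ` of `z`. -/

namespace Pool.Agent.H51.W

open Pool.Agent.Q1.M4 (Cell)
open Pool.Agent.H13.W (chG)
open Pool.Agent.H74.W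
open Filter Metric

/-- plate index of `xs` : right of all moving ends -/
noncomputable def k0 (z : ℂ) (s : ℝ) (N : ℕ) : ℤ := ⌊(N : ℝ) * (z.re + s)⌋ + 2

/-- columns -/
lemma vnum_h {L m x0 x1 σ g A xs p : ℝ} (h1 : |p - L * x1| ≤ L * g) (h2 : g ≤ σ - |x1 - x0|)
    (hL : 0 ≤ L) (k1 : L * x0 + L * σ + m < xs) (k2 : xs ≤ L * x0 + L * σ + 2 * m) (hm : 2 ≤ m)
    (hA : 2 * (L * σ) + 2 * m ≤ A) : xs - A ≤ p ∧ p + 2 < xs := by
  obtain ⟨a1, a2⟩ := abs_le.1 h1
  obtain ⟨b1, b2⟩ := abs_le.1 (le_refl |x1 - x0|)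
  have u1 : L * (x1 - x0 + g) ≤ L * σ := mul_le_mul_of_nonneg_left (by linarith) hL
  have u2 : L * (-σ) ≤ L * (x1 - x0 - g) := mul_le_mul_of_nonneg_left (by linarith) hL
  constructor <;> linarith

/-- rows -/
lemma vnum_v {L y0 y1 σ δ g A q lw : ℝ} (h1 : |q - L * y1| ≤ L * g) (hδ : δ = |y1 - y0|)
    (hδ0 : 0 < δ) (g1 : g ≤ δ / 2) (g3 : g ≤ σ - δ) (hL : 0 < L) (hA : L * σ ≤ A)
    (hlow : lw ≤ L * (δ / 2)) : |q - L * y0| ≤ A ∧ lw ≤ |q - L * y0| ∧ (y0 < y1 → L * y0 < q) ∧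
      (y1 < y0 → q < L * y0) := by
  obtain ⟨a1, a2⟩ := abs_le.1 h1
  have u1 : L * g ≤ L * (δ / 2) := mul_le_mul_of_nonneg_left g1 hL.le
  have u2 : L * g ≤ L * (σ - δ) := mul_le_mul_of_nonneg_left g3 hL.le
  have u3 : 0 < L * δ := by positivity
  rcases lt_trichotomy y0 y1 with h | h | h
  · have e : L * δ = L * y1 - L * y0 := by rw [hδ, abs_of_pos (by linarith)]; ring
    rw [abs_of_pos (by linarith)]
    refine ⟨by linarith, by linarith, fun _ => by linarith, fun h' => absurd h' h.le.not_gt⟩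
  · rw [hδ, h, sub_self, abs_zero] at hδ0
    exact absurd hδ0 (lt_irrefl _)
  · have e : L * δ = L * y0 - L * y1 := by rw [hδ, abs_of_neg (by linarith)]; ring
    rw [abs_of_neg (by linarith)]
    refine ⟨by linarith, by linarith, fun h' => absurd h' h.le.not_gt, fun _ => by linarith⟩

/-- **Numbers of V10** (82) -/
theorem vnum {Q : Finset Cell} {b : ℤ} (hb : ∀ c ∈ chG Q, c.1 < b) {z0 : ℂ} (hz0 : z0 ∈ chU Q)
    (hz : ∀ m : ℤ, z0.re ≠ m) (a0 : ℤ) :
    ∃ X Y : ℤ, (X, Y) ∈ chG Q ∧ (X : ℝ) < z0.re ∧ z0.re < X + 1 ∧ z0.im = Y ∧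
      ∃ r0 > (0 : ℝ), ∃ C0 : ℝ, 0 ≤ C0 ∧ ∀ σ, 0 < σ → σ < r0 → ∀ z1 ∈ ball z0 σ, z1.im ≠ z0.im →
        ∃ ρ > (0 : ℝ), ∀ᶠ k in lK, ∀ h : ℕ, 2 ≤ h → ∃ (s r : ℕ) (A : ℤ),
          4 * ((2 * h : ℤ) * k.2) ≤ s ∧ s ≤ r ∧ 2 * A + 8 ≤ 18 * s ∧ 0 ≤ A ∧
          3 * (s : ℝ) / r ≤ C0 * σ ∧
          (2 * h : ℤ) * (k.1 * k.2 : ℕ) * X + 20 * r ≤ (2 * h : ℤ) * k.2 * k0 z0 σ k.1 ∧
          (2 * h : ℤ) * k.2 * k0 z0 σ k.1 + 20 * r ≤ (2 * h : ℤ) * (k.1 * k.2 : ℕ) * (X + 1) ∧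
          20 * (r : ℤ) ≤ (2 * h : ℤ) * (3 * (k.1 * k.2) / 4 : ℕ) ∧
          64 * ((2 * h : ℤ) * (k.1 * (b - X))) + 128 * h ≤ (2 * h : ℤ) * k.2 ∧
          (k.1 : ℤ) * (b - a0) * (2 * h) + 2 * h + 2 < (2 * h : ℤ) * (3 * (k.1 * k.2) / 4 : ℕ) ∧
          ∀ p : ℤ × ℤ, dist (ps k h p) z1 < ρ →
            (2 * h : ℤ) * k.2 * k0 z0 σ k.1 - A ≤ p.1 ∧ p.1 + 2 < (2 * h : ℤ) * k.2 * k0 z0 σ k.1 ∧
            |p.2 - (2 * h : ℤ) * (k.1 * k.2 : ℕ) * Y| ≤ A - 4 ∧
            (2 * h : ℤ) * (k.1 * (b - X)) + 2 * (2 * h) + 4 ≤ |p.2 - (2 * h : ℤ) * (k.1 * k.2 : ℕ) * Y| ∧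
            (z0.im < z1.im → (2 * h : ℤ) * (k.1 * k.2 : ℕ) * Y < p.2) ∧
            (z1.im < z0.im → p.2 < (2 * h : ℤ) * (k.1 * k.2 : ℕ) * Y) := by
  obtain ⟨⟨X, Y⟩, hG, him, hx1, hx2⟩ := hz0
  simp only at him hx1 hx2
  have hx1' : (X : ℝ) < z0.re := lt_of_le_of_ne hx1 (hz X).symm
  have hx2' : z0.re < X + 1 := by
    refine lt_of_le_of_ne hx2 ?_
    have := hz (X + 1)
    push_cast at this
    exact this
  refine ⟨X, Y, hG, hx1', hx2', him, ?_⟩
  set d : ℝ := min (z0.re - X) (X + 1 - z0.re) with hd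
  have hd0 : 0 < d := lt_min (by linarith) (by linarith)
  have hdl : d ≤ z0.re - X := min_le_left _ _
  have hdr : d ≤ X + 1 - z0.re := min_le_right _ _
  have hd1 : d ≤ 1 / 2 := by linarith
  refine ⟨d / 640, by positivity, 1920 / d, by positivity, ?_⟩
  intro σ hσ hσr z1 hz1 him1
  have hbX : X + 1 ≤ b := by have := hb _ hG; simp only at this; omega
  -- distances
  rw [mem_ball, dist_eq_norm] at hz1
  have hre : |z1.re - z0.re| < σ := by
    have := Complex.abs_re_le_norm (z1 - z0)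
    rw [Complex.sub_re] at this
    linarith
  have him2 : |z1.im - z0.im| < σ := by
    have := Complex.abs_im_le_norm (z1 - z0)
    rw [Complex.sub_im] at this
    linarith
  have hδ : 0 < |z1.im - z0.im| := abs_pos.2 (sub_ne_zero.2 him1)
  set δ : ℝ := |z1.im - z0.im| with hδd
  set g : ℝ := min (δ / 2) (min ((σ - |z1.re - z0.re|)) (σ - δ)) with hg
  have hg0 : 0 < g := lt_min (by positivity) (lt_min (by linarith) (by linarith))
  have hg1 : g ≤ δ / 2 := min_le_left _ _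
  have hg2 : g ≤ σ - |z1.re - z0.re| := (min_le_right _ _).trans (min_le_left _ _)
  have hg3 : g ≤ σ - δ := (min_le_right _ _).trans (min_le_right _ _)
  refine ⟨g, hg0, ?_⟩
  unfold lK
  rw [Filter.eventually_curry_iff]
  -- large N
  filter_upwards [eventually_ge_atTop (⌈8 / (2 * σ)⌉₊ + ⌈16 / d⌉₊ + 1)] with N hN
  filter_upwards [eventually_ge_atTop (64 * (N * (b - X).toNat + 1) + ⌈1 / (2 * σ)⌉₊ + ⌈160 / d⌉₊ +
    ⌈2 * (N * (b - X).toNat + 3) / δ⌉₊ + 8 * (N * (b - a0).toNat + 4) + 16)] with M' hM' h hh2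
  have hN0 : 1 ≤ N := by omega
  have hN1 : 8 / (2 * σ) ≤ N :=
    (Nat.le_ceil _).trans (by exact_mod_cast (by omega : ⌈8 / (2 * σ)⌉₊ ≤ N))
  have hN2 : 16 / d ≤ N := (Nat.le_ceil _).trans (by exact_mod_cast (by omega : ⌈16 / d⌉₊ ≤ N))
  have hM1 : 1 / (2 * σ) ≤ M' :=
    (Nat.le_ceil _).trans (by exact_mod_cast (by omega : ⌈1 / (2 * σ)⌉₊ ≤ M'))
  have hM2 : 160 / d ≤ M' := (Nat.le_ceil _).trans (by exact_mod_cast (by omega : ⌈160 / d⌉₊ ≤ M'))
  have hM3 : 2 * ((N : ℝ) * (b - X).toNat + 3) / δ ≤ M' := by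
    refine (Nat.le_ceil _).trans ?_
    exact_mod_cast (by omega : ⌈2 * ((N : ℝ) * (b - X).toNat + 3) / δ⌉₊ ≤ M')
  have hM16 : 16 ≤ M' := by omega
  have hNr : (1 : ℝ) ≤ N := by exact_mod_cast hN0
  have hMr : (0 : ℝ) < M' := by exact_mod_cast (by omega : 0 < M')
  have hh : (0 : ℝ) < h := by exact_mod_cast (by omega : 0 < h)
  have hh2r : (2 : ℝ) ≤ h := by exact_mod_cast hh2
  rw [div_le_iff₀ (by positivity)] at hN1 hM1
  rw [div_le_iff₀ hd0] at hN2 hM2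
  rw [div_le_iff₀ hδ] at hM3
  set B : ℝ := ((N * M' : ℕ) : ℝ) with hB
  have hBe : B = N * M' := by rw [hB]; push_cast; ring
  have hMB : (M' : ℝ) ≤ B := by rw [hBe]; nlinarith
  have hB0 : 0 < B := lt_of_lt_of_le hMr hMB
  have h8 : 8 * (M' : ℝ) ≤ 2 * σ * B := by
    rw [hBe]
    have : 8 * (M' : ℝ) ≤ (N * (2 * σ)) * M' := mul_le_mul_of_nonneg_right hN1 hMr.le
    linarith
  have h2 : 1 ≤ 2 * σ * B := by
    have : (M' : ℝ) * (2 * σ) ≤ B * (2 * σ) := mul_le_mul_of_nonneg_right hMB (by positivity)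
    linarith
  have h160 : 160 ≤ d * B := by
    have : (M' : ℝ) * d ≤ B * d := mul_le_mul_of_nonneg_right hMB hd0.le
    linarith
  have h4 : 16 * (M' : ℝ) ≤ d * B := by
    rw [hBe]
    have : 16 * (M' : ℝ) ≤ (N * d) * M' := mul_le_mul_of_nonneg_right hN2 hMr.le
    linarith
  -- the numbers
  set s : ℕ := ⌈2 * σ * B⌉₊ with hs
  set r : ℕ := ⌊2 * (d / 160) * B⌋₊ with hr
  have hrle : (r : ℝ) ≤ 2 * (d / 160) * B := Nat.floor_le (by positivity)
  have hrge : d / 160 * B ≤ r := by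
    have h5 := Nat.lt_floor_add_one (2 * (d / 160) * B)
    rw [← hr] at h5
    have h6 : (1 : ℝ) ≤ d / 160 * B := by linarith
    linarith
  have hr0 : (0 : ℝ) < r := lt_of_lt_of_le (by positivity) hrge
  have hsge : 2 * σ * B ≤ s := Nat.le_ceil _
  have hsle : (s : ℝ) ≤ 4 * σ * B := by
    have h5 := Nat.ceil_lt_add_one (a := 2 * σ * B) (by positivity)
    rw [← hs] at h5
    linarith
  have hsr : (s : ℝ) ≤ r := by
    have : 4 * σ * B ≤ d / 160 * B := mul_le_mul_of_nonneg_right (by linarith) hB0.le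
    linarith
  have h8s : 8 * (M' : ℝ) ≤ s := h8.trans hsge
  -- `k0`
  set K : ℤ := k0 z0 σ N with hK
  have hK1 : (N : ℝ) * (z0.re + σ) + 1 < K := by
    have := Int.lt_floor_add_one ((N : ℝ) * (z0.re + σ))
    rw [hK]; unfold k0; push_cast; linarith
  have hK2 : (K : ℝ) ≤ N * (z0.re + σ) + 2 := by
    have := Int.floor_le ((N : ℝ) * (z0.re + σ))
    rw [hK]; unfold k0; push_cast; linarith
  have e1 : (M' : ℝ) * K ≤ M' * (N * (z0.re + σ) + 2) := mul_le_mul_of_nonneg_left hK2 hMr.le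
  have e2 : (M' : ℝ) * (N * (z0.re + σ) + 1) < M' * K := mul_lt_mul_of_pos_left hK1 hMr
  have e3 : (M' : ℝ) * (N * (z0.re + σ) + 2) = B * z0.re + B * σ + 2 * M' := by rw [hBe]; ring
  have e4 : (M' : ℝ) * (N * (z0.re + σ) + 1) = B * z0.re + B * σ + M' := by rw [hBe]; ring
  rw [e3] at e1
  rw [e4] at e2
  have f1 : B * (X : ℝ) + B * d ≤ B * z0.re := by
    have := mul_le_mul_of_nonneg_left hdl hB0.le
    linarith
  have f2 : B * z0.re + B * d ≤ B * ((X : ℝ) + 1) := by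
    have := mul_le_mul_of_nonneg_left hdr hB0.le
    linarith
  have f3 : B * σ ≤ d * B / 640 := by
    have : B * σ ≤ B * (d / 640) := mul_le_mul_of_nonneg_left hσr.le hB0.le
    linarith
  have hσB : 0 < B * σ := by positivity
  set A : ℤ := ⌈4 * (h : ℝ) * (B * σ)⌉ + 4 * h * M' + 4 with hA
  have hA1 : 4 * (h : ℝ) * (B * σ) + 4 * h * M' + 4 ≤ A := by
    have := Int.le_ceil (4 * (h : ℝ) * (B * σ))
    rw [hA]; push_cast; linarith
  have hA2 : (A : ℝ) ≤ 4 * (h : ℝ) * (B * σ) + 4 * h * M' + 5 := by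
    have := (Int.ceil_lt_add_one (4 * (h : ℝ) * (B * σ))).le
    rw [hA]; push_cast; linarith
  have hhM : (0 : ℝ) < h * M' := by positivity
  have hM16r : (16 : ℝ) ≤ M' := by exact_mod_cast hM16
  have hhM32 : (32 : ℝ) ≤ h * M' := by
    have := mul_le_mul hh2r hM16r (by norm_num) hh.le
    linarith
  -- integer forms
  have q1 : (N : ℤ) * M' * X + 10 * r ≤ M' * K := by
    have : (N : ℝ) * M' * X + 10 * r ≤ M' * K := by
      rw [← hBe]
      linarith
    exact_mod_cast this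
  have q2 : (M' : ℤ) * K + 10 * r ≤ N * M' * (X + 1) := by
    have : (M' : ℝ) * K + 10 * r ≤ N * M' * (X + 1) := by
      rw [← hBe]
      linarith
    exact_mod_cast this
  have hhz : (0 : ℤ) < h := by exact_mod_cast (by omega : 0 < h)
  have q3 : 10 * r ≤ 3 * (N * M') / 4 := by
    have h5 : 40 * (r : ℝ) + 4 ≤ 3 * B := by
      have h6 : d * B ≤ 1 / 2 * B := mul_le_mul_of_nonneg_right hd1 hB0.le
      have h7 : (16 : ℝ) ≤ B := le_trans hM16r hMB
      linarith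
    have h6 : 40 * r + 4 ≤ 3 * (N * M') := by
      have : ((40 * r + 4 : ℕ) : ℝ) ≤ ((3 * (N * M') : ℕ) : ℝ) := by
        push_cast
        rw [hB] at h5
        push_cast at h5
        exact h5
      exact_mod_cast this
    omega
  have htN : ((b - X).toNat : ℤ) = b - X := Int.toNat_of_nonneg (by omega)
  have hMM : M' ≤ N * M' := Nat.le_mul_of_pos_left M' (by omega)
  refine ⟨s * h, r * h, A, ?_, ?_, ?_, ?_, ?_, ?_, ?_, ?_, ?_, ?_, ?_⟩
  · have h5 : (8 * M' : ℤ) ≤ s := by exact_mod_cast h8s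
    have h6 := mul_le_mul_of_nonneg_right h5 hhz.le
    push_cast
    linarith
  · exact Nat.mul_le_mul_right h (by exact_mod_cast hsr)
  · have h5 := mul_le_mul_of_nonneg_right hsge hh.le
    have h6 := mul_le_mul_of_nonneg_right h8s hh.le
    have : (2 * (A : ℝ) + 8) ≤ 18 * (s * h) := by
      have e : 2 * σ * B * h = 2 * (h * (B * σ)) := by ring
      rw [e] at h5
      linarith
    push_cast
    exact_mod_cast this
  · have : (0 : ℝ) ≤ A := by
      have : (0 : ℝ) ≤ 4 * h * (B * σ) := by positivity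
      linarith
    exact_mod_cast this
  · push_cast
    rw [← mul_assoc, mul_div_mul_right _ _ hh.ne', div_le_iff₀ hr0]
    have h5 : 12 * σ * B = 1920 / d * σ * (d / 160 * B) := by
      field_simp
      ring
    calc 3 * (s : ℝ) ≤ 12 * σ * B := by linarith
      _ = 1920 / d * σ * (d / 160 * B) := h5
      _ ≤ 1920 / d * σ * r := mul_le_mul_of_nonneg_left hrge (by positivity)
  · have h6 := mul_le_mul_of_nonneg_left q1 hhz.le
    push_cast
    linarith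
  · have h6 := mul_le_mul_of_nonneg_left q2 hhz.le
    push_cast
    linarith
  · have h5 : (10 * r : ℤ) ≤ (3 * (N * M') / 4 : ℕ) := by exact_mod_cast q3
    have h6 := mul_le_mul_of_nonneg_left h5 hhz.le
    push_cast at h6 ⊢
    linarith
  · have h6 : 64 * (N * (b - X).toNat + 1) ≤ M' := by omega
    have h7 : (64 : ℤ) * (N * ((b - X).toNat : ℤ) + 1) ≤ M' := by exact_mod_cast h6
    rw [htN] at h7
    have h8 := mul_le_mul_of_nonneg_left h7 hhz.le
    linarith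
  · have h6 : N * (b - a0).toNat + 3 ≤ 3 * (N * M') / 4 := by omega
    have h7 : (N : ℤ) * (b - a0) + 3 ≤ (3 * (N * M') / 4 : ℕ) := by
      have h8 : ((N * (b - a0).toNat + 3 : ℕ) : ℤ) ≤ (3 * (N * M') / 4 : ℕ) := by exact_mod_cast h6
      have h9 : b - a0 ≤ ((b - a0).toNat : ℤ) := Int.self_le_toNat _
      have h10 : (N : ℤ) * (b - a0) ≤ N * ((b - a0).toNat : ℤ) :=
        mul_le_mul_of_nonneg_left h9 (by positivity)
      push_cast at h8 ⊢
      linarith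
    have h2z : (2 : ℤ) ≤ h := by exact_mod_cast hh2
    have h8 := mul_le_mul_of_nonneg_left h7 hhz.le
    linarith
  · intro p hp
    have hkk : 0 < N * M' := by omega
    obtain ⟨p1, p2⟩ := ps_near (k := (N, M')) hkk (by omega : 0 < h) hp
    simp only at p1 p2
    rw [← hB] at p1 p2
    have hL0 : 0 < 2 * (h : ℝ) * B := by positivity
    have v1 := mul_le_mul_of_nonneg_left e1 (by positivity : (0 : ℝ) ≤ 2 * h)
    have v2 := mul_lt_mul_of_pos_left e2 (by positivity : (0 : ℝ) < 2 * h)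
    have hXr : ((b : ℝ) - X) = ((b - X).toNat : ℝ) := by
      have : (((b - X).toNat : ℤ) : ℝ) = ((b - X : ℤ) : ℝ) := by rw [htN]
      push_cast at this
      linarith
    have hlow : (2 * (h : ℝ)) * (N * (b - X)) + 2 * (2 * h) + 4 ≤ 2 * h * B * (δ / 2) := by
      rw [hXr]
      have h10 : (0 : ℝ) ≤ M' * δ / 2 := by positivity
      have h11 : 1 * (M' * δ / 2) ≤ N * (M' * δ / 2) := mul_le_mul_of_nonneg_right hNr h10
      have h9 : (N : ℝ) * (b - X).toNat + 3 ≤ N * (M' * δ / 2) := by linarith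
      have h11 : (2 * (h : ℝ)) * (N * (b - X).toNat + 3) ≤ 2 * h * (N * (M' * δ / 2)) :=
        mul_le_mul_of_nonneg_left h9 (by positivity)
      have h12 : 2 * (h : ℝ) * (N * (M' * δ / 2)) = 2 * h * B * (δ / 2) := by rw [hBe]; ring
      rw [h12] at h11
      linarith
    obtain ⟨c1, c2⟩ := vnum_h (L := 2 * h * B) (m := 2 * h * M') (x0 := z0.re) (x1 := z1.re)
      (σ := σ) (g := g) (A := A) (xs := 2 * h * M' * K) (p := p.1) p1 hg2 hL0.le (by linarith)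
      (by linarith) (by linarith) (by linarith)
    obtain ⟨c3, c4, c5, c6⟩ := vnum_v (L := 2 * h * B) (y0 := z0.im) (y1 := z1.im)
      (σ := σ) (δ := δ) (g := g) (A := A - 4) (q := p.2) p2 hδd hδ hg1 hg3 hL0 (by linarith) hlow
    rw [him] at c3 c4 c5 c6
    have hYr : ((2 * (h : ℤ) * ((N * M' : ℕ) : ℤ) * Y : ℤ) : ℝ) = 2 * h * B * Y := by
      rw [hB]; push_cast; ring
    have hcast : ((|p.2 - 2 * (h : ℤ) * ((N * M' : ℕ) : ℤ) * Y| : ℤ) : ℝ) =
        |(p.2 : ℝ) - 2 * h * B * Y| := by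
      rw [Int.cast_abs, Int.cast_sub, hYr]
    rw [← hcast] at c3 c4
    rw [← hYr] at c5 c6
    clear_value B δ g s r A K
    refine ⟨by exact_mod_cast c1, by exact_mod_cast c2, by exact_mod_cast c3, by exact_mod_cast c4,
      fun h' => ?_, fun h' => ?_⟩
    · rw [him] at h'
      exact_mod_cast c5 h'
    · rw [him] at h'
      exact_mod_cast c6 h'

end Pool.Agent.H51.W
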