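import Mathlib
import Pool.Agent.H51.W.VP
import Pool.Agent.H82.W.VBlk

set_option autoImplicit false
open Finset

/-! # Route W, D9 (StChd, V2): probability of 82's block event (whole plates) in `WU`, `WL`

`cm_pCh` : 82's `CM` for the chord `pCh` of the picture. `pG_full` : probability of the event of `blkU`, `blkL`. -/

namespace Pool.Agent.H51.W

open Pool.Agent.H75.Perc hiding WL CT hh PB
open Pool.Agent.H75.TwoArm Pool.Agent.H75.Four Pool.Agent.H60.Q1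
open Pool.Agent.H33.Q1 (lt tt ct lt_odd tt_lt lt_tt lt_inj)
open Pool.Agent.H91.W hiding cT
open Pool.Agent.H99.NC
open Pool.Agent.H58.W Pool.Agent.H55.W Pool.Agent.H78.W
open Pool.Agent.H82.W (CM rpG dUs)
open Pool.Agent.H19.W (cx cy cx_lt cy_lt lt_cc)

variable {κ : Type*}

/-- 82's `CM` for the chord of the picture -/
theorem cm_pCh {G : Pic κ} {xl H : ℤ} {r : ℕ} {dU dL : ℤ → ℤ} (hG : G.Ok xl H)
    (hw : PWin G xl H r) (hH : 20 * (r : ℤ) < H) : CM G (pCh G dU dL) (pv G) (10 * r) dU dL xl H := by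
  obtain ⟨M', hM', e1, e2⟩ := pm hG
  have e3 := pYc hG
  refine ⟨rfl, ?_, fun i => ?_, fun i => ?_, pv_sum hG, pv_dif hG, ?_, ?_, ?_⟩
  · show 2 * (G.m / 2) = G.m
    rw [e2, e1]
  · show (G.Yc / (2 * G.h) + (G.B - i)) * (2 * G.h) + dU i = _
    rw [add_mul, e3]; ring
  · show (-(G.Yc / (2 * G.h)) + (G.B - i)) * (2 * G.h) + dL i = _
    rw [add_mul, neg_mul, e3]; ring
  · have := hw.lef; linarith
  · have := hw.rig; linarith
  · linarith

lemma rpG_prp (G : Pic κ) : rpG G = prp G := rfl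

lemma dUs_dR (G : Pic κ) : dUs G = dR G := rfl

/-- **Probability of the block event of 82's `blkU`, `blkL`**, radii in tiles. `O` contains the labels left of
the tooth which are neither deleted nor in the rectangle. -/
theorem pG_full : ∃ kap : ℝ, 0 < kap ∧ ∀ {κ : Type*} [DecidableEq κ] (G : Pic κ) (xl H : ℤ)
    (s r : ℕ), G.Ok xl H → PWin G xl H r → 4 * G.m ≤ s → s ≤ r → ∀ A ρ : ℤ, 0 ≤ ρ →
    A + ρ + 1 ≤ 18 * s → ∀ (O : Finset (ℤ × ℤ)) (st : ℤ → Prop),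
    (O ⊆ G.E → (∀ e ∈ G.E, cx e < G.xe → e ∉ G.DN G.xs G.Yd → e ∉ Rec G A ρ → e ∈ O) →
      PB G.WU.E G.WU.b (fun ω => ¬ (pCh G (dUs G) fun _ => 0).BlkS (pv G)
        (KFull O (bb G.plU) (rpG G) (KW (rpG G) st)) s r (ω ∩ O)) ≤ (3 * (s : ℝ) / r) ^ kap) ∧
    (O ⊆ G.E \ G.Rt →
      (∀ e ∈ G.E \ G.Rt, cx e < G.xe → e ∉ G.DN G.xs G.Yd → e ∉ Rec G A ρ → e ∈ O) →
      PB G.WL.E G.WL.b (fun ω => ¬ (pCh G (fun _ => 0) (dUs G)).BlkS (pv G)
        (KFull O (bb G.plL) (rpG G) (KW (rpG G) st)) s r (ω ∩ O)) ≤ (3 * (s : ℝ) / r) ^ kap) := by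
  obtain ⟨kap, hk, D⟩ := pG_block
  refine ⟨kap, hk, ?_⟩
  intro κ _ G xl H s r hG hw hs hsr A ρ hρ hA O st
  obtain ⟨d1, d2⟩ := D G xl H s r hG hw hs hsr A ρ hρ hA O st
  obtain ⟨M', hM', e1, e2⟩ := pm hG
  have hh : (0 : ℤ) < G.h := by exact_mod_cast hG.hh
  have hMh : 0 < M' * (G.h : ℤ) := by positivity
  have hDN : ∀ e : ℤ × ℤ, cy e ≠ G.Yd → cx e < G.xe → e ∉ G.DN G.xs G.Yd := by
    rintro e h1 h2 ⟨-, h3 | h3⟩
    · exact h1 h3.1
    · have h4 := h3.2.2.1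
      have h5 := hG.xet
      linarith
  -- the reference labels of the plates of the annuli
  have hrp : ∀ (dU dL : ℤ → ℤ) (E : Finset (ℤ × ℤ)) (bl : ℤ × ℤ → (ℤ × ℤ) ⊕ κ),
      (pCh G dU dL).OkB (pv G) (10 * r) E bl (prp G) →
      (∀ e ∈ E, e ∉ Rec G A ρ → cy e ≠ G.Yd → xl ≤ cx e → cx e < G.xe → G.Yc - H ≤ cy e →
        cy e < G.Yc + H → e ∈ O) →
      ∀ u : ℕ, s ≤ u → 3 * u ≤ r → ∀ i, ((pCh G dU dL).isW (pv G) u i ∨
        (pCh G dU dL).isE (pv G) u i) → prp G i ∈ O := by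
    intro dU dL E bl hB hO u hu hu' i hi
    have a1 : (s : ℤ) ≤ u := by exact_mod_cast hu
    have a2 : (3 * u : ℤ) ≤ r := by exact_mod_cast hu'
    have a3 : (1 : ℤ) ≤ s := by rw [e1] at hs; linarith
    have hN : (pCh G dU dL).N = M' * G.h := e2
    have hN0 : 0 < (pCh G dU dL).N := by rw [hN]; exact hMh
    have hwi : (pCh G dU dL).Win (pv G) (10 * r) i := by
      rcases hi with h | h
      · exact isW_win hN0 (by linarith) (by linarith) h
      · exact isE_win hN0 (by linarith) (by linarith) h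
    refine pO_prp hG hw hA hρ hs hwi ?_ (hO _ (hB.mem i hwi))
    have f1 : ∀ j : ℤ, (pCh G dU dL).X0 + 2 * (pCh G dU dL).N * j = G.m * j := by
      intro j
      show 0 + 2 * (G.m / 2) * j = G.m * j
      rw [e2, e1]; ring
    unfold Ch.isW Ch.isE at hi
    rw [f1, f1, pv_sum hG] at hi
    rcases hi with h | h
    · left; linarith [h.2]
    · right; linarith [h.1]
  constructor
  · intro hOE hO
    have hO' : ∀ e ∈ G.WU.E, e ∉ Rec G A ρ → cy e ≠ G.Yd → xl ≤ cx e → cx e < G.xe →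
        G.Yc - H ≤ cy e → cy e < G.Yc + H → e ∈ O :=
      fun e he h1 h2 _ h3 _ _ => hO e he h3 (hDN e h2 h3) h1
    exact (blkFull_le (b := G.WU.b) hOE (hrp (dUs G) (fun _ => 0) G.WU.E G.WU.b
      (okB_WU hG hw) hO')).trans (d1 hO').1
  · intro hOE hO
    have hO' : ∀ e ∈ G.WL.E, e ∉ Rec G A ρ → cy e ≠ G.Yd → xl ≤ cx e → cx e < G.xe →
        G.Yc - H ≤ cy e → cy e < G.Yc + H → e ∈ O :=
      fun e he h1 h2 _ h3 _ _ => hO e he h3 (hDN e h2 h3) h1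
    exact (blkFull_le (b := G.WL.b) hOE (hrp (fun _ => 0) (dUs G) G.WL.E G.WL.b
      (okB_WL hG hw) hO')).trans (d2 hO').1

end Pool.Agent.H51.W
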