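import Mathlib
import Pool.Agent.H51.W.VChE
import Pool.Agent.H51.W.VP

set_option autoImplicit false
open Finset

/-! # Route W, D9 (StChd, V2): the numbers of the block of a picture at a point `z0` of a chord

`L = 2 h N M'` tiles per coarse unit. `PNum b N M' h X k0 r` : the inequalities of the window of radius
`20 r` tiles around `xs = 2 h M' k0` in the coarse column `X`. `pNum` : the radii `s`, `r` (tiles) at the
scale `σ` (coarse units). `PNum.win` : `PWin` of a picture with these numbers. -/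

namespace Pool.Agent.H51.W

open Pool.Agent.Q1.M4 (Cell)
open Pool.Agent.H13.W (chG)
open Pool.Agent.H74.W Pool.Agent.H78.W
open Filter

/-- inequalities of the window -/
structure PNum (b : ℤ) (N M' h : ℕ) (X k0 : ℤ) (r : ℕ) : Prop where
  h2 : 2 ≤ h
  M0 : 0 < M'
  lef : 2 * h * (N * M') * X + 20 * r ≤ 2 * h * M' * k0
  rig : 2 * h * M' * k0 + 20 * r ≤ 2 * h * (N * M') * (X + 1)
  top : 40 * (r : ℤ) + 2 * h ≤ h * (N * M')
  thin : 64 * (2 * h * (N * (b - X))) + 128 * h ≤ 2 * (h : ℤ) * M'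

/-- `PWin` of a picture with these numbers -/
theorem PNum.win {κ : Type*} {G : Pic κ} {xl H b : ℤ} {N M' h r : ℕ} {X k0 : ℤ}
    (hn : PNum b N M' h X k0 r) (eh : G.h = h) (em : G.m = 2 * h * M') (eB : G.B = N * b)
    (exs : G.xs = 2 * h * M' * k0) (exl : xl = 2 * h * (N * M') * X)
    (exe : 2 * h * (N * M') * (X + 1) ≤ G.xe) (eH : (h : ℤ) * (N * M') - 2 * h ≤ 2 * H) :
    PWin G xl H r := by
  have hM : (0 : ℤ) < M' := by exact_mod_cast hn.M0
  have hh : (0 : ℤ) < h := by exact_mod_cast (by have := hn.h2; omega : 0 < h)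
  refine ⟨by rw [eh]; exact hn.h2, ?_, ?_, ?_, ?_⟩
  · rw [exl, exs]; exact hn.lef
  · rw [exs]; exact hn.rig.trans exe
  · have := hn.top
    linarith
  · have e1 : xl / G.m = N * X := by
      rw [exl, em]
      have : 2 * (h : ℤ) * (N * M') * X = (2 * h * M') * (N * X) := by ring
      rw [this]
      exact Int.mul_ediv_cancel_left _ (by positivity)
    rw [e1, eh, em, eB]
    have := hn.thin
    have e2 : (N : ℤ) * b - N * X = N * (b - X) := by ring
    rw [e2]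
    exact this

/-- **The radii of the block at the point `z0` of a chord**, in tiles; `σ` = scale in coarse units,
`L = 2 h N M'`. -/
theorem pNum {Q : Finset Cell} {b : ℤ} (hb : ∀ c ∈ chG Q, c.1 < b)
    {z0 : ℂ} (hz0 : z0 ∈ chU Q) (hz : ∀ m : ℤ, z0.re ≠ m) :
    ∃ X Y : ℤ, (X, Y) ∈ chG Q ∧ (X : ℝ) < z0.re ∧ z0.re < X + 1 ∧ z0.im = Y ∧
      ∃ r1 : ℝ, 0 < r1 ∧ ∀ σ > (0 : ℝ), 2 * σ ≤ r1 → ∀ᶠ k in lK, ∀ h : ℕ, 2 ≤ h →
        ∃ s r : ℕ, σ * (2 * h * ((k.1 * k.2 : ℕ) : ℝ)) ≤ s ∧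
          (s : ℝ) ≤ 2 * σ * (2 * h * ((k.1 * k.2 : ℕ) : ℝ)) ∧ 4 * (2 * h * k.2) ≤ s ∧ s ≤ r ∧
          r1 * (2 * h * ((k.1 * k.2 : ℕ) : ℝ)) ≤ r ∧ 3 * (s : ℝ) / r ≤ 6 / r1 * σ ∧
          ∀ k0 : ℤ, |(k0 : ℝ) - k.1 * z0.re| ≤ 2 → PNum b k.1 k.2 h X k0 r := by
  obtain ⟨⟨X, Y⟩, hG, him, hx1, hx2⟩ := hz0
  simp only at him hx1 hx2
  have hx1' : (X : ℝ) < z0.re := lt_of_le_of_ne hx1 (hz X).symm
  have hx2' : z0.re < X + 1 := by
    refine lt_of_le_of_ne hx2 ?_
    have := hz (X + 1)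
    push_cast at this
    exact this
  refine ⟨X, Y, hG, hx1', hx2', him, ?_⟩
  set d : ℝ := min (z0.re - X) (X + 1 - z0.re) with hd
  have hd0 : 0 < d := lt_min (by linarith) (by linarith)
  have hdl : d ≤ z0.re - X := min_le_left _ _
  have hdr : d ≤ X + 1 - z0.re := min_le_right _ _
  have hd1 : d ≤ 1 / 2 := by linarith
  refine ⟨d / 160, by positivity, ?_⟩
  intro σ hσ hAσ
  have hbX : X + 1 ≤ b := by have := hb _ hG; simp only at this; omega
  unfold lK
  rw [Filter.eventually_curry_iff]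
  -- large N
  filter_upwards [eventually_ge_atTop (⌈8 / (2 * σ)⌉₊ + ⌈8 / d⌉₊ + 1)] with N hN
  filter_upwards [eventually_ge_atTop (64 * (N * (b - X).toNat + 1) + ⌈1 / (2 * σ)⌉₊ + ⌈80 / d⌉₊ + 16)]
    with M' hM' h hh2
  have hN0 : 1 ≤ N := by omega
  have hN1 : 8 / (2 * σ) ≤ N :=
    (Nat.le_ceil _).trans (by exact_mod_cast (by omega : ⌈8 / (2 * σ)⌉₊ ≤ N))
  have hN2 : 8 / d ≤ N := (Nat.le_ceil _).trans (by exact_mod_cast (by omega : ⌈8 / d⌉₊ ≤ N))
  have hM1 : 1 / (2 * σ) ≤ M' :=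
    (Nat.le_ceil _).trans (by exact_mod_cast (by omega : ⌈1 / (2 * σ)⌉₊ ≤ M'))
  have hM2 : 80 / d ≤ M' := (Nat.le_ceil _).trans (by exact_mod_cast (by omega : ⌈80 / d⌉₊ ≤ M'))
  have hM16 : 16 ≤ M' := by omega
  have hNr : (1 : ℝ) ≤ N := by exact_mod_cast hN0
  have hMr : (0 : ℝ) < M' := by exact_mod_cast (by omega : 0 < M')
  have hh : (0 : ℝ) < h := by exact_mod_cast (by omega : 0 < h)
  rw [div_le_iff₀ (by positivity)] at hN1 hM1
  rw [div_le_iff₀ hd0] at hN2 hM2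
  set B : ℝ := ((N * M' : ℕ) : ℝ) with hB
  have hBe : B = N * M' := by rw [hB]; push_cast; ring
  have hMB : (M' : ℝ) ≤ B := by rw [hBe]; nlinarith
  have hB0 : 0 < B := lt_of_lt_of_le hMr hMB
  have h8 : 8 * (M' : ℝ) ≤ 2 * σ * B := by
    rw [hBe]
    have : 8 * (M' : ℝ) ≤ (N * (2 * σ)) * M' := mul_le_mul_of_nonneg_right hN1 hMr.le
    linarith
  have h2 : 1 ≤ 2 * σ * B := by
    have : (M' : ℝ) * (2 * σ) ≤ B * (2 * σ) := mul_le_mul_of_nonneg_right hMB (by positivity)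
    linarith
  have h80 : 80 ≤ d * B := by
    have : (M' : ℝ) * d ≤ B * d := mul_le_mul_of_nonneg_right hMB hd0.le
    linarith
  have h4 : 8 * (M' : ℝ) ≤ d * B := by
    rw [hBe]
    have : 8 * (M' : ℝ) ≤ (N * d) * M' := mul_le_mul_of_nonneg_right hN2 hMr.le
    linarith
  -- the numbers
  set s : ℕ := ⌈2 * σ * B⌉₊ with hs
  set r : ℕ := ⌊2 * (d / 80) * B⌋₊ with hr
  have hrle : (r : ℝ) ≤ 2 * (d / 80) * B := Nat.floor_le (by positivity)
  have hrge : d / 80 * B ≤ r := by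
    have h5 := Nat.lt_floor_add_one (2 * (d / 80) * B)
    rw [← hr] at h5
    have h6 : (1 : ℝ) ≤ d / 80 * B := by linarith
    linarith
  have hr0 : (0 : ℝ) < r := lt_of_lt_of_le (by positivity) hrge
  have hsge : 2 * σ * B ≤ s := Nat.le_ceil _
  have hsle : (s : ℝ) ≤ 4 * σ * B := by
    have h5 := Nat.ceil_lt_add_one (a := 2 * σ * B) (by positivity)
    rw [← hs] at h5
    linarith
  have hsr : (s : ℝ) ≤ r := by
    have : 4 * σ * B ≤ d / 80 * B := mul_le_mul_of_nonneg_right (by linarith) hB0.le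
    linarith
  have h8s : 8 * M' ≤ s := by
    have : 8 * (M' : ℝ) ≤ s := h8.trans hsge
    exact_mod_cast this
  refine ⟨s * h, r * h, ?_, ?_, ?_, ?_, ?_, ?_, ?_⟩
  · push_cast
    have := mul_le_mul_of_nonneg_right hsge hh.le
    linarith
  · push_cast
    have := mul_le_mul_of_nonneg_right hsle hh.le
    linarith
  · have := Nat.mul_le_mul_right h h8s
    calc 4 * (2 * h * M') = 8 * M' * h := by ring
      _ ≤ s * h := this
  · exact Nat.mul_le_mul_right h (by exact_mod_cast hsr)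
  · push_cast
    have := mul_le_mul_of_nonneg_right hrge hh.le
    linarith
  · push_cast
    rw [← mul_assoc, mul_div_mul_right _ _ hh.ne', div_le_iff₀ hr0]
    have h5 : 12 * σ * B = 6 / (d / 160) * σ * (d / 80 * B) := by
      field_simp
      ring
    calc 3 * (s : ℝ) ≤ 12 * σ * B := by linarith
      _ = 6 / (d / 160) * σ * (d / 80 * B) := h5
      _ ≤ 6 / (d / 160) * σ * r := mul_le_mul_of_nonneg_left hrge (by positivity)
  · intro k0 hk0
    rw [abs_le] at hk0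
    have e1 : (M' : ℝ) * k0 ≤ M' * (N * z0.re + 2) := mul_le_mul_of_nonneg_left (by linarith) hMr.le
    have e2 : (M' : ℝ) * (N * z0.re - 2) ≤ M' * k0 := mul_le_mul_of_nonneg_left (by linarith) hMr.le
    have e3 : (M' : ℝ) * (N * z0.re) = B * z0.re := by rw [hBe]; ring
    have f1 : B * (X : ℝ) + B * d ≤ B * z0.re := by
      have := mul_le_mul_of_nonneg_left hdl hB0.le
      linarith
    have f2 : B * z0.re + B * d ≤ B * ((X : ℝ) + 1) := by
      have := mul_le_mul_of_nonneg_left hdr hB0.le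
      linarith
    have g1 : (N : ℤ) * M' * X + 10 * r ≤ M' * k0 := by
      have : (N : ℝ) * M' * X + 10 * r ≤ M' * k0 := by
        rw [← hBe]
        linarith
      exact_mod_cast this
    have g2 : (M' : ℤ) * k0 + 10 * r ≤ N * M' * (X + 1) := by
      have : (M' : ℝ) * k0 + 10 * r ≤ N * M' * (X + 1) := by
        rw [← hBe]
        linarith
      exact_mod_cast this
    have g3 : 40 * (r : ℤ) + 2 ≤ N * M' := by
      have h5 : 40 * (r : ℝ) + 2 ≤ B := by
        have h6 : d * B ≤ 1 / 2 * B := mul_le_mul_of_nonneg_right hd1 hB0.le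
        have h7 : (16 : ℝ) ≤ B := le_trans (by exact_mod_cast hM16) hMB
        linarith
      rw [hBe] at h5
      exact_mod_cast h5
    have hhz : (0 : ℤ) < h := by exact_mod_cast (by omega : 0 < h)
    refine ⟨hh2, by omega, ?_, ?_, ?_, ?_⟩
    · push_cast
      nlinarith
    · push_cast
      nlinarith
    · push_cast
      nlinarith
    · have h5 : ((b - X).toNat : ℤ) = b - X := Int.toNat_of_nonneg (by omega)
      have h6 : 64 * (N * (b - X).toNat + 1) ≤ M' := by omega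
      have h7 : (64 : ℤ) * (N * ((b - X).toNat : ℤ) + 1) ≤ M' := by exact_mod_cast h6
      rw [h5] at h7
      nlinarith

end Pool.Agent.H51.W
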